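import Pool.Agent.Helper63.TS.Defs

/-!
# The trace of the adjugate of the derivative along a cycle
-/

set_option autoImplicit false

namespace Pool.Agent.Helper63.TS

open MvPolynomial
open Pool.Agent.Helper36 (step iter)
open Pool.Agent.Helper30.TP
open Pool.Agent.Helper63.TK

variable {k : Type} [Field k]

theorem mult_add (f : Fin 3 → MvPolynomial (Fin 3) k) (z : Fin 3 → k) (a b : ℕ) :
    mult f z (a + b) = mult f (iter f z a) b * mult f z a := by
  induction b with
  | zero =>
    change mult f z a = 1 * mult f z a
    rw [one_mul]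
  | succ b ih =>
    change jac f (iter f z (a + b)) * mult f z (a + b) =
      (jac f (iter f (iter f z a) b) * mult f (iter f z a) b) * mult f z a
    rw [ih, Matrix.mul_assoc, add_comm a b, Pool.Agent.Helper36.iter_add]

theorem adj_minor {A : Matrix (Fin 3) (Fin 3) k} (hA : A.det = 0) (a b c e : Fin 3) :
    A.adjugate a b * A.adjugate c e = A.adjugate a e * A.adjugate c b := by
  have h1 : A.adjugate.adjugate = 0 := by
    rw [Matrix.adjugate_adjugate A (by simp), hA]
    simp
  generalize A.adjugate = B at *
  rw [Matrix.adjugate_fin_three] at h1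
  have h00 := congrFun (congrFun h1 0) 0
  have h01 := congrFun (congrFun h1 0) 1
  have h02 := congrFun (congrFun h1 0) 2
  have h10 := congrFun (congrFun h1 1) 0
  have h11 := congrFun (congrFun h1 1) 1
  have h12 := congrFun (congrFun h1 1) 2
  have h20 := congrFun (congrFun h1 2) 0
  have h21 := congrFun (congrFun h1 2) 1
  have h22 := congrFun (congrFun h1 2) 2
  simp only [Matrix.of_apply, Matrix.cons_val_zero, Matrix.cons_val_one, Matrix.cons_val,
    Matrix.zero_apply] at h00 h01 h02 h10 h11 h12 h20 h21 h22
  fin_cases a <;> fin_cases b <;> fin_cases c <;> fin_cases e <;>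
    simp only [Fin.zero_eta, Fin.mk_one, Fin.reduceFinMk] <;>
    first
      | ring1
      | linear_combination h00
      | linear_combination -h00
      | linear_combination h01
      | linear_combination -h01
      | linear_combination h02
      | linear_combination -h02
      | linear_combination h10
      | linear_combination -h10
      | linear_combination h11
      | linear_combination -h11
      | linear_combination h12
      | linear_combination -h12
      | linear_combination h20
      | linear_combination -h20
      | linear_combination h21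
      | linear_combination -h21
      | linear_combination h22
      | linear_combination -h22

theorem Trace_iter_smul {d : ℕ} {f : Fin 3 → MvPolynomial (Fin 3) k}
    (hf : ∀ i, (f i).IsHomogeneous d) {s : k} (hs : s ≠ 0) (z : Fin 3 → k) (n : ℕ) :
    ∃ c : k, c ≠ 0 ∧ iter f (s • z) n = c • iter f z n := by
  induction n with
  | zero => exact ⟨s, hs, rfl⟩
  | succ n ih =>
    obtain ⟨c, hc, h⟩ := ih
    refine ⟨c ^ d, pow_ne_zero _ hc, ?_⟩
    rw [Pool.Agent.Helper36.iter_succ, Pool.Agent.Helper36.iter_succ, h]
    funext i
    exact Pool.Agent.Helper36.aeval_smul_homogeneous (hf i) c _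

theorem Trace_jac_smul {d : ℕ} {f : Fin 3 → MvPolynomial (Fin 3) k}
    (hf : ∀ i, (f i).IsHomogeneous d) (s : k) (z : Fin 3 → k) :
    jac f (s • z) = s ^ (d - 1) • jac f z := by
  ext i j
  exact eval_smul_hom ((hf i).pderiv) s z

theorem Trace_mult_smul {d : ℕ} {f : Fin 3 → MvPolynomial (Fin 3) k}
    (hf : ∀ i, (f i).IsHomogeneous d) {s : k} (hs : s ≠ 0) (z : Fin 3 → k) (n : ℕ) :
    ∃ c : k, c ≠ 0 ∧ mult f (s • z) n = c • mult f z n := by
  induction n with
  | zero => exact ⟨1, one_ne_zero, (one_smul k _).symm⟩
  | succ n ih =>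
    obtain ⟨c, hc, h⟩ := ih
    obtain ⟨e, he, h'⟩ := Trace_iter_smul hf hs z n
    refine ⟨e ^ (d - 1) * c, mul_ne_zero (pow_ne_zero _ he) hc, ?_⟩
    change jac f (iter f (s • z) n) * mult f (s • z) n = _ • (jac f (iter f z n) * mult f z n)
    rw [h, h', Trace_jac_smul hf, Matrix.smul_mul, Matrix.mul_smul, smul_smul]

theorem trace_ne_zero {d : ℕ} {f : Fin 3 → MvPolynomial (Fin 3) k}
    (hf : ∀ i, (f i).IsHomogeneous d) {z : Fin 3 → k} {m i n c : ℕ} (hmi : m ≤ i) (hic : i ≤ c)
    (hcn : c < n) (hper : PEq (iter f z i) (iter f z n)) (hJ : eval (iter f z i) (jf f) = 0)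
    (hadj : (mult f (iter f z m) (n + 1 - m)).adjugate ≠ 0) :
    (mult f (iter f z c) (n - i)).adjugate.trace ≠ 0 := by
  obtain ⟨s, hs, hn⟩ := hper
  have hit : ∀ a b : ℕ, a ≤ b → iter f (iter f z a) (b - a) = iter f z b := by
    intro a b hab
    rw [← Pool.Agent.Helper36.iter_add, Nat.sub_add_cancel hab]
  have hdet : (jac f (iter f z i)).det = 0 := by rw [← eval_jf]; exact hJ
  -- the decomposition at `i`
  have h1 : mult f (iter f z m) (n + 1 - m) =
      jac f (iter f z n) * mult f (iter f z i) (n - i) * mult f (iter f z m) (i - m) := by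
    have e1 : n + 1 - m = (i - m) + ((n - i) + 1) := by omega
    rw [e1, mult_add, hit m i hmi]
    congr 1
    change jac f (iter f (iter f z i) (n - i)) * mult f (iter f z i) (n - i) = _
    rw [hit i n (by omega)]
  have h2 : (mult f (iter f z i) (n - i)).adjugate * (jac f (iter f z i)).adjugate ≠ 0 := by
    intro h0
    apply hadj
    rw [h1, Matrix.adjugate_mul_distrib, Matrix.adjugate_mul_distrib, hn, Trace_jac_smul hf,
      Matrix.adjugate_smul, Matrix.mul_smul, h0, smul_zero, Matrix.mul_zero]
  -- the first factor
  have h3 : (mult f (iter f z i) (n - i)).adjugate =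
      (jac f (iter f z i)).adjugate *
        (mult f (iter f (iter f z i) 1) (n - i - 1)).adjugate := by
    have e1 : n - i = 1 + (n - i - 1) := by omega
    conv_lhs => rw [e1, mult_add]
    rw [Matrix.adjugate_mul_distrib]
    congr 2
    change jac f (iter f z i) * 1 = _
    rw [Matrix.mul_one]
  have h4 : (mult f (iter f z i) (n - i)).adjugate.trace ≠ 0 := by
    intro h0
    apply h2
    rw [h3] at h0 ⊢
    generalize (mult f (iter f (iter f z i) 1) (n - i - 1)).adjugate = W at *
    ext a b
    have h5 : ((jac f (iter f z i)).adjugate * W * (jac f (iter f z i)).adjugate) a b =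
        (jac f (iter f z i)).adjugate a b * ((jac f (iter f z i)).adjugate * W).trace := by
      rw [Matrix.mul_apply, Matrix.trace, Finset.mul_sum]
      refine Finset.sum_congr rfl fun e _ => ?_
      rw [Matrix.diag_apply, Matrix.mul_apply, Matrix.mul_apply, Finset.sum_mul, Finset.mul_sum]
      refine Finset.sum_congr rfl fun c' _ => ?_
      have h6 := adj_minor hdet a c' e b
      linear_combination W c' e * h6
    rw [h5, h0, mul_zero]
    rfl
  -- comparison of the traces
  have h5 : mult f (iter f z c) (n - i) =
      mult f (iter f z n) (c - i) * mult f (iter f z c) (n - c) := by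
    have e1 : n - i = (n - c) + (c - i) := by omega
    rw [e1, mult_add, hit c n hcn.le]
  obtain ⟨s', hs', h6⟩ := Trace_mult_smul hf hs (iter f z i) (c - i)
  have h7 : mult f (iter f z i) (n - i) =
      mult f (iter f z c) (n - c) * mult f (iter f z i) (c - i) := by
    have e1 : n - i = (c - i) + (n - c) := by omega
    rw [e1, mult_add, hit i c hic]
  rw [h7, Matrix.adjugate_mul_distrib] at h4
  rw [h5, hn, h6, Matrix.adjugate_mul_distrib, Matrix.adjugate_smul, Matrix.mul_smul,
    Matrix.trace_smul, Matrix.trace_mul_comm, smul_eq_mul]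
  exact mul_ne_zero (pow_ne_zero _ hs') h4

end Pool.Agent.Helper63.TS
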