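import Pool.Agent.Helper63.TS.Defs

/-!
# Polynomials in a chart
-/

set_option autoImplicit false

namespace Pool.Agent.Helper63.TS

open MvPolynomial

variable {S : Type} [CommRing S]

theorem eval_ch (e : Fin 3 → Fin 3 → S) (P : MvPolynomial (Fin 3) S) (q : Fin 2 → S) :
    eval q (ch e P) = eval (pt e q) P := by
  unfold ch
  induction P using MvPolynomial.induction_on with
  | C a => simp
  | add p r hp hr => rw [map_add, map_add, hp, hr, map_add]
  | mul_X p i hp =>
    rw [map_mul, map_mul, hp, map_mul, aeval_X, eval_X]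
    simp [pt]

theorem coeff_ch (e : Fin 3 → Fin 3 → S) (P : MvPolynomial (Fin 3) S) :
    (ch e P).coeff 0 = eval (e 0) P := by
  have h1 := eval_ch e P 0
  have h2 : pt e 0 = e 0 := by
    funext i
    simp [pt]
  rw [h2] at h1
  rw [← h1, ← constantCoeff_eq]
  exact (congrArg (fun φ => φ (ch e P)) eval_zero).symm

theorem ch_coeff_mul (a : Fin 2) (A B : MvPolynomial (Fin 2) S) :
    (A * B).coeff (Finsupp.single a 1) =
      A.coeff (Finsupp.single a 1) * B.coeff 0 + A.coeff 0 * B.coeff (Finsupp.single a 1) := by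
  classical
  rw [coeff_mul, Finsupp.antidiagonal_single]
  simp [Finset.Nat.antidiagonal_succ]
  ring

theorem ch_coeff_one (a : Fin 2) (e : Fin 3 → Fin 3 → S) (P : MvPolynomial (Fin 3) S) :
    (ch e P).coeff (Finsupp.single a 1) = ∑ j, eval (e 0) (pderiv j P) * e a.succ j := by
  classical
  induction P using MvPolynomial.induction_on with
  | C c =>
    have h1 : ch e (C c) = C c := by
      unfold ch
      rw [aeval_C, algebraMap_eq]
    rw [h1, coeff_C, if_neg (by
      intro h
      have := DFunLike.congr_fun h a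
      simp at this)]
    simp
  | add p q hp hq =>
    have h1 : ch e (p + q) = ch e p + ch e q := by
      unfold ch
      rw [map_add]
    rw [h1, coeff_add, hp, hq, ← Finset.sum_add_distrib]
    refine Finset.sum_congr rfl fun j _ => ?_
    rw [map_add, map_add]
    ring
  | mul_X p i hp =>
    have h1 : ch e (p * X i) = ch e p * (C (e 0 i) + X 0 * C (e 1 i) + X 1 * C (e 2 i)) := by
      unfold ch
      rw [map_mul, aeval_X]
    have h2 : (C (e 0 i) + X 0 * C (e 1 i) + X 1 * C (e 2 i) : MvPolynomial (Fin 2) S).coeff 0 =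
        e 0 i := by
      rw [mul_comm (X 0), mul_comm (X 1), coeff_add, coeff_add, coeff_C_mul, coeff_C_mul]
      simp
    have h3 : (C (e 0 i) + X 0 * C (e 1 i) + X 1 * C (e 2 i) : MvPolynomial (Fin 2) S).coeff
        (Finsupp.single a 1) = e a.succ i := by
      rw [mul_comm (X 0), mul_comm (X 1), coeff_add, coeff_add, coeff_C, coeff_C_mul, coeff_C_mul,
        coeff_X, coeff_X]
      have z : ∀ b : Fin 2, ¬ (0 : Fin 2 →₀ ℕ) = Finsupp.single b 1 := by
        intro b h
        have := DFunLike.congr_fun h b
        simp at this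
      simp only [if_neg (z a), Finsupp.single_left_inj one_ne_zero]
      fin_cases a
      · simp
      · simp
    rw [h1, ch_coeff_mul, h2, h3, hp, coeff_ch, Finset.sum_mul]
    have h4 : eval (e 0) p * e a.succ i =
        ∑ j, (if j = i then eval (e 0) p * e a.succ j else 0) := by
      simp
    rw [h4, ← Finset.sum_add_distrib]
    refine Finset.sum_congr rfl fun j _ => ?_
    rw [Derivation.leibniz, map_add]
    simp only [smul_eq_mul, map_mul, eval_X]
    by_cases hj : j = i
    · subst hj
      rw [if_pos rfl, pderiv_X_self, map_one]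
      ring
    · rw [if_neg hj, pderiv_X_of_ne (Ne.symm hj), map_zero]
      ring

theorem cX_ch (e : Fin 3 → Fin 3 → S) (P : MvPolynomial (Fin 3) S) :
    cX (ch e P) = ∑ j, eval (e 0) (pderiv j P) * e 1 j :=
  ch_coeff_one 0 e P

theorem cY_ch (e : Fin 3 → Fin 3 → S) (P : MvPolynomial (Fin 3) S) :
    cY (ch e P) = ∑ j, eval (e 0) (pderiv j P) * e 2 j :=
  ch_coeff_one 1 e P

theorem map_ch {T : Type} [CommRing T] (φ : S →+* T) (e : Fin 3 → Fin 3 → S)
    (P : MvPolynomial (Fin 3) S) :
    map φ (ch e P) = ch (fun a i => φ (e a i)) (map φ P) := by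
  unfold ch
  induction P using MvPolynomial.induction_on with
  | C a => simp
  | add p r hp hr => rw [map_add, map_add, hp, hr, map_add, map_add]
  | mul_X p i hp =>
    rw [map_mul, map_mul, hp, map_mul, map_mul, aeval_X, map_X, aeval_X]
    simp

end Pool.Agent.Helper63.TS
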