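import Pool.Agent.Helper63.TS.Defs

/-!
# Counting the places at which a value specialises to zero
-/

set_option autoImplicit false

namespace Pool.Agent.Helper63.TS

open MvPolynomial
open Pool.Agent.Helper16 (Place IsFunctionField)
open Pool.Agent.Helper36 (step iter)
open Pool.Agent.Helper30.TP
open Pool.Agent.Helper63.TK

section aux

variable {k K : Type} [Field k] [Field K] [Algebra k K]

theorem count_eval_smul {P : MvPolynomial (Fin 3) K} {e : ℕ} (hP : P.IsHomogeneous e) (c : K)
    (y : Fin 3 → K) : eval (c • y) P = c ^ e * eval y P := by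
  rw [eval_eq, eval_eq, Finset.mul_sum]
  refine Finset.sum_congr rfl fun m hm => ?_
  have hd : ∑ i ∈ m.support, m i = e := by
    have := hP (MvPolynomial.mem_support_iff.1 hm)
    rw [Finsupp.weight_apply] at this
    simpa [Finsupp.sum] using this
  have h : ∏ i ∈ m.support, (c • y) i ^ m i = c ^ e * ∏ i ∈ m.support, y i ^ m i := by
    rw [← hd, ← Finset.prod_pow_eq_pow_sum, ← Finset.prod_mul_distrib]
    refine Finset.prod_congr rfl fun i _ => ?_
    rw [Pi.smul_apply, smul_eq_mul, mul_pow]
  rw [h]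
  ring

/-- The local contribution of a place. -/
noncomputable def countG (e : ℕ) (P : MvPolynomial (Fin 3) K) (y : Fin 3 → K) (b : Place k K) : ℤ :=
  (e : ℤ) * WithZero.log (nrm b y) + WithZero.log (gs b P) - WithZero.log (b.val (eval y P))

theorem countG_nonneg {e : ℕ} {P : MvPolynomial (Fin 3) K} (hP : P.IsHomogeneous e)
    (b : Place k K) {y : Fin 3 → K} (hy : eval y P ≠ 0) : 0 ≤ countG e P y b := by
  have h0 : b.val (eval y P) ≠ 0 := (map_ne_zero b.val).2 hy
  have h1 := low_val_eval_le b hP y
  have h3 : gs b P * nrm b y ^ e ≠ 0 := by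
    intro h
    rw [h, le_zero_iff] at h1
    exact h0 h1
  have h2 := (WithZero.log_le_log h0 h3).2 h1
  rw [WithZero.log_mul (left_ne_zero_of_mul h3) (right_ne_zero_of_mul h3), WithZero.log_pow,
    nsmul_eq_mul] at h2
  unfold countG
  linarith

theorem one_le_countG {e : ℕ} {P : MvPolynomial (Fin 3) K} (hP : P.IsHomogeneous e)
    {b : Place k K} {y : Fin 3 → K} (hy0 : y ≠ 0) (hy : eval y P ≠ 0)
    (hb : b ∈ zset (k := k) P y) (hg : WithZero.log (gs b P) = 0) : 1 ≤ countG e P y b := by
  obtain ⟨p, z, hp, ⟨hz, c, hc, hcy⟩, h0⟩ := hb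
  have hn : nrm b (c • y) = 1 := Cl_nrm_red hz hcy
  have h1 := hp.eval (u := c • y) (z := z) hcy
  rw [h0, map_zero, sub_zero, count_eval_smul hP] at h1
  have hne : b.val (c ^ e * eval y P) ≠ 0 :=
    (map_ne_zero b.val).2 (mul_ne_zero (pow_ne_zero _ hc) hy)
  have h2 := (WithZero.log_lt_log hne one_ne_zero).2 h1
  have hc' : b.val c ≠ 0 := (map_ne_zero b.val).2 hc
  have hy' : b.val (eval y P) ≠ 0 := (map_ne_zero b.val).2 hy
  rw [WithZero.log_one, map_mul, map_pow, WithZero.log_mul (pow_ne_zero _ hc') hy',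
    WithZero.log_pow, nsmul_eq_mul] at h2
  have h3 := log_nrm_smul b hc hy0
  rw [hn, WithZero.log_one] at h3
  have h4 : WithZero.log (nrm b y) = - WithZero.log (b.val c) := by linarith
  unfold countG
  rw [hg, h4]
  have h5 : (e : ℤ) * -WithZero.log (b.val c) = -((e : ℤ) * WithZero.log (b.val c)) := by ring
  rw [h5]
  omega

end aux

variable {k K : Type} [Field k] [IsAlgClosed k] [Field K] [Algebra k K]

theorem countG_finsum (hK : IsFunctionField k K) {P : MvPolynomial (Fin 3) K} {e : ℕ}
    (hP0 : P ≠ 0) {y : Fin 3 → K} (hy0 : y ≠ 0) (hy : eval y P ≠ 0) :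
    (Function.support fun b : Place k K => countG e P y b).Finite ∧
      ∑ᶠ b : Place k K, countG e P y b = e * ht k y + hf k P := by
  have h1 := nrm_support hK y hy0
  obtain ⟨h2, h3⟩ := finsum_log hK _ hy
  have h5 := formHeight_support hK hP0
  have h4 : (Function.support fun b : Place k K =>
      (e : ℤ) * WithZero.log (nrm b y)).Finite := by
    refine h1.subset ?_
    intro b hb h
    apply hb
    have h' : WithZero.log (nrm b y) = 0 := h
    show (e : ℤ) * WithZero.log (nrm b y) = 0
    rw [h', mul_zero]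
  have h6 : (Function.support fun b : Place k K =>
      (e : ℤ) * WithZero.log (nrm b y) + WithZero.log (gs b P)).Finite :=
    (h4.union h5).subset (Function.support_add _ _)
  constructor
  · exact (h6.union h2).subset (Function.support_sub _ _)
  · unfold countG ht hf
    rw [finsum_sub_distrib h6 h2, h3, sub_zero, finsum_add_distrib h4 h5, mul_finsum]

theorem count_red (hK : IsFunctionField k K) {P : MvPolynomial (Fin 3) K} {e : ℕ}
    (hP : P.IsHomogeneous e) :
    ∃ C : ℤ, 0 ≤ C ∧ ∀ y : Fin 3 → K, y ≠ 0 → eval y P ≠ 0 →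
      (zset (k := k) P y).Finite ∧ (((zset (k := k) P y).ncard : ℕ) : ℤ) ≤ e * ht k y + C := by
  classical
  by_cases hP0 : P = 0
  · subst hP0
    exact ⟨0, le_rfl, fun y _ hy => absurd (map_zero _) hy⟩
  have hS := formHeight_support hK hP0
  set S : Finset (Place k K) := hS.toFinset with hSdef
  refine ⟨max (hf k P) 0 + S.card, by positivity, fun y hy0 hy => ?_⟩
  obtain ⟨hfin, hsum⟩ := countG_finsum (e := e) hK hP0 hy0 hy
  set T : Finset (Place k K) := hfin.toFinset with hTdef
  have hone : ∀ b ∈ zset (k := k) P y, b ∉ S → 1 ≤ countG e P y b := by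
    intro b hb hbS
    refine one_le_countG hP hy0 hy hb ?_
    by_contra h
    exact hbS (hS.mem_toFinset.2 h)
  have hsub : zset (k := k) P y ⊆ ((S ∪ T.filter fun b => 1 ≤ countG e P y b :
      Finset (Place k K)) : Set (Place k K)) := by
    intro b hb
    rw [Finset.mem_coe, Finset.mem_union]
    by_cases hbS : b ∈ S
    · exact Or.inl hbS
    · right
      have h := hone b hb hbS
      refine Finset.mem_filter.2 ⟨hfin.mem_toFinset.2 ?_, h⟩
      intro h0
      have h0' : countG e P y b = 0 := h0
      omega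
  refine ⟨(Finset.finite_toSet _).subset hsub, ?_⟩
  have h1 : (zset (k := k) P y).ncard ≤ (S ∪ T.filter fun b => 1 ≤ countG e P y b).card := by
    rw [← Set.ncard_coe_finset]
    exact Set.ncard_le_ncard hsub (Finset.finite_toSet _)
  have h2 := Finset.card_union_le S (T.filter fun b => 1 ≤ countG e P y b)
  have h3 : (((T.filter fun b => 1 ≤ countG e P y b).card : ℕ) : ℤ) ≤ ∑ b ∈ T, countG e P y b := by
    calc (((T.filter fun b => 1 ≤ countG e P y b).card : ℕ) : ℤ)
        = ∑ b ∈ T.filter fun b => 1 ≤ countG e P y b, (1 : ℤ) := by simp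
      _ ≤ ∑ b ∈ T.filter fun b => 1 ≤ countG e P y b, countG e P y b :=
          Finset.sum_le_sum fun b hb => (Finset.mem_filter.1 hb).2
      _ ≤ ∑ b ∈ T, countG e P y b :=
          Finset.sum_le_sum_of_subset_of_nonneg (Finset.filter_subset _ _)
            fun b _ _ => countG_nonneg hP b hy
  have h4 : ∑ b ∈ T, countG e P y b = e * ht k y + hf k P := by
    rw [← hsum]
    exact (finsum_eq_sum_of_support_subset _ (by rw [hTdef, Set.Finite.coe_toFinset])).symm
  have h5 : hf k P ≤ max (hf k P) 0 := le_max_left _ _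
  have h6 : (((zset (k := k) P y).ncard : ℕ) : ℤ) ≤
      (S.card : ℤ) + ((T.filter fun b => 1 ≤ countG e P y b).card : ℤ) := by
    exact_mod_cast h1.trans h2
  linarith

end Pool.Agent.Helper63.TS
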