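import Pool.Agent.Helper63.TS.Defs
import Pool.Agent.Helper63.TK.JacK

/-!
# Counting the places at which the derivatives of the iterates lose their rank
-/

set_option autoImplicit false

namespace Pool.Agent.Helper63.TS

open MvPolynomial
open Pool.Agent.Helper16 (Place IsFunctionField)
open Pool.Agent.Helper36 (step iter)
open Pool.Agent.Helper30.TP
open Pool.Agent.Helper63.TK

section aux

variable {k K : Type} [Field k] [Field K] [Algebra k K]

theorem CountAdj_int {b : Place k K} {a : K} {a' : k} (h : b.val (a - algebraMap k K a') < 1) :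
    b.val a ≤ 1 := by
  have h3 : a = (a - algebraMap k K a') + algebraMap k K a' := by ring
  rw [h3]
  exact (b.val.map_add _ _).trans (max_le h.le (b.val_algebraMap_le _))

theorem CountAdj_mul {b : Place k K} {a c : K} {a' c' : k}
    (h : b.val (a - algebraMap k K a') < 1) (h' : b.val (c - algebraMap k K c') < 1) :
    b.val (a * c - algebraMap k K (a' * c')) < 1 := by
  have e : a * c - algebraMap k K (a' * c') =
      (a - algebraMap k K a') * c + algebraMap k K a' * (c - algebraMap k K c') := by
    rw [map_mul]; ring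
  rw [e]
  refine b.val.map_add_lt ?_ ?_
  · rw [map_mul]
    exact mul_lt_one_of_lt_of_le h (CountAdj_int h')
  · rw [map_mul, mul_comm]
    exact mul_lt_one_of_lt_of_le h' (b.val_algebraMap_le _)

theorem CountAdj_sub {b : Place k K} {a c : K} {a' c' : k}
    (h : b.val (a - algebraMap k K a') < 1) (h' : b.val (c - algebraMap k K c') < 1) :
    b.val (a - c - algebraMap k K (a' - c')) < 1 := by
  have e : a - c - algebraMap k K (a' - c') =
      (a - algebraMap k K a') - (c - algebraMap k K c') := by
    rw [map_sub]; ring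
  rw [e]
  exact (b.val.map_sub _ _).trans_lt (max_lt h h')

theorem CountAdj_neg {b : Place k K} {a : K} {a' : k}
    (h : b.val (a - algebraMap k K a') < 1) : b.val (-a - algebraMap k K (-a')) < 1 := by
  have e : -a - algebraMap k K (-a') = -(a - algebraMap k K a') := by
    rw [map_neg]; ring
  rw [e, Valuation.map_neg]
  exact h

theorem CountAdj_add {b : Place k K} {a c : K} {a' c' : k}
    (h : b.val (a - algebraMap k K a') < 1) (h' : b.val (c - algebraMap k K c') < 1) :
    b.val (a + c - algebraMap k K (a' + c')) < 1 := by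
  have e : a + c - algebraMap k K (a' + c') =
      (a - algebraMap k K a') + (c - algebraMap k K c') := by
    rw [map_add]; ring
  rw [e]
  exact b.val.map_add_lt h h'

/-- Congruent matrices. -/
def CMat (b : Place k K) (M : Matrix (Fin 3) (Fin 3) K) (m : Matrix (Fin 3) (Fin 3) k) : Prop :=
  ∀ i j, b.val (M i j - algebraMap k K (m i j)) < 1

theorem CMat.one (b : Place k K) :
    CMat b (1 : Matrix (Fin 3) (Fin 3) K) (1 : Matrix (Fin 3) (Fin 3) k) := by
  intro i j
  by_cases h : i = j
  · subst h
    simp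
  · simp [Matrix.one_apply_ne h]

theorem CMat.mul {b : Place k K} {M N : Matrix (Fin 3) (Fin 3) K}
    {m n : Matrix (Fin 3) (Fin 3) k} (h : CMat b M m) (h' : CMat b N n) :
    CMat b (M * N) (m * n) := by
  intro i j
  rw [Matrix.mul_apply, Matrix.mul_apply, Fin.sum_univ_three, Fin.sum_univ_three]
  exact CountAdj_add (CountAdj_add (CountAdj_mul (h _ _) (h' _ _)) (CountAdj_mul (h _ _) (h' _ _)))
    (CountAdj_mul (h _ _) (h' _ _))

theorem CMat.adj {b : Place k K} {M : Matrix (Fin 3) (Fin 3) K}
    {m : Matrix (Fin 3) (Fin 3) k} (h : CMat b M m) : CMat b M.adjugate m.adjugate := by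
  have h2 : ∀ i j i' j' l p l' p', b.val (M i j * M i' j' - M l p * M l' p' -
      algebraMap k K (m i j * m i' j' - m l p * m l' p')) < 1 := fun i j i' j' l p l' p' =>
    CountAdj_sub (CountAdj_mul (h _ _) (h _ _)) (CountAdj_mul (h _ _) (h _ _))
  have h3 : ∀ i j i' j' l p l' p', b.val (-(M i j * M i' j') + M l p * M l' p' -
      algebraMap k K (-(m i j * m i' j') + m l p * m l' p')) < 1 := fun i j i' j' l p l' p' =>
    CountAdj_add (CountAdj_neg (CountAdj_mul (h _ _) (h _ _))) (CountAdj_mul (h _ _) (h _ _))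
  intro i j
  rw [Matrix.adjugate_fin_three, Matrix.adjugate_fin_three]
  fin_cases i <;> fin_cases j
  all_goals first
    | exact h2 _ _ _ _ _ _ _ _
    | exact h3 _ _ _ _ _ _ _ _

theorem CountAdj_mul_le {b : Place k K} {M N : Matrix (Fin 3) (Fin 3) K}
    {s t : WithZero (Multiplicative ℤ)} (hM : ∀ i j, b.val (M i j) ≤ s)
    (hN : ∀ i j, b.val (N i j) ≤ t) (i j : Fin 3) : b.val ((M * N) i j) ≤ s * t := by
  rw [Matrix.mul_apply]
  refine b.val.map_sum_le fun l _ => ?_
  rw [map_mul]
  exact mul_le_mul' (hM _ _) (hN _ _)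

theorem CountAdj_adj_le {b : Place k K} {M : Matrix (Fin 3) (Fin 3) K}
    {s : WithZero (Multiplicative ℤ)} (hM : ∀ i j, b.val (M i j) ≤ s) (i j : Fin 3) :
    b.val (M.adjugate i j) ≤ s * s := by
  have h1 : ∀ i j i' j', b.val (M i j * M i' j') ≤ s * s := fun i j i' j' => by
    rw [map_mul]
    exact mul_le_mul' (hM _ _) (hM _ _)
  have h2 : ∀ i j i' j' l p l' p', b.val (M i j * M i' j' - M l p * M l' p') ≤ s * s :=
    fun i j i' j' l p l' p' => (b.val.map_sub _ _).trans (max_le (h1 _ _ _ _) (h1 _ _ _ _))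
  have h3 : ∀ i j i' j' l p l' p', b.val (-(M i j * M i' j') + M l p * M l' p') ≤ s * s :=
    fun i j i' j' l p l' p' => (b.val.map_add _ _).trans
      (max_le (by rw [Valuation.map_neg]; exact h1 _ _ _ _) (h1 _ _ _ _))
  rw [Matrix.adjugate_fin_three]
  fin_cases i <;> fin_cases j
  all_goals first
    | exact h2 _ _ _ _ _ _ _ _
    | exact h3 _ _ _ _ _ _ _ _

theorem CountAdj_pderiv_gs (b : Place k K) (P : MvPolynomial (Fin 3) K) (j : Fin 3) :
    gs b (pderiv j P) ≤ gs b P := by
  refine formHeight_gs_le fun m => ?_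
  rw [coeff_pderiv, map_mul]
  have h1 : b.val ((m j : K) + 1) ≤ 1 := by
    have e : ((m j : K) + 1) = algebraMap k K ((m j : k) + 1) := by
      rw [map_add, map_natCast, map_one]
    rw [e]
    exact b.val_algebraMap_le _
  calc b.val (P.coeff (m + Finsupp.single j 1)) * b.val ((m j : K) + 1) ≤ gs b P * 1 :=
        mul_le_mul' (formHeight_le b P _) h1
    _ = gs b P := mul_one _

theorem CountAdj_iter (F : Fin 3 → MvPolynomial (Fin 3) K) (x : Fin 3 → K) (m l : ℕ) :
    iter F (iter F x m) l = iter F x (m + l) := by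
  rw [Nat.add_comm]
  exact (Function.iterate_add_apply _ _ _ _).symm

/-- The local constant. -/
noncomputable def gcst (b : Place k K) (F : Fin 3 → MvPolynomial (Fin 3) K) : ℤ :=
  ∑ i : Fin 3, max 0 (WithZero.log (gs b (F i)))

theorem gcst_nonneg (b : Place k K) (F : Fin 3 → MvPolynomial (Fin 3) K) : 0 ≤ gcst b F :=
  Finset.sum_nonneg fun _ _ => le_max_left _ _

theorem gs_le_gcst (b : Place k K) (F : Fin 3 → MvPolynomial (Fin 3) K) (i : Fin 3) :
    gs b (F i) ≤ WithZero.exp (gcst b F) := by
  apply WithZero.le_exp_of_log_le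
  have h1 : max 0 (WithZero.log (gs b (F i))) ≤ gcst b F :=
    Finset.single_le_sum (f := fun i => max 0 (WithZero.log (gs b (F i))))
      (fun i _ => le_max_left _ _) (Finset.mem_univ i)
  exact (le_max_right _ _).trans h1

theorem jac_le {d : ℕ} (hd : 1 ≤ d) (b : Place k K) {F : Fin 3 → MvPolynomial (Fin 3) K}
    (hF : ∀ i, (F i).IsHomogeneous d) {y : Fin 3 → K} (hy : y ≠ 0) (i j : Fin 3) :
    b.val (jac F y i j) ≤
      WithZero.exp (gcst b F + ((d : ℤ) - 1) * WithZero.log (nrm b y)) := by
  have h1 : b.val (jac F y i j) ≤ gs b (pderiv j (F i)) * nrm b y ^ (d - 1) :=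
    JacK_eval_le ((hF i).pderiv) b y
  have h2 : gs b (pderiv j (F i)) ≤ WithZero.exp (gcst b F) :=
    (CountAdj_pderiv_gs b (F i) j).trans (gs_le_gcst b F i)
  refine h1.trans ((mul_le_mul' h2 le_rfl).trans (le_of_eq ?_))
  rw [WithZero.exp_add]
  congr 1
  have hn := nrm_ne_zero (b := b) hy
  have h3 : WithZero.exp (WithZero.log (nrm b y)) = nrm b y := WithZero.exp_log hn
  have h4 : ((d : ℤ) - 1) * WithZero.log (nrm b y) = (d - 1 : ℕ) • WithZero.log (nrm b y) := by
    rw [nsmul_eq_mul]
    push_cast [Nat.cast_sub hd]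
    ring
  rw [h4, WithZero.exp_nsmul, h3]

/-- The bound of the entries of the adjugates at all places. -/
theorem adj_mult_le {d : ℕ} (hd : 1 ≤ d) (b : Place k K) {F : Fin 3 → MvPolynomial (Fin 3) K}
    (hF : ∀ i, (F i).IsHomogeneous d) {w : Fin 3 → K} (hw : ∀ l, iter F w l ≠ 0) (n : ℕ) :
    ∀ i j : Fin 3, b.val ((mult F w n).adjugate i j) ≤
      WithZero.exp (∑ l ∈ Finset.range n,
        (2 * gcst b F + 2 * ((d : ℤ) - 1) * WithZero.log (nrm b (iter F w l)))) := by
  induction n with
  | zero =>
    intro i j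
    rw [Finset.range_zero, Finset.sum_empty, WithZero.exp_zero]
    show b.val ((1 : Matrix (Fin 3) (Fin 3) K).adjugate i j) ≤ 1
    rw [Matrix.adjugate_one]
    by_cases h : i = j
    · subst h
      simp
    · simp [Matrix.one_apply_ne h]
  | succ n ih =>
    intro i j
    show b.val ((jac F (iter F w n) * mult F w n).adjugate i j) ≤ _
    rw [Matrix.adjugate_mul_distrib, Finset.sum_range_succ, WithZero.exp_add]
    refine CountAdj_mul_le ih (fun i j => ?_) i j
    refine (CountAdj_adj_le (jac_le hd b hF (hw n)) i j).trans (le_of_eq ?_)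
    rw [← WithZero.exp_add]
    congr 1
    ring

/-- The strict bound at the places of `aset`. -/
theorem adj_mult_lt [IsAlgClosed k] {d : ℕ} (hd : 1 ≤ d) {b : Place k K}
    {F : Fin 3 → MvPolynomial (Fin 3) K} (hF : ∀ i, (F i).IsHomogeneous d) {x : Fin 3 → K}
    (hx : ∀ l, iter F x l ≠ 0) {m n : ℕ} (hb : b ∈ aset (k := k) d F x m n) (i j : Fin 3)
    (ha : (mult F (iter F x m) n).adjugate i j ≠ 0) :
    WithZero.log (b.val ((mult F (iter F x m) n).adjugate i j)) + 1 ≤
      ∑ l ∈ Finset.range n, 2 * ((d : ℤ) - 1) * WithZero.log (nrm b (iter F x (m + l))) := by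
  obtain ⟨f, z, hf, hz, h0⟩ := hb
  have hred : ∀ l, Red b (iter F x l) (iter f z l) := fun l => hf.iter hF hz l
  choose hz0 c hc hcx using hred
  have hlog : ∀ l, WithZero.log (b.val (c l)) = - WithZero.log (nrm b (iter F x l)) := by
    intro l
    have h1 : nrm b (c l • iter F x l) = 1 := Cl_nrm_red (hz0 l) (hcx l)
    have h2 := log_nrm_smul b (hc l) (hx l)
    rw [h1, WithZero.log_one] at h2
    linarith
  have hP : ∀ n, CMat b ((∏ l ∈ Finset.range n, c (m + l) ^ (d - 1)) • mult F (iter F x m) n)
      (mult f (iter f z m) n) := by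
    intro n
    induction n with
    | zero =>
      rw [Finset.range_zero, Finset.prod_empty, one_smul]
      exact CMat.one b
    | succ n ih =>
      have e : (∏ l ∈ Finset.range (n + 1), c (m + l) ^ (d - 1)) • mult F (iter F x m) (n + 1) =
          jac F (c (m + n) • iter F x (m + n)) *
            ((∏ l ∈ Finset.range n, c (m + l) ^ (d - 1)) • mult F (iter F x m) n) := by
        have e1 : jac F (c (m + n) • iter F x (m + n)) =
            c (m + n) ^ (d - 1) • jac F (iter F x (m + n)) := by
          ext i j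
          rw [Matrix.smul_apply, smul_eq_mul]
          exact eval_smul_hom ((hF i).pderiv) _ _
        rw [e1, Finset.prod_range_succ]
        show _ • (jac F (iter F (iter F x m) n) * mult F (iter F x m) n) = _
        rw [CountAdj_iter, Matrix.smul_mul, Matrix.mul_smul, smul_smul, mul_comm]
      rw [e]
      show CMat b _ (jac f (iter f (iter f z m) n) * mult f (iter f z m) n)
      refine CMat.mul (fun i j => ?_) ih
      rw [CountAdj_iter]
      exact ((hf.red i).pderiv j).eval (u := c (m + n) • iter F x (m + n)) (hcx (m + n))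
  have h1 := (hP n).adj i j
  rw [h0, Matrix.zero_apply, map_zero, sub_zero, Matrix.adjugate_smul, Matrix.smul_apply,
    smul_eq_mul, Fintype.card_fin] at h1
  have hprod : (∏ l ∈ Finset.range n, c (m + l) ^ (d - 1)) ≠ 0 :=
    Finset.prod_ne_zero_iff.2 fun l _ => pow_ne_zero _ (hc _)
  have hne : (∏ l ∈ Finset.range n, c (m + l) ^ (d - 1)) ^ (3 - 1) *
      (mult F (iter F x m) n).adjugate i j ≠ 0 := mul_ne_zero (pow_ne_zero _ hprod) ha
  have h2 := (WithZero.log_lt_log ((map_ne_zero b.val).2 hne) one_ne_zero).2 h1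
  have h3 : ∀ n : ℕ, WithZero.log (b.val (∏ l ∈ Finset.range n, c (m + l) ^ (d - 1))) =
      - ∑ l ∈ Finset.range n, ((d : ℤ) - 1) * WithZero.log (nrm b (iter F x (m + l))) := by
    intro n
    induction n with
    | zero => simp
    | succ n ih =>
      have hq : (∏ l ∈ Finset.range n, c (m + l) ^ (d - 1)) ≠ 0 :=
        Finset.prod_ne_zero_iff.2 fun l _ => pow_ne_zero _ (hc _)
      rw [Finset.prod_range_succ, map_mul,
        WithZero.log_mul ((map_ne_zero b.val).2 hq) ((map_ne_zero b.val).2 (pow_ne_zero _ (hc _))),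
        ih, map_pow, WithZero.log_pow, hlog, Finset.sum_range_succ, nsmul_eq_mul]
      push_cast [Nat.cast_sub hd]
      ring
  rw [WithZero.log_one, map_mul, WithZero.log_mul ((map_ne_zero b.val).2 (pow_ne_zero _ hprod))
    ((map_ne_zero b.val).2 ha), map_pow, WithZero.log_pow, h3 n, nsmul_eq_mul] at h2
  have h4 : ∑ l ∈ Finset.range n, 2 * ((d : ℤ) - 1) * WithZero.log (nrm b (iter F x (m + l))) =
      2 * ∑ l ∈ Finset.range n, ((d : ℤ) - 1) * WithZero.log (nrm b (iter F x (m + l))) := by
    rw [Finset.mul_sum]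
    exact Finset.sum_congr rfl fun l _ => by ring
  rw [h4]
  push_cast at h2
  linarith

theorem gcst_support [IsAlgClosed k] (hK : IsFunctionField k K)
    (F : Fin 3 → MvPolynomial (Fin 3) K) :
    (Function.support fun b : Place k K => gcst b F).Finite := by
  have hsup : ∀ P : MvPolynomial (Fin 3) K,
      (Function.support fun b : Place k K => max 0 (WithZero.log (gs b P))).Finite := by
    intro P
    by_cases h0 : P = 0
    · rw [h0]
      simp [formHeight_zero]
    · refine (formHeight_support hK h0).subset fun b hb => ?_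
      rw [Function.mem_support] at hb ⊢
      intro h1
      apply hb
      rw [h1, max_self]
  refine (Set.finite_iUnion fun i : Fin 3 => hsup (F i)).subset fun b hb => ?_
  by_contra hcon
  apply hb
  simp only [Set.mem_iUnion, Function.mem_support, not_exists, not_not] at hcon
  exact Finset.sum_eq_zero fun i _ => hcon i

end aux

variable {k K : Type} [Field k] [IsAlgClosed k] [Field K] [Algebra k K] [Algebra K ℂ]

theorem count_adj (hK : IsFunctionField k K) {d : ℕ} {F : Fin 3 → MvPolynomial (Fin 3) K}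
    (hF : IsEndo d fun i => map (algebraMap K ℂ) (F i)) {x : Fin 3 → K} (hx : x ≠ 0) {m : ℕ}
    (hadj : ∀ n, (mult F (iter F x m) n).adjugate ≠ 0) :
    ∃ C : ℤ, 0 ≤ C ∧ ∀ n, (aset (k := k) d F x m n).Finite ∧
      (((aset (k := k) d F x m n).ncard : ℕ) : ℤ) ≤
        2 * ((d : ℤ) - 1) * ∑ l ∈ Finset.range n, ht k (iter F x (m + l)) + C * (n + 1) := by
  classical
  have hhom := fun i => homog_of_endo hF i
  have hd : 1 ≤ d := by
    have := hF.two_le
    omega
  have hxl : ∀ l, iter F x l ≠ 0 := fun l => iter_ne_zeroK hF hx l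
  have hgn : 0 ≤ ∑ᶠ b : Place k K, gcst b F := finsum_nonneg fun b => gcst_nonneg b F
  refine ⟨2 * ∑ᶠ b : Place k K, gcst b F, by linarith, fun n => ?_⟩
  obtain ⟨i, j, ha⟩ : ∃ i j, (mult F (iter F x m) n).adjugate i j ≠ 0 := by
    by_contra hcon
    push Not at hcon
    exact hadj n (Matrix.ext hcon)
  set a := (mult F (iter F x m) n).adjugate i j with hadef
  obtain ⟨hs1, hs2⟩ := finsum_log hK a ha
  set t : ℕ → Place k K → ℤ := fun l b =>
    2 * gcst b F + 2 * ((d : ℤ) - 1) * WithZero.log (nrm b (iter F x (m + l))) with ht'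
  have hts : ∀ l, (Function.support (t l)).Finite := by
    intro l
    refine ((gcst_support hK F).union (nrm_support hK _ (hxl (m + l)))).subset fun b hb => ?_
    by_contra hcon
    rw [Set.mem_union, not_or, Function.notMem_support, Function.notMem_support] at hcon
    apply hb
    show 2 * gcst b F + 2 * ((d : ℤ) - 1) * WithZero.log (nrm b (iter F x (m + l))) = 0
    rw [hcon.1, hcon.2]
    ring
  have htsum : ∀ l, ∑ᶠ b : Place k K, t l b =
      2 * ∑ᶠ b : Place k K, gcst b F + 2 * ((d : ℤ) - 1) * ht k (iter F x (m + l)) := by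
    intro l
    have h1 : (Function.support fun b : Place k K => 2 * gcst b F).Finite := by
      refine (gcst_support hK F).subset fun b hb h => hb ?_
      show 2 * gcst b F = 0
      have h' : gcst b F = 0 := h
      rw [h']
      rfl
    have h2 : (Function.support fun b : Place k K =>
        2 * ((d : ℤ) - 1) * WithZero.log (nrm b (iter F x (m + l)))).Finite := by
      refine (nrm_support hK _ (hxl (m + l))).subset fun b hb h => hb ?_
      have h' : WithZero.log (nrm b (iter F x (m + l))) = 0 := h
      show 2 * ((d : ℤ) - 1) * WithZero.log (nrm b (iter F x (m + l))) = 0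
      rw [h', mul_zero]
    show ∑ᶠ b : Place k K, (2 * gcst b F +
      2 * ((d : ℤ) - 1) * WithZero.log (nrm b (iter F x (m + l)))) = _
    rw [finsum_add_distrib h1 h2, ← mul_finsum, ← mul_finsum]
    rfl
  set e : Place k K → ℤ := fun b => (∑ l ∈ Finset.range n, t l b) - WithZero.log (b.val a) with he
  have hes : (Function.support e).Finite := by
    refine ((Set.Finite.biUnion (Finset.finite_toSet (Finset.range n))
      fun l _ => hts l).union hs1).subset fun b hb => ?_
    by_contra hcon
    rw [Set.mem_union, not_or] at hcon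
    obtain ⟨hc1, hc2⟩ := hcon
    simp only [Finset.mem_coe, Set.mem_iUnion, Function.mem_support, not_exists, not_not] at hc1
    rw [Function.notMem_support] at hc2
    apply hb
    show (∑ l ∈ Finset.range n, t l b) - WithZero.log (b.val a) = 0
    rw [Finset.sum_eq_zero fun l hl => hc1 l hl, hc2]
    rfl
  have hsum : ∑ᶠ b : Place k K, e b =
      ∑ l ∈ Finset.range n, (2 * ∑ᶠ b : Place k K, gcst b F +
        2 * ((d : ℤ) - 1) * ht k (iter F x (m + l))) := by
    have h1 : (Function.support fun b : Place k K => ∑ l ∈ Finset.range n, t l b).Finite := by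
      refine (Set.Finite.biUnion (Finset.finite_toSet (Finset.range n))
        fun l _ => hts l).subset fun b hb => ?_
      by_contra hcon
      simp only [Finset.mem_coe, Set.mem_iUnion, Function.mem_support, not_exists, not_not] at hcon
      exact hb (Finset.sum_eq_zero fun l hl => hcon l hl)
    show ∑ᶠ b : Place k K, ((∑ l ∈ Finset.range n, t l b) - WithZero.log (b.val a)) = _
    rw [finsum_sub_distrib h1 hs1, hs2, sub_zero, finsum_sum_comm _ _ fun l _ => hts l]
    exact Finset.sum_congr rfl fun l _ => htsum l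
  have hnn : ∀ b, 0 ≤ e b := by
    intro b
    have hw : ∀ l, iter F (iter F x m) l ≠ 0 := fun l => by
      rw [CountAdj_iter]
      exact hxl _
    have h1 := adj_mult_le hd b hhom hw n i j
    have h2 := (WithZero.log_le_iff_le_exp ((map_ne_zero b.val).2 ha)).2 h1
    have h3 : ∑ l ∈ Finset.range n, (2 * gcst b F +
        2 * ((d : ℤ) - 1) * WithZero.log (nrm b (iter F (iter F x m) l))) =
        ∑ l ∈ Finset.range n, t l b := Finset.sum_congr rfl fun l _ => by
      rw [CountAdj_iter]
    rw [h3] at h2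
    show 0 ≤ (∑ l ∈ Finset.range n, t l b) - WithZero.log (b.val a)
    linarith
  have hone : ∀ b ∈ aset (k := k) d F x m n, 1 ≤ e b := by
    intro b hb
    have h1 := adj_mult_lt hd hhom hxl hb i j ha
    have h2 : ∑ l ∈ Finset.range n, 2 * ((d : ℤ) - 1) * WithZero.log (nrm b (iter F x (m + l))) ≤
        ∑ l ∈ Finset.range n, t l b := Finset.sum_le_sum fun l _ => by
      show _ ≤ 2 * gcst b F + 2 * ((d : ℤ) - 1) * WithZero.log (nrm b (iter F x (m + l)))
      have := gcst_nonneg b F
      linarith
    show 1 ≤ (∑ l ∈ Finset.range n, t l b) - WithZero.log (b.val a)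
    linarith
  have hsub : aset (k := k) d F x m n ⊆ Function.support e := fun b hb h => by
    have h1 := hone b hb
    have h2 : e b = 0 := h
    omega
  have hfin := hes.subset hsub
  refine ⟨hfin, ?_⟩
  have hcard : (((aset (k := k) d F x m n).ncard : ℕ) : ℤ) ≤ ∑ᶠ b : Place k K, e b := by
    rw [finsum_eq_sum_of_support_subset e (s := hes.toFinset) (by simp),
      Set.ncard_eq_toFinset_card _ hfin]
    calc ((hfin.toFinset.card : ℕ) : ℤ) = ∑ b ∈ hfin.toFinset, (1 : ℤ) := by simp
      _ ≤ ∑ b ∈ hfin.toFinset, e b := Finset.sum_le_sum fun b hb =>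
          hone b (hfin.mem_toFinset.1 hb)
      _ ≤ ∑ b ∈ hes.toFinset, e b := by
          refine Finset.sum_le_sum_of_subset_of_nonneg ?_ fun b _ _ => hnn b
          intro b hb
          rw [Set.Finite.mem_toFinset] at hb ⊢
          exact hsub hb
  refine hcard.trans ?_
  rw [hsum, Finset.sum_add_distrib, Finset.sum_const, Finset.card_range, ← Finset.mul_sum,
    nsmul_eq_mul]
  nlinarith [hgn]

end Pool.Agent.Helper63.TS
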