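import Pool.Agent.Helper63.TK.Good2
import Pool.Agent.Helper63.TK.Growth

/-!
# Orbits which meet the critical curve infinitely often: definitions
-/

set_option autoImplicit false

namespace Pool.Agent.Helper63.TS

open MvPolynomial
open Pool.Agent.Helper16 (Place IsFunctionField)
open Pool.Agent.Helper36 (step iter)
open Pool.Agent.Helper30.TP
open Pool.Agent.Helper63.TK

section forms

variable {K : Type} [Field K]

/-- The matrix of the partial derivatives. -/
noncomputable def jm (F : Fin 3 → MvPolynomial (Fin 3) K) :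
    Matrix (Fin 3) (Fin 3) (MvPolynomial (Fin 3) K) :=
  Matrix.of fun i j => pderiv j (F i)

/-- The components of the product of the gradient of `h` and the adjugate of the Jacobian
matrix. -/
noncomputable def rf (F : Fin 3 → MvPolynomial (Fin 3) K) (h : MvPolynomial (Fin 3) K)
    (j : Fin 3) : MvPolynomial (Fin 3) K :=
  ∑ i, pderiv i h * (jm F).adjugate i j

/-- The composition of a polynomial with `F`. -/
noncomputable def cmp (F : Fin 3 → MvPolynomial (Fin 3) K) (P : MvPolynomial (Fin 3) K) :
    MvPolynomial (Fin 3) K :=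
  aeval F P

/-- The polynomials which define the iterates of `F`. -/
noncomputable def itF (F : Fin 3 → MvPolynomial (Fin 3) K) (N : ℕ) (i : Fin 3) :
    MvPolynomial (Fin 3) K :=
  (cmp F)^[N] (X i)

end forms

section places

variable {k K : Type} [Field k] [Field K] [Algebra k K]

/-- The places at which the value of the form `P` at the point `y` specialises to zero. -/
def zset (P : MvPolynomial (Fin 3) K) (y : Fin 3 → K) : Set (Place k K) :=
  {b | ∃ (p : MvPolynomial (Fin 3) k) (z : Fin 3 → k), RedP b P p ∧ Red b y z ∧ eval z p = 0}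

/-- The places of good reduction at which the adjugate of the derivative of the `n`-th iterate at
the `m`-th point of the orbit specialises to zero. -/
def aset (d : ℕ) (F : Fin 3 → MvPolynomial (Fin 3) K) (x : Fin 3 → K) (m n : ℕ) :
    Set (Place k K) :=
  {b | ∃ (f : Fin 3 → MvPolynomial (Fin 3) k) (z : Fin 3 → k), GoodRed d b F f ∧ Red b x z ∧
    (mult f (iter f z m) n).adjugate = 0}

end places

section ring

variable {R : Type} [CommRing R]

/-- `π` is a uniformizer of the discrete valuation ring `R`. -/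
structure Unif (π : R) : Prop where
  prime : Prime π
  unit : ∀ u : R, ¬ π ∣ u → IsUnit u
  fact : ∀ r : R, r ≠ 0 → ∃ (e : ℕ) (u : R), ¬ π ∣ u ∧ r = π ^ e * u

/-- The coefficient of the first variable. -/
noncomputable def cX (P : MvPolynomial (Fin 2) R) : R := P.coeff (Finsupp.single 0 1)

/-- The coefficient of the second variable. -/
noncomputable def cY (P : MvPolynomial (Fin 2) R) : R := P.coeff (Finsupp.single 1 1)

/-- The map `(X, Y) ↦ (A 1 / A 0, A 2 / A 0)` is congruent modulo `π` and terms of second order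
to `(X, Y) ↦ (μ X, 0)`, with `μ` not zero. -/
structure Germ (π : R) (A : Fin 3 → MvPolynomial (Fin 2) R) : Prop where
  c0 : ¬ π ∣ (A 0).coeff 0
  c1 : π ∣ (A 1).coeff 0
  c2 : π ∣ (A 2).coeff 0
  x1 : ¬ π ∣ cX (A 1)
  y1 : π ∣ cY (A 1)
  x2 : π ∣ cX (A 2)
  y2 : π ∣ cY (A 2)

/-- An orbit of the germ in the open bidisc. -/
structure Orb (π : R) (A : Fin 3 → MvPolynomial (Fin 2) R) (p : ℕ → Fin 2 → R) : Prop where
  small : ∀ j i, π ∣ p j i
  step0 : ∀ j, p (j + 1) 0 * eval (p j) (A 0) = eval (p j) (A 1)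
  step1 : ∀ j, p (j + 1) 1 * eval (p j) (A 0) = eval (p j) (A 2)

/-- Differences of the points of an orbit. -/
def Contr (π μ : R) (p : ℕ → Fin 2 → R) : Prop :=
  ∀ j j', ∃ r s r' s' : R,
    p (j + 1) 0 - p (j' + 1) 0 = (μ + π * r) * (p j 0 - p j' 0) + π * s * (p j 1 - p j' 1) ∧
    p (j + 1) 1 - p (j' + 1) 1 = π * r' * (p j 0 - p j' 0) + π * s' * (p j 1 - p j' 1)

/-- The recursion satisfied by the rescaled orbit, modulo all powers of `π`. -/
def Recu (π μ : R) (ξ : ℕ → Fin 2 → R) : Prop :=
  ∃ c : Fin 2 → R, ∀ I : ℕ, ∃ P₁ P₂ : MvPolynomial (Fin 2) R, ∀ t,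
    π ^ I ∣ ξ (t + 1) 0 - (c 0 + μ * ξ t 0 + π * eval (ξ t) P₁) ∧
    π ^ I ∣ ξ (t + 1) 1 - (c 1 + π * eval (ξ t) P₂)

end ring

section chart

variable {S : Type} [CommRing S]

/-- The point with the coordinates `1, q 0, q 1` with respect to the vectors `e 0, e 1, e 2`. -/
def pt (e : Fin 3 → Fin 3 → S) (q : Fin 2 → S) : Fin 3 → S :=
  fun i => e 0 i + q 0 * e 1 i + q 1 * e 2 i

/-- The restriction of a polynomial to the chart given by the vectors `e 0, e 1, e 2`. -/
noncomputable def ch (e : Fin 3 → Fin 3 → S) (P : MvPolynomial (Fin 3) S) :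
    MvPolynomial (Fin 2) S :=
  aeval (fun i => C (e 0 i) + X 0 * C (e 1 i) + X 1 * C (e 2 i)) P

end chart

end Pool.Agent.Helper63.TS
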