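import Pool.Agent.Helper63.TS.Defs
import Pool.Agent.Helper30.TP.Dim3

/-!
# Elimination
-/

set_option autoImplicit false

namespace Pool.Agent.Helper63.TS

open MvPolynomial
open Pool.Agent.Helper30.TP

variable {K : Type} [Field K]

/-- The exponent of `X₀ ^ i * X₁ ^ (t - i)`. -/
noncomputable def elimExp (t : ℕ) (i : Fin (t + 1)) : Fin 3 →₀ ℕ :=
  Finsupp.single 0 (i : ℕ) + Finsupp.single 1 (t - i)

theorem elimExp_inj (t : ℕ) : Function.Injective (elimExp t) := by
  intro i j h
  have h1 := DFunLike.congr_fun h 0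
  simp only [elimExp, Finsupp.add_apply, Finsupp.single_apply] at h1
  simp at h1
  exact Fin.ext h1

theorem elimExp_two (t : ℕ) (i : Fin (t + 1)) : elimExp t i 2 = 0 := by
  simp [elimExp]

theorem elimExp_hom (t : ℕ) (i : Fin (t + 1)) :
    (monomial (elimExp t i) (1 : K)).IsHomogeneous t := by
  refine isHomogeneous_monomial _ ?_
  rw [elimExp, map_add, Finsupp.degree_single, Finsupp.degree_single]
  have := i.2
  omega

/-- The form with the given coefficients. -/
noncomputable def elimForm (t : ℕ) :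
    (Fin (t + 1) → K) →ₗ[K] homogeneousSubmodule (Fin 3) K t :=
  Fintype.linearCombination K
    (fun i => (⟨monomial (elimExp t i) (1 : K),
      (mem_homogeneousSubmodule _ _).2 (elimExp_hom t i)⟩ : homogeneousSubmodule (Fin 3) K t))

theorem elimForm_coe (t : ℕ) (c : Fin (t + 1) → K) :
    ((elimForm t c : homogeneousSubmodule (Fin 3) K t) : MvPolynomial (Fin 3) K) =
      ∑ i, monomial (elimExp t i) (c i) := by
  rw [elimForm, Fintype.linearCombination_apply, Submodule.coe_sum]
  refine Finset.sum_congr rfl fun i _ => ?_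
  rw [Submodule.coe_smul, smul_monomial, smul_eq_mul, mul_one]

theorem elimForm_coeff (t : ℕ) (c : Fin (t + 1) → K) (j : Fin (t + 1)) :
    ((elimForm t c : homogeneousSubmodule (Fin 3) K t) : MvPolynomial (Fin 3) K).coeff
      (elimExp t j) = c j := by
  classical
  rw [elimForm_coe, coeff_sum]
  rw [Finset.sum_eq_single j]
  · rw [coeff_monomial, if_pos rfl]
  · intro i _ hij
    rw [coeff_monomial, if_neg fun h => hij (elimExp_inj t h)]
  · intro h
    exact absurd (Finset.mem_univ j) h

theorem elimForm_support (t : ℕ) (c : Fin (t + 1) → K) (m : Fin 3 →₀ ℕ)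
    (hm : m ∈ ((elimForm t c : homogeneousSubmodule (Fin 3) K t) :
      MvPolynomial (Fin 3) K).support) : m 2 = 0 := by
  classical
  rw [mem_support_iff, elimForm_coe, coeff_sum] at hm
  obtain ⟨i, -, hi⟩ := Finset.exists_ne_zero_of_sum_ne_zero hm
  rw [coeff_monomial] at hi
  have : elimExp t i = m := by
    by_contra h
    exact hi (if_neg h)
  rw [← this, elimExp_two]

theorem elim_arith (a b : ℕ) {p q r s : ℕ} (hp : 2 * p = (b + a * b + 2) * (b + a * b + 1))
    (hq : 2 * q = (a + a * b + 2) * (a + a * b + 1))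
    (hr : 2 * r = (a + b + a * b + 2) * (a + b + a * b + 1))
    (hs : 2 * s = (a * b + 2) * (a * b + 1)) :
    r + s < p + (q + (a + b + a * b + 1)) := by
  nlinarith

theorem exists_elim {g g' : MvPolynomial (Fin 3) K} {a b : ℕ} (hg : g.IsHomogeneous a)
    (hg' : g'.IsHomogeneous b) (hirr : Irreducible g) (hnd : ¬ g ∣ g') :
    ∃ (t : ℕ) (A B ρ : MvPolynomial (Fin 3) K), ρ ≠ 0 ∧ ρ.IsHomogeneous t ∧
      (∀ m ∈ ρ.support, m 2 = 0) ∧ A * g + B * g' = ρ := by
  classical
  have hg0 : g ≠ 0 := hirr.ne_zero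
  have hprime : Prime g := UniqueFactorizationMonoid.irreducible_iff_prime.1 hirr
  set t : ℕ := a + b + a * b with ht
  have h1 : a + (b + a * b) = t := by omega
  have h2 : b + (a + a * b) = t := by omega
  haveI := (finrank_forms K (b + a * b)).1
  haveI := (finrank_forms K (a + a * b)).1
  haveI := (finrank_forms K t).1
  haveI := (finrank_forms K (a * b)).1
  let Φ : (homogeneousSubmodule (Fin 3) K (b + a * b) ×
      (homogeneousSubmodule (Fin 3) K (a + a * b) × (Fin (t + 1) → K))) →ₗ[K]
        homogeneousSubmodule (Fin 3) K t :=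
    (Dim3_mul g hg h1).coprod ((Dim3_mul g' hg' h2).coprod (-(elimForm t)))
  let Λ : homogeneousSubmodule (Fin 3) K (a * b) →ₗ[K]
      (homogeneousSubmodule (Fin 3) K (b + a * b) ×
        (homogeneousSubmodule (Fin 3) K (a + a * b) × (Fin (t + 1) → K))) :=
    (-(Dim3_mul g' hg' rfl)).prod ((Dim3_mul g hg rfl).prod 0)
  have hΦ : ∀ v, ((Φ v : homogeneousSubmodule (Fin 3) K t) : MvPolynomial (Fin 3) K) =
      g * v.1 + (g' * v.2.1 - elimForm t v.2.2) := by
    intro v
    have : Φ v = Dim3_mul g hg h1 v.1 + (Dim3_mul g' hg' h2 v.2.1 + -(elimForm t v.2.2)) := rfl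
    rw [this, Submodule.coe_add, Submodule.coe_add, Submodule.coe_neg, Dim3_mul_coe,
      Dim3_mul_coe, ← sub_eq_add_neg]
  by_cases hcon : ∀ v ∈ LinearMap.ker Φ, v.2.2 = 0
  · exfalso
    have hle : LinearMap.ker Φ ≤ LinearMap.range Λ := by
      rintro ⟨A, B, c⟩ hv
      have hc : c = 0 := hcon _ hv
      have h3 : ((Φ (A, B, c) : homogeneousSubmodule (Fin 3) K t) : MvPolynomial (Fin 3) K) = 0 := by
        rw [LinearMap.mem_ker.1 hv]
        rfl
      rw [hΦ, hc, map_zero] at h3
      have h4 : g * (A : MvPolynomial (Fin 3) K) + g' * (B : MvPolynomial (Fin 3) K) = 0 := by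
        simpa using h3
      by_cases hB : (B : MvPolynomial (Fin 3) K) = 0
      · rw [hB, mul_zero, add_zero] at h4
        have hA : (A : MvPolynomial (Fin 3) K) = 0 := (mul_eq_zero.1 h4).resolve_left hg0
        refine ⟨0, ?_⟩
        rw [map_zero]
        refine Prod.ext (Subtype.ext hA.symm) (Prod.ext (Subtype.ext hB.symm) hc.symm)
      · have h5 : g ∣ (B : MvPolynomial (Fin 3) K) := by
          have h6 : g ∣ g' * (B : MvPolynomial (Fin 3) K) :=
            ⟨-A, by linear_combination h4⟩
          exact (hprime.dvd_or_dvd h6).resolve_left hnd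
        obtain ⟨-, Q, hQ, hBQ⟩ := Dim3_cofactor hg hg0 ((mem_homogeneousSubmodule _ _).1 B.2) hB h5
        rw [Nat.add_sub_cancel_left] at hQ
        refine ⟨⟨Q, (mem_homogeneousSubmodule _ _).2 hQ⟩, ?_⟩
        refine Prod.ext (Subtype.ext ?_) (Prod.ext (Subtype.ext ?_) hc.symm)
        · change -(g' * Q) = (A : MvPolynomial (Fin 3) K)
          apply mul_left_cancel₀ hg0
          rw [hBQ] at h4
          linear_combination -h4
        · change g * Q = (B : MvPolynomial (Fin 3) K)
          exact hBQ.symm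
    have hk1 := Submodule.finrank_mono hle
    have hk2 := LinearMap.finrank_range_le Λ
    have hk3 := LinearMap.finrank_range_add_finrank_ker Φ
    have hk4 := Submodule.finrank_le (LinearMap.range Φ)
    rw [Module.finrank_prod, Module.finrank_prod, Module.finrank_fintype_fun_eq_card,
      Fintype.card_fin, (finrank_forms K (b + a * b)).2, (finrank_forms K (a + a * b)).2] at hk3
    rw [(finrank_forms K t).2] at hk4
    rw [(finrank_forms K (a * b)).2] at hk2
    have hk5 := elim_arith a b (Dim3_choose (b + a * b)) (Dim3_choose (a + a * b))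
      (Dim3_choose (a + b + a * b)) (Dim3_choose (a * b))
    rw [← ht] at hk5
    omega
  · push Not at hcon
    obtain ⟨⟨A, B, c⟩, hv, hc⟩ := hcon
    have h3 : ((Φ (A, B, c) : homogeneousSubmodule (Fin 3) K t) : MvPolynomial (Fin 3) K) = 0 := by
      rw [LinearMap.mem_ker.1 hv]
      rfl
    rw [hΦ] at h3
    refine ⟨t, A, B, elimForm t c, fun h0 => hc ?_, (mem_homogeneousSubmodule _ _).1 (elimForm t c).2,
      elimForm_support t c, ?_⟩
    · funext j
      have h4 := elimForm_coeff t c j
      rw [h0, coeff_zero] at h4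
      exact h4.symm
    · linear_combination h3

end Pool.Agent.Helper63.TS
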