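import Pool.Agent.Helper63.TS.Trans
import Pool.Agent.Helper63.TS.Count
import Pool.Agent.Helper63.TS.CountAdj
import Pool.Agent.Helper30.TK.Trunc

/-!
# A place with a good cycle
-/

set_option autoImplicit false

namespace Pool.Agent.Helper63.TS

open MvPolynomial
open Pool.Agent.Helper16 (Place IsFunctionField)
open Pool.Agent.Helper36 (step iter)
open Pool.Agent.Helper30.TP
open Pool.Agent.Helper63.TK

variable {k K : Type} [Field k] [IsAlgClosed k] [CharZero k] [Field K] [Algebra k K] [Algebra K ℂ]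

theorem exists_place (hK : IsFunctionField k K) {d : ℕ} {F : Fin 3 → MvPolynomial (Fin 3) K}
    (hF : IsEndo d fun i => map (algebraMap K ℂ) (F i)) {x : Fin 3 → K} (hx : x ≠ 0)
    (hunb : ∀ B : ℤ, ∃ n, B < ht k (iter F x n))
    {h : MvPolynomial (Fin 3) K} {D : ℕ} (hh : h.IsHomogeneous D) (hirr : Irreducible h) {m : ℕ}
    (hinf : {l | m ≤ l ∧ eval (iter F x l) h = 0}.Infinite) {j : Fin 3}
    (hR : ∀ l, m ≤ l → eval (iter F x l) h = 0 → eval (iter F x l) (rf F h j) ≠ 0)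
    (hadj : ∀ n, (mult F (iter F x m) n).adjugate ≠ 0) :
    ∃ (i n : ℕ) (b : Place k K) (f : Fin 3 → MvPolynomial (Fin 3) k) (z : Fin 3 → k)
      (g : MvPolynomial (Fin 3) k), m ≤ i ∧ i < n ∧ eval (iter F x i) h = 0 ∧
      eval (iter F x n) h = 0 ∧ GoodRed d b F f ∧ RedP b h g ∧ Red b x z ∧
      PEq (iter f z i) (iter f z n) ∧
      (∀ l, m ≤ l → l < n → eval (iter F x l) h ≠ 0 → eval (iter f z l) g ≠ 0) ∧
      (∀ l, m ≤ l → l < n → eval (iter F x l) h = 0 → eval (iter f z l) (rf f g j) ≠ 0) ∧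
      (mult f (iter f z m) (n + 1 - m)).adjugate ≠ 0 := by
  classical
  have : CharZero K := charZero_of_injective_algebraMap (algebraMap k K).injective
  have hhom := fun i => homog_of_endo hF i
  have hx' : ∀ l, iter F x l ≠ 0 := iter_ne_zeroK hF hx
  have hdist := distinct_of_unbounded hK hF hx hunb
  have hnn : ∀ l, 0 ≤ ht k (iter F x l) := fun l => low_ht_nonneg hK (hx' l)
  have hd : (2 : ℤ) ≤ d := by exact_mod_cast hF.two_le
  have hht : ∀ B : ℤ, {n | n ∈ {l | m ≤ l ∧ eval (iter F x l) h = 0} ∧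
      ht k (iter F x n) ≤ B}.Finite := by
    intro B
    obtain ⟨n₁, hn₁⟩ := ht_growth hK hF hx hunb |B|
    refine (Set.finite_lt_nat n₁).subset ?_
    rintro n ⟨-, hn⟩
    rw [Set.mem_ofPred_eq]
    by_contra hcon
    have h1 := hn₁ n (not_lt.1 hcon)
    have h2 : |B| * 1 ≤ |B| * ((n : ℤ) + 1) :=
      mul_le_mul_of_nonneg_left (by omega) (abs_nonneg B)
    have h3 := le_abs_self B
    linarith
  set e : ℕ := (D - 1) + 2 * (d - 1) with he
  obtain ⟨S', Γ, C, hS'S, hS'inf, hΓS, htr⟩ := Pool.Agent.Helper30.TK.trunc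
    (x := fun n => iter F x n) hK hinf (fun n _ => hx' n)
    (fun n _ n' _ hne => hdist n n' hne) hh hirr (fun n hn => hn.2) hht (D + e + 2 * d + 1)
  obtain ⟨C1, hC1, hc1⟩ := count_red hK hh
  obtain ⟨C2, hC2, hc2⟩ := count_red hK (rf_hom hhom hh j)
  obtain ⟨C3, hC3, hc3⟩ := count_adj hK hF hx hadj
  obtain ⟨C4, hC4, hc4⟩ := sum_ht_le hK hF hx
  set B0 : Set (Place k K) := {b | ¬ Good d b F} ∪ {b | ¬ ∀ m, b.val (h.coeff m) ≤ 1} with hB0
  have hB0f : B0.Finite := (good_finite hK hF).union (Good2_fin hK h)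
  set Z : ℕ → Set (Place k K) := fun l =>
    if eval (iter F x l) h = 0 then zset (rf F h j) (iter F x l) else zset h (iter F x l) with hZ
  have hZl : ∀ l, m ≤ l → (Z l).Finite ∧
      (((Z l).ncard : ℕ) : ℤ) ≤ ((D : ℤ) + e) * ht k (iter F x l) + (C1 + C2) := by
    intro l hl
    by_cases h0 : eval (iter F x l) h = 0
    · have h1 := hc2 (iter F x l) (hx' l) (hR l hl h0)
      have h2 : Z l = zset (rf F h j) (iter F x l) := if_pos h0
      rw [h2]
      refine ⟨h1.1, h1.2.trans ?_⟩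
      have h3 : 0 ≤ (D : ℤ) * ht k (iter F x l) := mul_nonneg (by positivity) (hnn l)
      push_cast [← he] at h3 ⊢
      linarith
    · have h1 := hc1 (iter F x l) (hx' l) h0
      have h2 : Z l = zset h (iter F x l) := if_neg h0
      rw [h2]
      refine ⟨h1.1, h1.2.trans ?_⟩
      have h3 : 0 ≤ (e : ℤ) * ht k (iter F x l) := mul_nonneg (by positivity) (hnn l)
      linarith
  set Bad : ℕ → Set (Place k K) := fun n =>
    B0 ∪ (⋃ l ∈ Finset.Ico m n, Z l) ∪ aset d F x m (n + 1 - m) with hBad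
  have hUf : ∀ n, (⋃ l ∈ Finset.Ico m n, Z l).Finite := fun n =>
    (Finset.finite_toSet (Finset.Ico m n)).biUnion fun l hl =>
      (hZl l (Finset.mem_Ico.1 (Finset.mem_coe.1 hl)).1).1
  have hBadf : ∀ n, (Bad n).Finite := fun n => (hB0f.union (hUf n)).union (hc3 _).1
  set C' : ℤ := (B0.ncard : ℤ) + ((D : ℤ) + e) * C4 + (C1 + C2) + 2 * C4 + 2 * C3 with hC'
  have hBadc : ∀ n, m ≤ n → (((Bad n).ncard : ℕ) : ℤ) ≤
      ((D : ℤ) + e + 2 * d) * ht k (iter F x n) + C' * (n + 1) := by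
    intro n hn
    have h1 : (Bad n).ncard ≤ B0.ncard + (⋃ l ∈ Finset.Ico m n, Z l).ncard +
        (aset (k := k) d F x m (n + 1 - m)).ncard :=
      (Set.ncard_union_le _ _).trans (Nat.add_le_add_right (Set.ncard_union_le _ _) _)
    have h2 : (⋃ l ∈ Finset.Ico m n, Z l).ncard ≤ ∑ l ∈ Finset.Ico m n, (Z l).ncard :=
      Finset.set_ncard_biUnion_le _ _
    set H : ℤ := ∑ l ∈ Finset.Ico m n, ht k (iter F x l) with hH
    have hH0 : 0 ≤ H := Finset.sum_nonneg fun l _ => hnn l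
    have h3 : ((∑ l ∈ Finset.Ico m n, (Z l).ncard : ℕ) : ℤ) ≤
        ((D : ℤ) + e) * H + (C1 + C2) * (n + 1) := by
      push_cast
      have h4 : ∑ l ∈ Finset.Ico m n, (((Z l).ncard : ℕ) : ℤ) ≤
          ∑ l ∈ Finset.Ico m n, (((D : ℤ) + e) * ht k (iter F x l) + (C1 + C2)) :=
        Finset.sum_le_sum fun l hl => (hZl l (Finset.mem_Ico.1 hl).1).2
      rw [Finset.sum_add_distrib, ← Finset.mul_sum, Finset.sum_const, Nat.card_Ico,
        nsmul_eq_mul] at h4
      have h5 : ((n - m : ℕ) : ℤ) * (C1 + C2) ≤ (C1 + C2) * (n + 1) := by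
        rw [mul_comm]
        exact mul_le_mul_of_nonneg_left (by omega) (by linarith)
      linarith
    have h4 := (hc3 (n + 1 - m)).2
    have h5 : ∑ l ∈ Finset.range (n + 1 - m), ht k (iter F x (m + l)) =
        H + ht k (iter F x n) := by
      rw [← Finset.sum_Ico_eq_sum_range (fun l => ht k (iter F x l)) m (n + 1),
        Finset.sum_Ico_succ_top hn]
    rw [h5] at h4
    have h6 := hc4 m n hn
    rw [← hH] at h6
    have h7 : H ≤ ((d : ℤ) - 1) * H := by nlinarith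
    have h8 : C3 * (((n + 1 - m : ℕ) : ℤ) + 1) ≤ 2 * C3 * (n + 1) := by
      have : C3 * (((n + 1 - m : ℕ) : ℤ) + 1) ≤ C3 * (2 * ((n : ℤ) + 1)) :=
        mul_le_mul_of_nonneg_left (by omega) hC3
      linarith
    have h9 : ((D : ℤ) + e) * H ≤ ((D : ℤ) + e) * (ht k (iter F x n) + C4 * (n + 1)) :=
      mul_le_mul_of_nonneg_left (h7.trans h6) (by positivity)
    have h10 : (B0.ncard : ℤ) ≤ (B0.ncard : ℤ) * (n + 1) := by
      have : (0 : ℤ) ≤ (B0.ncard : ℤ) * n := by positivity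
      linarith
    have h11 : (((Bad n).ncard : ℕ) : ℤ) ≤ (B0.ncard : ℤ) +
        ((∑ l ∈ Finset.Ico m n, (Z l).ncard : ℕ) : ℤ) +
        ((aset (k := k) d F x m (n + 1 - m)).ncard : ℤ) := by
      have := h1.trans (Nat.add_le_add_right (Nat.add_le_add_left h2 _) _)
      exact_mod_cast this
    rw [hC']
    linarith
  obtain ⟨n₁, hn₁⟩ := ht_growth hK hF hx hunb (C' + |C|)
  obtain ⟨n, hnS, hn⟩ := hS'inf.exists_gt (n₁ + Γ.sup id + m)
  have hΓn : ∀ i ∈ Γ, i < n := fun i hi => by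
    have : i ≤ Γ.sup id := Finset.le_sup (f := id) hi
    omega
  obtain ⟨b, ⟨i, hiΓ, hcl⟩, hb⟩ : ∃ b : Place k K,
      (∃ i ∈ Γ, 0 < cl b (iter F x i) (iter F x n)) ∧ b ∉ Bad n := by
    by_contra hcon
    push Not at hcon
    have h1 : {b : Place k K | ∃ i ∈ Γ, 0 < cl b (iter F x i) (iter F x n)} ⊆ Bad n := by
      rintro b ⟨i, hi, hpos⟩
      exact hcon b ⟨i, hi, hpos⟩
    have h2 := Set.ncard_le_ncard h1 (hBadf n)
    have h3 := (htr n hnS).2
    have h4 := hBadc n (by omega)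
    have h5 := hn₁ n (by omega)
    have h6 : C ≤ |C| * ((n : ℤ) + 1) := by
      have h7 : |C| * 1 ≤ |C| * ((n : ℤ) + 1) :=
        mul_le_mul_of_nonneg_left (by omega) (abs_nonneg C)
      have := le_abs_self C
      linarith
    have h8 : (({b : Place k K | ∃ i ∈ Γ, 0 < cl b (iter F x i) (iter F x n)}.ncard : ℕ) : ℤ) ≤
        (((Bad n).ncard : ℕ) : ℤ) := by exact_mod_cast h2
    push_cast at h3
    linarith
  rw [hBad] at hb
  simp only [Set.mem_union, not_or] at hb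
  obtain ⟨⟨hb0, hbZ⟩, hba⟩ := hb
  rw [hB0] at hb0
  simp only [Set.mem_union, Set.mem_ofPred_eq, not_or, not_not] at hb0
  obtain ⟨⟨f, hf⟩, hint⟩ := hb0
  obtain ⟨g, hg, -⟩ := redP_exists hK b hh hint
  obtain ⟨z, hz⟩ := exists_red hK b x hx
  have hzl : ∀ l, Red b (iter F x l) (iter f z l) := fun l => hf.iter hhom hz l
  have hZn : ∀ l, m ≤ l → l < n → b ∉ Z l := by
    intro l h1 h2 h3
    apply hbZ
    simp only [Set.mem_iUnion]
    exact ⟨l, Finset.mem_Ico.2 ⟨h1, h2⟩, h3⟩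
  refine ⟨i, n, b, f, z, g, (hΓS hiΓ).1, hΓn i hiΓ, (hΓS hiΓ).2, (hS'S hnS).2, hf, hg, hz,
    peq_of_cl_pos (hx' i) (hx' n) (hdist i n (hΓn i hiΓ).ne) hcl (hzl i) (hzl n), ?_, ?_, ?_⟩
  · intro l h1 h2 h3 h4
    apply hZn l h1 h2
    have h5 : Z l = zset h (iter F x l) := if_neg h3
    rw [h5]
    exact ⟨g, iter f z l, hg, hzl l, h4⟩
  · intro l h1 h2 h3 h4
    apply hZn l h1 h2
    have h5 : Z l = zset (rf F h j) (iter F x l) := if_pos h3
    rw [h5]
    exact ⟨rf f g j, iter f z l, redP_rf hf.red hg j, hzl l, h4⟩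
  · intro h1
    exact hba ⟨f, z, hf, hz, h1⟩

end Pool.Agent.Helper63.TS
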