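import Pool.Agent.Helper63.TS.Defs

/-!
# The polynomials which define the iterates
-/

set_option autoImplicit false

namespace Pool.Agent.Helper63.TS

open MvPolynomial
open Pool.Agent.Helper16 (Place IsFunctionField)
open Pool.Agent.Helper36 (step iter iter_zero iter_succ iter_succ' iter_add)
open Pool.Agent.Helper30.TP
open Pool.Agent.Helper63.TK

section

variable {K : Type} [Field K]

theorem eval_cmp_iter (F : Fin 3 → MvPolynomial (Fin 3) K) (P : MvPolynomial (Fin 3) K)
    (y : Fin 3 → K) (N : ℕ) : eval y ((cmp F)^[N] P) = eval (iter F y N) P := by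
  have h1 : ∀ (Q : MvPolynomial (Fin 3) K) (z : Fin 3 → K),
      eval z (cmp F Q) = eval (step F z) Q := by
    intro Q z
    unfold cmp
    rw [← coe_aeval_eq_eval, RingHom.coe_coe, comp_aeval_apply, ← coe_aeval_eq_eval,
      RingHom.coe_coe]
    rfl
  induction N generalizing P with
  | zero => rfl
  | succ N ih =>
    rw [Function.iterate_succ_apply, ih, h1, iter_succ]

theorem cmp_iter_eq (F : Fin 3 → MvPolynomial (Fin 3) K) (P : MvPolynomial (Fin 3) K) (N : ℕ) :
    (cmp F)^[N] P = aeval (itF F N) P := by
  induction N with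
  | zero =>
    have h1 : itF F 0 = (X : Fin 3 → MvPolynomial (Fin 3) K) := rfl
    rw [h1, aeval_X_left, AlgHom.id_apply]
    rfl
  | succ N ih =>
    have h1 : itF F (N + 1) = fun i => (aeval F : _ →ₐ[K] MvPolynomial (Fin 3) K) (itF F N i) := by
      funext i
      unfold itF
      rw [Function.iterate_succ_apply']
      rfl
    rw [Function.iterate_succ_apply', ih, h1]
    unfold cmp
    rw [comp_aeval_apply]

theorem cmp_iter_hom {d : ℕ} {F : Fin 3 → MvPolynomial (Fin 3) K}
    (hF : ∀ i, (F i).IsHomogeneous d) {P : MvPolynomial (Fin 3) K} {e : ℕ}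
    (hP : P.IsHomogeneous e) (N : ℕ) : ((cmp F)^[N] P).IsHomogeneous (d ^ N * e) := by
  induction N with
  | zero => rw [pow_zero, one_mul]; exact hP
  | succ N ih =>
    rw [Function.iterate_succ_apply']
    have h1 := ih.aeval F hF
    have h2 : d ^ (N + 1) * e = d * (d ^ N * e) := by ring
    rw [h2]
    exact h1

theorem eval_itF (F : Fin 3 → MvPolynomial (Fin 3) K) (y : Fin 3 → K) (N : ℕ) (i : Fin 3) :
    eval y (itF F N i) = iter F y N i := by
  unfold itF
  rw [eval_cmp_iter, eval_X]

theorem itF_hom {d : ℕ} {F : Fin 3 → MvPolynomial (Fin 3) K}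
    (hF : ∀ i, (F i).IsHomogeneous d) (N : ℕ) (i : Fin 3) :
    (itF F N i).IsHomogeneous (d ^ N) := by
  have h1 := cmp_iter_hom hF (isHomogeneous_X K i) N
  rwa [mul_one] at h1

theorem pderiv_itF (F : Fin 3 → MvPolynomial (Fin 3) K) (y : Fin 3 → K) (N : ℕ) (i j : Fin 3) :
    eval y (pderiv j (itF F N i)) = mult F y N i j := by
  have hchain : ∀ (g : Fin 3 → MvPolynomial (Fin 3) K) (P : MvPolynomial (Fin 3) K),
      pderiv j (aeval g P) = ∑ l, aeval g (pderiv l P) * pderiv j (g l) := by
    intro g P
    induction P using MvPolynomial.induction_on with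
    | C a => simp
    | add p q hp hq =>
      simp only [map_add, hp, hq, add_mul, Finset.sum_add_distrib]
    | mul_X p n hp =>
      simp only [map_mul, aeval_X, Derivation.leibniz, hp, smul_eq_mul, map_add, add_mul,
        Finset.sum_add_distrib]
      congr 1
      · rw [Finset.sum_eq_single n]
        · simp
        · intro l _ hl
          rw [pderiv_X_of_ne hl.symm]
          simp
        · intro h
          exact absurd (Finset.mem_univ n) h
      · rw [Finset.mul_sum]
        exact Finset.sum_congr rfl fun l _ => by ring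
  induction N generalizing i with
  | zero =>
    have h1 : mult F y 0 = 1 := rfl
    have h2 : itF F 0 i = X i := rfl
    rw [h1, h2, pderiv_X, Matrix.one_apply]
    rcases eq_or_ne i j with h | h
    · subst h; simp
    · rw [Pi.single_eq_of_ne h, map_zero, if_neg h]
  | succ N ih =>
    have h1 : mult F y (N + 1) = jac F (iter F y N) * mult F y N := rfl
    have h2 : itF F (N + 1) i = aeval (itF F N) (F i) := by
      have h3 : itF F (N + 1) i = (cmp F)^[N] (F i) := by
        unfold itF
        rw [Function.iterate_succ_apply]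
        unfold cmp
        rw [aeval_X]
      rw [h3, cmp_iter_eq]
    have h3 : ∀ P : MvPolynomial (Fin 3) K,
        eval y (aeval (itF F N) P) = eval (iter F y N) P := by
      intro P
      rw [← cmp_iter_eq, eval_cmp_iter]
    rw [h1, h2, hchain, map_sum, Matrix.mul_apply]
    refine Finset.sum_congr rfl fun l _ => ?_
    rw [map_mul, ih, h3]
    rfl

end

theorem redP_cmp {k K : Type} [Field k] [Field K] [Algebra k K] {b : Place k K}
    {F : Fin 3 → MvPolynomial (Fin 3) K} {f : Fin 3 → MvPolynomial (Fin 3) k}
    (hf : ∀ i, RedP b (F i) (f i)) {P : MvPolynomial (Fin 3) K} {p : MvPolynomial (Fin 3) k}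
    (hP : RedP b P p) (N : ℕ) : RedP b ((cmp F)^[N] P) ((cmp f)^[N] p) := by
  have hstep : ∀ {P : MvPolynomial (Fin 3) K} {p : MvPolynomial (Fin 3) k},
      RedP b P p → RedP b (cmp F P) (cmp f p) := by
    intro P p hP
    classical
    -- the polynomial `P - p` has coefficients in the maximal ideal
    have hC : ∀ (c : k), RedP b (C (algebraMap k K c)) (C c) := by
      intro c
      have h := redP_map b (C c : MvPolynomial (Fin 3) k)
      rwa [map_C] at h
    have h0 : ∀ (q : MvPolynomial (Fin 3) k), RedP b (cmp F (map (algebraMap k K) q)) (cmp f q) := by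
      intro q
      unfold cmp
      induction q using MvPolynomial.induction_on with
      | C a => rw [map_C, aeval_C, aeval_C]; exact hC a
      | add p q hp hq => rw [map_add, map_add, map_add]; exact hp.add hq
      | mul_X p n hp => rw [map_mul, map_X, map_mul, map_mul, aeval_X, aeval_X]; exact hp.mul (hf n)
    -- small polynomials
    have hs : ∀ Q : MvPolynomial (Fin 3) K, RedP b Q 0 → RedP b (cmp F Q) 0 := by
      intro Q hQ
      unfold cmp
      rw [aeval_def, eval₂_eq']
      have hz : ∀ m : Fin 3 →₀ ℕ, RedP b (C (Q.coeff m)) 0 := by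
        intro m l
        rw [coeff_zero, map_zero, sub_zero, coeff_C]
        split_ifs with h
        · have h2 := hQ m
          rwa [coeff_zero, map_zero, sub_zero] at h2
        · rw [map_zero]
          exact zero_lt_one
      have h3 : RedP b (∑ m ∈ Q.support, C (Q.coeff m) * ∏ i, F i ^ m i)
          (∑ m ∈ Q.support, 0 * ∏ i, f i ^ m i) :=
        RedP.sum _ fun m _ => (hz m).mul (RedP.prod _ fun i _ => (hf i).pow (m i))
      simp only [zero_mul, Finset.sum_const_zero] at h3
      exact h3
    have h1 : RedP b (P - map (algebraMap k K) p) 0 := by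
      have h2 := hP.add (redP_map b p).neg
      rwa [add_neg_cancel, ← sub_eq_add_neg] at h2
    have h2 := (hs _ h1).add (h0 p)
    rw [zero_add] at h2
    have h3 : cmp F (P - map (algebraMap k K) p) + cmp F (map (algebraMap k K) p) = cmp F P := by
      unfold cmp
      rw [map_sub, sub_add_cancel]
    rwa [h3] at h2
  induction N with
  | zero => exact hP
  | succ N ih =>
    rw [Function.iterate_succ_apply', Function.iterate_succ_apply']
    exact hstep ih

theorem redP_itF {k K : Type} [Field k] [Field K] [Algebra k K] {b : Place k K}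
    {F : Fin 3 → MvPolynomial (Fin 3) K} {f : Fin 3 → MvPolynomial (Fin 3) k}
    (hf : ∀ i, RedP b (F i) (f i)) (N : ℕ) (i : Fin 3) : RedP b (itF F N i) (itF f N i) :=
  redP_cmp hf (redP_C_X b i) N

end Pool.Agent.Helper63.TS
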