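import Pool.Agent.Helper63.TS.Defs

/-!
# The valuation ring of a place
-/

set_option autoImplicit false

namespace Pool.Agent.Helper63.TS

open MvPolynomial
open Pool.Agent.Helper16 (Place IsFunctionField)
open Pool.Agent.Helper30.TP
open Pool.Agent.Helper63.TK

variable {k K : Type} [Field k] [Field K] [Algebra k K]

theorem RingR_le (b : Place k K) (r : b.ring) : b.val (r : K) ≤ 1 := r.2

theorem RingR_lt (b : Place k K) {x : K} (h : b.val x < 1) : b.val x ≤ WithZero.exp (-1 : ℤ) := by
  by_cases h0 : b.val x = 0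
  · rw [h0]
    exact zero_le
  · rw [← WithZero.exp_log h0, ← WithZero.exp_zero, WithZero.exp_lt_exp] at h
    rw [← WithZero.exp_log h0, WithZero.exp_le_exp]
    omega

theorem exists_unif (b : Place k K) :
    ∃ π : b.ring, Unif π ∧ ∀ r : b.ring, π ∣ r ↔ b.val (r : K) < 1 := by
  obtain ⟨f, hf0, hf⟩ := b.exists_uniformizer
  have hlt : WithZero.exp (-1 : ℤ) < (1 : WithZero (Multiplicative ℤ)) := by
    rw [← WithZero.exp_zero, WithZero.exp_lt_exp]
    omega
  obtain ⟨π, hπ⟩ : ∃ π : b.ring, (π : K) = f := ⟨⟨f, by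
    show b.val f ≤ 1
    rw [hf]
    exact hlt.le⟩, rfl⟩
  have hdvd : ∀ r : b.ring, π ∣ r ↔ b.val (r : K) < 1 := by
    intro r
    constructor
    · rintro ⟨s, rfl⟩
      have h1 : ((π * s : b.ring) : K) = f * (s : K) := by rw [← hπ]; rfl
      rw [h1, map_mul, hf]
      exact mul_lt_one_of_lt_of_le hlt (RingR_le b s)
    · intro h
      have h1 : b.val ((r : K) / f) ≤ 1 := by
        rw [map_div₀, hf, div_le_one₀ (by exact WithZero.exp_pos)]
        exact RingR_lt b h
      refine ⟨⟨(r : K) / f, h1⟩, Subtype.ext ?_⟩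
      show (r : K) = (π : K) * ((r : K) / f)
      rw [hπ]
      field_simp
  have hunit : ∀ u : b.ring, ¬ π ∣ u → IsUnit u := by
    intro u hu
    rw [hdvd, not_lt] at hu
    have h1 : b.val (u : K) = 1 := le_antisymm (RingR_le b u) hu
    have hu0 : (u : K) ≠ 0 := by
      intro h
      rw [h, map_zero] at h1
      exact zero_ne_one h1
    have h2 : b.val ((u : K)⁻¹) ≤ 1 := by rw [map_inv₀, h1, inv_one]
    refine IsUnit.of_mul_eq_one ⟨(u : K)⁻¹, h2⟩ (Subtype.ext ?_)
    show (u : K) * (u : K)⁻¹ = 1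
    exact mul_inv_cancel₀ hu0
  have hπ0 : π ≠ 0 := by
    rintro rfl
    exact hf0 hπ.symm
  refine ⟨π, ⟨⟨hπ0, ?_, ?_⟩, hunit, ?_⟩, hdvd⟩
  · intro h
    have h1 : π ∣ 1 := h.dvd
    rw [hdvd] at h1
    have h2 : ((1 : b.ring) : K) = 1 := rfl
    rw [h2, map_one] at h1
    exact lt_irrefl _ h1
  · intro a c hac
    rw [hdvd] at hac
    rw [hdvd, hdvd]
    by_contra hcon
    rw [not_or, not_lt, not_lt] at hcon
    have h1 : b.val (a : K) = 1 := le_antisymm (RingR_le b a) hcon.1
    have h2 : b.val (c : K) = 1 := le_antisymm (RingR_le b c) hcon.2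
    have h3 : ((a * c : b.ring) : K) = (a : K) * (c : K) := rfl
    rw [h3, map_mul, h1, h2, one_mul] at hac
    exact lt_irrefl _ hac
  · intro r hr
    have hr0 : (r : K) ≠ 0 := by
      intro h
      exact hr (Subtype.ext h)
    have hv0 : b.val (r : K) ≠ 0 := by simpa using hr0
    have h1 := RingR_le b r
    rw [← WithZero.exp_log hv0, ← WithZero.exp_zero, WithZero.exp_le_exp] at h1
    obtain ⟨e, he⟩ : ∃ e : ℕ, (e : ℤ) = - WithZero.log (b.val (r : K)) :=
      ⟨(- WithZero.log (b.val (r : K))).toNat, by omega⟩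
    have h2 : b.val ((r : K) / f ^ e) = 1 := by
      rw [map_div₀, map_pow, hf, ← WithZero.exp_log hv0, ← WithZero.exp_nsmul,
        ← WithZero.exp_sub, ← WithZero.exp_zero]
      congr 1
      rw [nsmul_eq_mul]
      omega
    refine ⟨e, ⟨(r : K) / f ^ e, h2.le⟩, ?_, Subtype.ext ?_⟩
    · rw [hdvd]
      show ¬ b.val ((r : K) / f ^ e) < 1
      rw [h2]
      exact lt_irrefl _
    · show (r : K) = ((π ^ e : b.ring) : K) * ((r : K) / f ^ e)
      rw [SubmonoidClass.coe_pow, hπ, mul_div_cancel₀]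
      exact pow_ne_zero _ hf0

theorem RingR_uniq (b : Place k K) {x : K} {c c' : k} (h : b.val (x - algebraMap k K c) < 1)
    (h' : b.val (x - algebraMap k K c') < 1) : c = c' := by
  by_contra hne
  have h1 := b.triv (c' - c) (sub_ne_zero.2 (Ne.symm hne))
  have h2 : algebraMap k K (c' - c) = (x - algebraMap k K c) - (x - algebraMap k K c') := by
    rw [map_sub]
    ring
  have h3 : b.val (algebraMap k K (c' - c)) < 1 := by
    rw [h2]
    exact (b.val.map_sub _ _).trans_lt (max_lt h h')
  rw [h1] at h3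
  exact lt_irrefl _ h3

theorem exists_chi [IsAlgClosed k] (hK : IsFunctionField k K) (b : Place k K) :
    ∃ χ : b.ring →+* k, (∀ c : k, χ (algebraMap k b.ring c) = c) ∧
      ∀ r : b.ring, χ r = 0 ↔ b.val (r : K) < 1 := by
  have hex : ∀ r : b.ring, ∃ c : k, b.val ((r : K) - algebraMap k K c) < 1 :=
    fun r => exists_residue hK b (r : K) (RingR_le b r)
  choose χ hχ using hex
  have hu : ∀ (r : b.ring) (c : k), b.val ((r : K) - algebraMap k K c) < 1 → χ r = c :=
    fun r c h => RingR_uniq b (hχ r) h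
  have hc : ∀ c : k, χ (algebraMap k b.ring c) = c := by
    intro c
    apply hu
    have h1 : ((algebraMap k b.ring c : b.ring) : K) = algebraMap k K c := rfl
    rw [h1, sub_self, map_zero]
    exact zero_lt_one
  have hca : ∀ c : k, b.val (algebraMap k K c) ≤ 1 := fun c => b.val_algebraMap_le c
  refine ⟨{ toFun := χ, map_one' := ?_, map_mul' := ?_, map_zero' := ?_, map_add' := ?_ }, ?_, ?_⟩
  · apply hu
    have h1 : ((1 : b.ring) : K) = 1 := rfl
    rw [h1, map_one, sub_self, map_zero]
    exact zero_lt_one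
  · intro r s
    apply hu
    have h1 : ((r * s : b.ring) : K) - algebraMap k K (χ r * χ s) =
        ((r : K) - algebraMap k K (χ r)) * (s : K) +
          algebraMap k K (χ r) * ((s : K) - algebraMap k K (χ s)) := by
      have h2 : ((r * s : b.ring) : K) = (r : K) * (s : K) := rfl
      rw [h2, map_mul]
      ring
    rw [h1]
    refine (b.val.map_add _ _).trans_lt (max_lt ?_ ?_)
    · rw [map_mul]
      exact mul_lt_one_of_lt_of_le (hχ r) (RingR_le b s)
    · rw [map_mul, mul_comm]
      exact mul_lt_one_of_lt_of_le (hχ s) (hca _)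
  · apply hu
    have h1 : ((0 : b.ring) : K) = 0 := rfl
    rw [h1, map_zero, sub_self, map_zero]
    exact zero_lt_one
  · intro r s
    apply hu
    have h1 : ((r + s : b.ring) : K) - algebraMap k K (χ r + χ s) =
        ((r : K) - algebraMap k K (χ r)) + ((s : K) - algebraMap k K (χ s)) := by
      have h2 : ((r + s : b.ring) : K) = (r : K) + (s : K) := rfl
      rw [h2, map_add]
      ring
    rw [h1]
    exact (b.val.map_add _ _).trans_lt (max_lt (hχ r) (hχ s))
  · exact hc
  · intro r
    show χ r = 0 ↔ _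
    constructor
    · intro h
      have h1 := hχ r
      rw [h, map_zero, sub_zero] at h1
      exact h1
    · intro h
      apply hu
      rw [map_zero, sub_zero]
      exact h

theorem exists_lift (b : Place k K) {χ : b.ring →+* k}
    (hχ : ∀ c : k, χ (algebraMap k b.ring c) = c) (hχ0 : ∀ r : b.ring, χ r = 0 ↔ b.val (r : K) < 1)
    {P : MvPolynomial (Fin 3) K} {p : MvPolynomial (Fin 3) k} (h : RedP b P p) :
    ∃ Q : MvPolynomial (Fin 3) b.ring, map (algebraMap b.ring K) Q = P ∧ map χ Q = p := by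
  classical
  have h1 : ∀ m, b.val (P.coeff m) ≤ 1 := by
    intro m
    have h2 : P.coeff m = (P.coeff m - algebraMap k K (p.coeff m)) + algebraMap k K (p.coeff m) := by
      ring
    rw [h2]
    exact (b.val.map_add _ _).trans (max_le (h m).le (b.val_algebraMap_le _))
  have h3 : ∀ m, (∑ n ∈ P.support, monomial n (⟨P.coeff n, h1 n⟩ : b.ring)).coeff m =
      ⟨P.coeff m, h1 m⟩ := by
    intro m
    rw [coeff_sum]
    simp only [coeff_monomial]
    rw [Finset.sum_ite_eq']
    split_ifs with hm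
    · rfl
    · exact Subtype.ext (notMem_support_iff.1 hm).symm
  refine ⟨∑ n ∈ P.support, monomial n (⟨P.coeff n, h1 n⟩ : b.ring), ?_, ?_⟩
  · ext m
    rw [coeff_map, h3]
    rfl
  · ext m
    rw [coeff_map, h3]
    have h4 : χ (⟨P.coeff m, h1 m⟩ - algebraMap k b.ring (p.coeff m)) = 0 := by
      rw [hχ0]
      exact h m
    rw [map_sub, hχ, sub_eq_zero] at h4
    exact h4

end Pool.Agent.Helper63.TS
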