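import Pool.Agent.Helper63.TS.LocalR
import Pool.Agent.Helper63.TS.IterF
import Pool.Agent.Helper63.TS.RingR
import Pool.Agent.Helper63.TS.Elim

/-!
# The local argument
-/

set_option autoImplicit false

namespace Pool.Agent.Helper63.TS

open MvPolynomial
open Pool.Agent.Helper16 (Place IsFunctionField)
open Pool.Agent.Helper36 (step iter)
open Pool.Agent.Helper30.TP
open Pool.Agent.Helper63.TK

section linear

variable {K : Type} [Field K]

/-- The linear substitution given by the rows of a matrix. -/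
noncomputable def lin (e : Matrix (Fin 3) (Fin 3) K) :
    MvPolynomial (Fin 3) K →ₐ[K] MvPolynomial (Fin 3) K :=
  aeval fun i => ∑ a, C (e a i) * X a

theorem lin_eval (e : Matrix (Fin 3) (Fin 3) K) (w : Fin 3 → K) (P : MvPolynomial (Fin 3) K) :
    eval w (lin e P) = eval (fun i => ∑ a, w a * e a i) P := by
  unfold lin
  induction P using MvPolynomial.induction_on with
  | C a => simp
  | add p q hp hq => rw [map_add, map_add, map_add, hp, hq]
  | mul_X p i hp =>
    rw [map_mul, map_mul, map_mul, hp, aeval_X, eval_X, map_sum]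
    congr 1
    refine Finset.sum_congr rfl fun a _ => ?_
    rw [map_mul, eval_C, eval_X, mul_comm]

theorem lin_lin (e e' : Matrix (Fin 3) (Fin 3) K) (P : MvPolynomial (Fin 3) K) :
    lin e (lin e' P) = lin (e * e') P := by
  have h : (lin e).comp (lin e') = lin (e * e') := by
    apply MvPolynomial.algHom_ext
    intro i
    rw [AlgHom.comp_apply]
    unfold lin
    rw [aeval_X, aeval_X, map_sum]
    have h1 : ∀ a, (aeval fun i => ∑ a, C (e a i) * X a : MvPolynomial (Fin 3) K →ₐ[K] _)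
        (C (e' a i) * X a) = ∑ c, C (e c a * e' a i) * X c := by
      intro a
      rw [map_mul, aeval_X, ← algebraMap_eq, AlgHom.commutes, Finset.mul_sum]
      refine Finset.sum_congr rfl fun c _ => ?_
      rw [algebraMap_eq, C_mul]
      ring
    rw [Finset.sum_congr rfl fun a _ => h1 a, Finset.sum_comm]
    refine Finset.sum_congr rfl fun c _ => ?_
    rw [Matrix.mul_apply, map_sum, Finset.sum_mul]
  exact congrArg (fun φ => φ P) h

theorem lin_one (P : MvPolynomial (Fin 3) K) : lin 1 P = P := by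
  have h : lin (1 : Matrix (Fin 3) (Fin 3) K) = AlgHom.id K _ := by
    apply MvPolynomial.algHom_ext
    intro i
    unfold lin
    rw [aeval_X, AlgHom.id_apply]
    simp [Matrix.one_apply]
  rw [h, AlgHom.id_apply]

theorem lin_hom (e : Matrix (Fin 3) (Fin 3) K) {P : MvPolynomial (Fin 3) K} {n : ℕ}
    (hP : P.IsHomogeneous n) : (lin e P).IsHomogeneous n := by
  have h := hP.aeval (fun i => ∑ a, C (e a i) * X a) (n := 1) (by
    intro i
    refine IsHomogeneous.sum _ _ _ fun a _ => ?_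
    have := (isHomogeneous_C (Fin 3) (e a i)).mul (isHomogeneous_X K a)
    simpa using this)
  rw [one_mul] at h
  exact h

theorem lin_irr {e : Matrix (Fin 3) (Fin 3) K} (he : e.det ≠ 0) {P : MvPolynomial (Fin 3) K}
    (hP : Irreducible P) : Irreducible (lin e P) := by
  have h1 : e * e⁻¹ = 1 := Matrix.mul_nonsing_inv _ (isUnit_iff_ne_zero.2 he)
  have h2 : e⁻¹ * e = 1 := Matrix.nonsing_inv_mul _ (isUnit_iff_ne_zero.2 he)
  let Λ : MvPolynomial (Fin 3) K ≃ₐ[K] MvPolynomial (Fin 3) K :=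
    AlgEquiv.ofAlgHom (lin e) (lin e⁻¹)
      (by apply AlgHom.ext; intro P; rw [AlgHom.comp_apply, lin_lin, h1, lin_one]; rfl)
      (by apply AlgHom.ext; intro P; rw [AlgHom.comp_apply, lin_lin, h2, lin_one]; rfl)
  exact (MulEquiv.irreducible_iff Λ.toMulEquiv).2 hP

theorem lin_dvd {e : Matrix (Fin 3) (Fin 3) K} (he : e.det ≠ 0) {P Q : MvPolynomial (Fin 3) K}
    (h : lin e P ∣ lin e Q) : P ∣ Q := by
  have h2 : e⁻¹ * e = 1 := Matrix.nonsing_inv_mul _ (isUnit_iff_ne_zero.2 he)
  have h3 := map_dvd (lin e⁻¹) h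
  rwa [lin_lin, lin_lin, h2, lin_one, lin_one] at h3

end linear

variable {k K : Type} [Field k] [Field K] [Algebra k K]

/-- The value of an integral polynomial. -/
theorem val_eval_le_gs (b : Place k K) (P : MvPolynomial (Fin 3) K) {u : Fin 3 → K}
    (hu : ∀ i, b.val (u i) ≤ 1) : b.val (eval u P) ≤ gs b P := by
  rw [eval_eq]
  refine b.val.map_sum_le fun m _ => ?_
  rw [map_mul, map_prod]
  calc b.val (P.coeff m) * ∏ i ∈ m.support, b.val (u i ^ m i) ≤ gs b P * 1 := by
        refine mul_le_mul' (formHeight_le b P m) ?_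
        refine Finset.prod_le_one' fun i _ => ?_
        rw [map_pow]
        exact pow_le_one' (hu i) _
    _ = gs b P := mul_one _

/-- Coordinates of a point which specialises to the first vector of a basis. -/
theorem exists_coord (b : Place k K) {e : Fin 3 → Fin 3 → k} (hdet : (Matrix.of e).det ≠ 0)
    {y : Fin 3 → K} (hy : Red b y (e 0)) :
    ∃ (s : K) (q : Fin 2 → b.ring), s ≠ 0 ∧ (∀ i, b.val (q i : K) < 1) ∧
      y = fun i => s * ((pt (fun a i => algebraMap k b.ring (e a i)) q i : b.ring) : K) := by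
  classical
  obtain ⟨-, c, hc, h1⟩ := hy
  have hB1 : (Matrix.of e)⁻¹ * Matrix.of e = 1 :=
    Matrix.nonsing_inv_mul _ (isUnit_iff_ne_zero.2 hdet)
  have hB2 : Matrix.of e * (Matrix.of e)⁻¹ = 1 :=
    Matrix.mul_nonsing_inv _ (isUnit_iff_ne_zero.2 hdet)
  set B := (Matrix.of e)⁻¹ with hB
  -- the coordinates
  set ℓ : Fin 3 → K := fun a => ∑ i, c * y i * algebraMap k K (B i a) with hℓ
  have hu : ∀ i, c * y i = ∑ a, ℓ a * algebraMap k K (e a i) := by
    intro i
    have h2 : ∀ j, ∑ a, algebraMap k K (B j a) * algebraMap k K (e a i) = if j = i then 1 else 0 := by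
      intro j
      have h3 := congrFun (congrFun hB1 j) i
      rw [Matrix.mul_apply, Matrix.one_apply] at h3
      rw [← Finset.sum_congr rfl fun a _ => map_mul (algebraMap k K) (B j a) (e a i), ← map_sum]
      have h4 : ∑ a, B j a * e a i = if j = i then 1 else 0 := h3
      rw [h4]
      split_ifs <;> simp
    simp only [hℓ]
    have h5 : ∑ a, (∑ j, c * y j * algebraMap k K (B j a)) * algebraMap k K (e a i) =
        ∑ j, c * y j * ∑ a, algebraMap k K (B j a) * algebraMap k K (e a i) := by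
      simp only [Finset.sum_mul, Finset.mul_sum]
      rw [Finset.sum_comm]
      refine Finset.sum_congr rfl fun j _ => Finset.sum_congr rfl fun a _ => ?_
      ring
    rw [h5, Finset.sum_congr rfl fun j _ => by rw [h2 j]]
    simp
  have hred : ∀ a, b.val (ℓ a - algebraMap k K (if a = 0 then 1 else 0)) < 1 := by
    intro a
    have h3 : ∑ i, e 0 i * B i a = if a = 0 then 1 else 0 := by
      have h4 := congrFun (congrFun hB2 0) a
      rw [Matrix.mul_apply, Matrix.one_apply] at h4
      have h5 : ∑ i, e 0 i * B i a = if (0 : Fin 3) = a then 1 else 0 := h4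
      rw [h5]
      by_cases ha : a = 0
      · simp [ha]
      · rw [if_neg ha, if_neg (Ne.symm ha)]
    rw [← h3, map_sum]
    simp only [hℓ]
    rw [← Finset.sum_sub_distrib]
    refine b.val.map_sum_lt one_ne_zero fun i _ => ?_
    rw [map_mul, ← sub_mul, map_mul]
    calc _ ≤ b.val (c * y i - algebraMap k K (e 0 i)) * 1 :=
          mul_le_mul' le_rfl (b.val_algebraMap_le _)
      _ < 1 := by rw [mul_one]; exact h1 i
  have h0 : b.val (ℓ 0) = 1 := by
    have h2 := hred 0
    rw [if_pos rfl, map_one] at h2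
    have h3 := b.val.map_add_eq_of_lt_right (x := ℓ 0 - 1) (y := 1) (by rw [map_one]; exact h2)
    rw [sub_add_cancel, map_one] at h3
    exact h3
  have hℓ0 : ℓ 0 ≠ 0 := by
    intro h
    rw [h, map_zero] at h0
    exact zero_ne_one h0
  have hsm : ∀ a, a ≠ 0 → b.val (ℓ a / ℓ 0) < 1 := by
    intro a ha
    have h2 := hred a
    rw [if_neg ha, map_zero, sub_zero] at h2
    rw [map_div₀, h0, div_one]
    exact h2
  let q : Fin 2 → b.ring := fun i => ⟨ℓ i.succ / ℓ 0, (hsm _ (Fin.succ_ne_zero i)).le⟩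
  refine ⟨ℓ 0 / c, q, div_ne_zero hℓ0 hc, fun i => hsm _ (Fin.succ_ne_zero i), ?_⟩
  funext i
  have h6 : ((pt (fun a i => algebraMap k b.ring (e a i)) q i : b.ring) : K) =
      algebraMap k K (e 0 i) + ℓ 1 / ℓ 0 * algebraMap k K (e 1 i) +
        ℓ 2 / ℓ 0 * algebraMap k K (e 2 i) := rfl
  rw [h6]
  have h7 := hu i
  rw [Fin.sum_univ_three] at h7
  field_simp
  rw [mul_comm, h7]


theorem iter_smulK {d : ℕ} {F : Fin 3 → MvPolynomial (Fin 3) K} (hF : ∀ i, (F i).IsHomogeneous d)
    (c : K) (y : Fin 3 → K) (N : ℕ) : iter F (c • y) N = c ^ d ^ N • iter F y N := by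
  funext i
  rw [← eval_itF, eval_smul_hom (itF_hom hF N i), eval_itF]
  rfl

theorem local_K [IsAlgClosed k] (hK : IsFunctionField k K) {d : ℕ}
    {F : Fin 3 → MvPolynomial (Fin 3) K}
    (hF : ∀ i, (F i).IsHomogeneous d) {h : MvPolynomial (Fin 3) K} {D : ℕ}
    (hh : h.IsHomogeneous D) (hirr : Irreducible h) {b : Place k K}
    {f : Fin 3 → MvPolynomial (Fin 3) k} (hf : GoodRed d b F f) {g : MvPolynomial (Fin 3) k}
    (hg : RedP b h g) {y : ℕ → Fin 3 → K} {N : ℕ}
    (hstep : ∀ j, y (j + 1) = iter F (y j) N) (hdist : ∀ j j', j ≠ j' → ¬ PEq (y j) (y j'))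
    {e : Fin 3 → Fin 3 → k} (hw : ∀ j, Red b (y j) (e 0)) (hdet : (Matrix.of e).det ≠ 0)
    {γ μ α : k} (hγ : γ ≠ 0) (hper : iter f (e 0) N = γ • e 0) (hμ0 : μ ≠ 0)
    (hμ : ∀ t, 1 ≤ t → ∑ i ∈ Finset.range t, μ ^ i ≠ 0)
    (h1 : (mult f (e 0) N).mulVec (e 1) = (μ * γ) • e 1 + α • e 0)
    (h2 : (mult f (e 0) N).mulVec (e 2) = 0)
    (hgt : ∑ i, eval (e 0) (pderiv i g) * e 2 i ≠ 0)
    (hinf : {j | eval (y j) h = 0}.Infinite) : h ∣ (cmp F)^[N] h := by
  classical
  by_contra hnd
  obtain ⟨π, hπ, hπv⟩ := exists_unif b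
  obtain ⟨χ, hχ, hχv⟩ := exists_chi hK b
  have hχ0 : ∀ r, χ r = 0 ↔ π ∣ r := fun r => (hχv r).trans (hπv r).symm
  choose Φ hΦ1 hΦ2 using fun i => exists_lift b hχ hχv (redP_itF hf.red N i)
  obtain ⟨H, hH1, hH2⟩ := exists_lift b hχ hχv hg
  choose s p hs hp hy using fun j => exists_coord b hdet (hw j)
  set eR : Fin 3 → Fin 3 → b.ring := fun a i => algebraMap k b.ring (e a i) with heR
  -- the points in the chart
  set P : ℕ → Fin 3 → b.ring := fun j => pt eR (p j) with hP
  set ι : b.ring →+* K := algebraMap b.ring K with hι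
  have hιinj : Function.Injective ι := fun u v huv => Subtype.ext huv
  have hιval : ∀ r, b.val (ι r) ≤ 1 := fun r => r.2
  have hyP : ∀ j, y j = s j • fun i => ι (P j i) := fun j => hy j
  have hcoe : ∀ (Q : MvPolynomial (Fin 3) b.ring) (u : Fin 3 → b.ring),
      ι (eval u Q) = eval (fun i => ι (u i)) (map ι Q) := by
    intro Q u
    rw [eval_map]
    have := MvPolynomial.eval₂_comp_left ι (RingHom.id _) u Q
    rw [RingHom.comp_id] at this
    exact this
  -- the dual basis
  have hB2 : Matrix.of e * (Matrix.of e)⁻¹ = 1 :=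
    Matrix.mul_nonsing_inv _ (isUnit_iff_ne_zero.2 hdet)
  set B := (Matrix.of e)⁻¹ with hB
  have hB3 : ∀ a, ∑ i, e a i * B i 0 = if a = 0 then 1 else 0 := by
    intro a
    have h4 := congrFun (congrFun hB2 a) 0
    rw [Matrix.mul_apply, Matrix.one_apply] at h4
    exact h4
  have hℓ : ∀ q : Fin 2 → b.ring, ∑ i, pt eR q i * algebraMap k b.ring (B i 0) = 1 := by
    intro q
    have h4 : ∀ i, pt eR q i * algebraMap k b.ring (B i 0) =
        algebraMap k b.ring (e 0 i * B i 0) + q 0 * algebraMap k b.ring (e 1 i * B i 0) +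
          q 1 * algebraMap k b.ring (e 2 i * B i 0) := by
      intro i
      simp only [pt, heR, map_mul]
      ring
    rw [Finset.sum_congr rfl fun i _ => h4 i, Finset.sum_add_distrib, Finset.sum_add_distrib,
      ← Finset.mul_sum, ← Finset.mul_sum, ← map_sum, ← map_sum, ← map_sum, hB3, hB3, hB3]
    simp
  -- the steps
  have hst : ∀ j, ∃ σ : b.ring, ∀ i, eval (P j) (Φ i) = σ * P (j + 1) i := by
    intro j
    have h3 : iter F (fun i => ι (P j i)) N =
        (s (j + 1) / s j ^ d ^ N) • fun i => ι (P (j + 1) i) := by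
      have h4 := hstep j
      rw [hyP j, hyP (j + 1), iter_smulK hF] at h4
      rw [div_eq_inv_mul, mul_smul, h4, smul_smul, inv_mul_cancel₀ (pow_ne_zero _ (hs j)),
        one_smul]
    have h5 : ∀ i, ι (eval (P j) (Φ i)) = s (j + 1) / s j ^ d ^ N * ι (P (j + 1) i) := by
      intro i
      rw [hcoe, hΦ1, eval_itF, h3]
      rfl
    refine ⟨∑ i, eval (P j) (Φ i) * algebraMap k b.ring (B i 0), fun i => ?_⟩
    have h6 : ι (∑ i, eval (P j) (Φ i) * algebraMap k b.ring (B i 0)) =
        s (j + 1) / s j ^ d ^ N := by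
      rw [map_sum]
      have h8 : ∀ i, ι (eval (P j) (Φ i) * algebraMap k b.ring (B i 0)) =
          s (j + 1) / s j ^ d ^ N * ι (P (j + 1) i * algebraMap k b.ring (B i 0)) := by
        intro i
        rw [map_mul, h5 i, map_mul, mul_assoc]
      rw [Finset.sum_congr rfl fun i _ => h8 i, ← Finset.mul_sum, ← map_sum, hℓ, map_one,
        mul_one]
    apply hιinj
    rw [h5 i, map_mul, h6]
  -- injectivity
  have hinj : Function.Injective p := by
    intro j j' hjj
    by_contra hne
    apply hdist j j' hne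
    refine ⟨s j' / s j, div_ne_zero (hs j') (hs j), ?_⟩
    have h3 : P j = P j' := by rw [hP]; simp only [hjj]
    rw [hyP j, hyP j', smul_smul, div_mul_cancel₀ _ (hs j), h3]
  -- values
  have hH : ∀ j, ι (eval (P j) H) = eval (fun i => ι (P j i)) h := fun j => by rw [hcoe, hH1]
  have hHy : ∀ j, eval (y j) h = s j ^ D * ι (eval (P j) H) := by
    intro j
    rw [hyP j, eval_smul_hom hh, hH]
  have hinf' : {j | eval (P j) H = 0}.Infinite := by
    refine hinf.mono fun j hj => ?_
    have h3 : eval (y j) h = 0 := hj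
    rw [hHy j] at h3
    rcases mul_eq_zero.1 h3 with h4 | h4
    · exact absurd h4 (pow_ne_zero _ (hs j))
    · exact hιinj (h4.trans (map_zero ι).symm)
  -- elimination
  set eK : Matrix (Fin 3) (Fin 3) K := (algebraMap k K).mapMatrix (Matrix.of e) with heK
  have hdetK : eK.det ≠ 0 := by
    rw [heK, ← RingHom.map_det]
    exact (map_ne_zero _).2 hdet
  have hnd' : ¬ lin eK h ∣ lin eK ((cmp F)^[N] h) := fun h3 => hnd (lin_dvd hdetK h3)
  obtain ⟨t, A, A', ρ, hρ0, hρh, hρ2, hρ⟩ := exists_elim (lin_hom eK hh)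
    (lin_hom eK (cmp_iter_hom hF hh N)) (lin_irr hdetK hirr) hnd'
  have hlin : ∀ (j : ℕ) (Q : MvPolynomial (Fin 3) K),
      eval ![1, ι (p j 0), ι (p j 1)] (lin eK Q) = eval (fun i => ι (P j i)) Q := by
    intro j Q
    rw [lin_eval]
    congr 2
    funext i
    rw [Fin.sum_univ_three, hP]
    simp only [pt, heR, heK, RingHom.mapMatrix_apply, Matrix.map_apply, Matrix.of_apply, map_add,
      map_mul]
    have h3 : ∀ c : k, ι (algebraMap k b.ring c) = algebraMap k K c := fun c => rfl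
    rw [h3, h3, h3]
    simp
  -- the polynomial in one variable
  set ρ1 : Polynomial K := ∑ m ∈ ρ.support, Polynomial.monomial (m 1) (ρ.coeff m) with hρ1
  have hρ1e : ∀ u v : K, eval ![1, u, v] ρ = ρ1.eval u := by
    intro u v
    rw [hρ1, eval_eq', Polynomial.eval_finsetSum]
    refine Finset.sum_congr rfl fun m hm => ?_
    rw [Fin.prod_univ_three, hρ2 m hm, Polynomial.eval_monomial]
    simp
  have hρ1c : ∀ n, ρ1.coeff n = ∑ m ∈ ρ.support, if m 1 = n then ρ.coeff m else 0 := by
    intro n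
    rw [hρ1, Polynomial.finsetSum_coeff]
    exact Finset.sum_congr rfl fun m _ => Polynomial.coeff_monomial
  have hdeg : ∀ m ∈ ρ.support, m 0 + m 1 = t := by
    intro m hm
    have h3 := hρh (mem_support_iff.1 hm)
    have h4 : m.degree = t := by
      rw [← h3, Finsupp.degree_eq_weight_one]
      rfl
    rw [Finsupp.degree_eq_sum, Fin.sum_univ_three, hρ2 m hm] at h4
    omega
  have hρ10 : ρ1 ≠ 0 := by
    obtain ⟨m, hm⟩ := support_nonempty.2 hρ0
    intro h3
    have h4 := hρ1c (m 1)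
    rw [h3, Polynomial.coeff_zero, Finset.sum_eq_single m] at h4
    · rw [if_pos rfl] at h4
      exact (mem_support_iff.1 hm) h4.symm
    · intro m' hm' hne
      rw [if_neg]
      intro h5
      apply hne
      have h6 := hdeg m hm
      have h7 := hdeg m' hm'
      have h8 := hρ2 m hm
      have h9 := hρ2 m' hm'
      ext i
      fin_cases i
      · show m' 0 = m 0
        omega
      · exact h5
      · show m' 2 = m 2
        omega
    · intro h5
      exact absurd hm h5
  -- denominators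
  have hπ1 : b.val (ι π) ≤ WithZero.exp (-1 : ℤ) := by
    have h3 : b.val (ι π) < 1 := (hπv π).1 dvd_rfl
    by_cases h0 : b.val (ι π) = 0
    · rw [h0]
      exact zero_le
    · apply WithZero.le_exp_of_log_le
      have h4 := (WithZero.log_lt_log h0 one_ne_zero).2 h3
      rw [WithZero.log_one] at h4
      omega
  have hκ : ∀ (n : ℕ) (Q : MvPolynomial (Fin 3) K), WithZero.log (gs b Q) ≤ n →
      b.val (ι (π ^ n)) * gs b Q ≤ 1 := by
    intro n Q hn
    have h3 : gs b Q ≤ WithZero.exp (n : ℤ) := WithZero.le_exp_of_log_le hn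
    have h4 : b.val (ι (π ^ n)) ≤ WithZero.exp (-(n : ℤ)) := by
      rw [map_pow, map_pow]
      calc b.val (ι π) ^ n ≤ WithZero.exp (-1 : ℤ) ^ n := pow_le_pow_left' hπ1 n
        _ = WithZero.exp (-(n : ℤ)) := by
          rw [← WithZero.exp_nsmul]
          congr 1
          simp
    calc _ ≤ WithZero.exp (-(n : ℤ)) * WithZero.exp (n : ℤ) := mul_le_mul' h4 h3
      _ = 1 := by rw [← WithZero.exp_add]; simp
  obtain ⟨n₁, hn₁⟩ : ∃ n₁ : ℕ, WithZero.log (gs b A) ≤ n₁ ∧ WithZero.log (gs b A') ≤ n₁ ∧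
      WithZero.log (gs b ρ) ≤ n₁ := by
    refine ⟨(WithZero.log (gs b A)).toNat + (WithZero.log (gs b A')).toNat +
      (WithZero.log (gs b ρ)).toNat, ?_, ?_, ?_⟩ <;> push_cast <;> omega
  obtain ⟨hnA, hnA', hnρ⟩ := hn₁
  set κ : b.ring := π ^ n₁ with hκdef
  have hlift : ∀ Q : MvPolynomial (Fin 3) K, WithZero.log (gs b Q) ≤ n₁ → ∀ j, ∃ a : b.ring,
      ι a = ι κ * eval ![1, ι (p j 0), ι (p j 1)] Q := by
    intro Q hQ j
    have h3 : b.val (eval ![1, ι (p j 0), ι (p j 1)] Q) ≤ gs b Q := by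
      apply val_eval_le_gs
      intro i
      fin_cases i
      · simp
      · exact hιval _
      · exact hιval _
    refine ⟨⟨ι κ * eval ![1, ι (p j 0), ι (p j 1)] Q, ?_⟩, rfl⟩
    show b.val _ ≤ 1
    rw [map_mul]
    exact (mul_le_mul' le_rfl h3).trans (hκ n₁ Q hQ)
  have hρlift : Polynomial.C (ι κ) * ρ1 ∈ Polynomial.lifts ι := by
    rw [Polynomial.lifts_iff_coeff_lifts]
    intro n
    have h3 : b.val (ρ1.coeff n) ≤ gs b ρ := by
      rw [hρ1c]
      refine b.val.map_sum_le fun m _ => ?_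
      split_ifs
      · exact formHeight_le b ρ m
      · rw [map_zero]
        exact zero_le
    rw [Polynomial.coeff_C_mul]
    refine ⟨⟨ι κ * ρ1.coeff n, ?_⟩, rfl⟩
    show b.val _ ≤ 1
    rw [map_mul]
    exact (mul_le_mul' le_rfl h3).trans (hκ n₁ ρ hnρ)
  obtain ⟨ρR, hρR⟩ := (Polynomial.mem_lifts _).1 hρlift
  have hκ0 : ι κ ≠ 0 := by
    intro h3
    have h4 : κ = 0 := hιinj (h3.trans (map_zero ι).symm)
    exact pow_ne_zero _ hπ.prime.ne_zero h4
  have hρR0 : ρR ≠ 0 := by
    rintro rfl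
    rw [Polynomial.map_zero] at hρR
    rcases mul_eq_zero.1 hρR.symm with h3 | h3
    · exact hκ0 (Polynomial.C_eq_zero.1 h3)
    · exact hρ10 h3
  apply hρR0
  choose σ hσ using hst
  -- the conditions on the coefficients
  refine local_R hπ χ hχ hχ0 (Φ := Φ) (H := H) hdet hγ hμ0 hμ (α := α) ?_ ?_ ?_ ?_ (p := p) ?_ hinj
    (fun j => ⟨σ j, hσ j⟩) hinf' ρR ?_
  · intro i
    rw [hΦ2, eval_itF, hper]
    rfl
  · intro i
    have h3 := congrFun h1 i
    rw [Matrix.mulVec, dotProduct] at h3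
    rw [hΦ2]
    simp only [pderiv_itF]
    rw [h3]
    rfl
  · intro i
    have h3 := congrFun h2 i
    rw [Matrix.mulVec, dotProduct] at h3
    rw [hΦ2]
    simp only [pderiv_itF]
    rw [h3]
    rfl
  · rw [hH2]
    exact hgt
  · intro j i
    rw [hπv]
    exact hp j i
  · intro I j hI hI'
    obtain ⟨a, ha⟩ := hlift A hnA j
    obtain ⟨a', ha'⟩ := hlift A' hnA' j
    have hkey : ρR.eval (p j 0) = a * eval (P j) H + a' * (σ j ^ D * eval (P (j + 1)) H) := by
      apply hιinj
      have h3 : ι (ρR.eval (p j 0)) = (ρR.map ι).eval (ι (p j 0)) := by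
        rw [Polynomial.eval_map, Polynomial.eval₂_at_apply]
      rw [h3, hρR, Polynomial.eval_mul, Polynomial.eval_C, ← hρ1e (ι (p j 0)) (ι (p j 1)), ← hρ,
        map_add, map_mul, map_mul, hlin, hlin, eval_cmp_iter, map_add, map_mul, map_mul, ha, ha',
        map_mul, hH, hH]
      have h4 : iter F (fun i => ι (P j i)) N = ι (σ j) • fun i => ι (P (j + 1) i) := by
        funext i
        have h5 := congrArg ι (hσ j i)
        rw [hcoe, hΦ1, eval_itF, map_mul] at h5
        exact h5
      have h6 : ι (σ j ^ D) = ι (σ j) ^ D := map_pow _ _ _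
      rw [h4, eval_smul_hom hh, h6]
      ring
    rw [hkey]
    exact dvd_add (dvd_mul_of_dvd_right hI _)
      (dvd_mul_of_dvd_right (dvd_mul_of_dvd_right hI' _) _)

end Pool.Agent.Helper63.TS
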