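import Pool.Agent.Helper63.TS.Saddle
import Pool.Agent.Helper63.TS.Chart

/-!
# The local argument, over the valuation ring
-/

set_option autoImplicit false

namespace Pool.Agent.Helper63.TS

open MvPolynomial

variable {R k : Type} [CommRing R] [IsDomain R] [Field k] [Algebra k R]

omit [IsDomain R] in
private theorem chi_eval (χ : R →+* k) (hχ : ∀ c : k, χ (algebraMap k R c) = c)
    (v : Fin 3 → k) (P : MvPolynomial (Fin 3) R) :
    χ (eval (fun i => algebraMap k R (v i)) P) = eval v (map χ P) := by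
  rw [eval_map, ← coe_eval₂Hom, ← RingHom.comp_apply]
  congr 1
  refine MvPolynomial.ringHom_ext (fun r => ?_) (fun i => ?_)
  · simp
  · simp [hχ]

omit [IsDomain R] [Algebra k R] in
private theorem chi_pderiv (χ : R →+* k) (j : Fin 3) (P : MvPolynomial (Fin 3) R) :
    map χ (pderiv j P) = pderiv j (map χ P) := by
  exact (pderiv_map).symm

/-- The components of the map in the chart. -/
private noncomputable def comp (e : Fin 3 → Fin 3 → R) (B : Fin 3 → Fin 3 → R)
    (Φ : Fin 3 → MvPolynomial (Fin 3) R) (a : Fin 3) : MvPolynomial (Fin 2) R :=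
  ∑ i, C (B i a) * ch e (Φ i)

omit [IsDomain R] in
private theorem eval_comp (e : Fin 3 → Fin 3 → R) (B : Fin 3 → Fin 3 → R)
    (Φ : Fin 3 → MvPolynomial (Fin 3) R) (a : Fin 3) (u : Fin 2 → R) :
    eval u (comp e B Φ a) = ∑ i, B i a * eval (pt e u) (Φ i) := by
  unfold comp
  rw [map_sum]
  refine Finset.sum_congr rfl fun i _ => ?_
  rw [map_mul, eval_C, eval_ch]

omit [IsDomain R] in
private theorem coeff_comp (e : Fin 3 → Fin 3 → R) (B : Fin 3 → Fin 3 → R)
    (Φ : Fin 3 → MvPolynomial (Fin 3) R) (a : Fin 3) (m : Fin 2 →₀ ℕ) :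
    (comp e B Φ a).coeff m = ∑ i, B i a * (ch e (Φ i)).coeff m := by
  unfold comp
  rw [coeff_sum]
  refine Finset.sum_congr rfl fun i _ => ?_
  rw [coeff_C_mul]

theorem local_R {π : R} (hπ : Unif π) (χ : R →+* k) (hχ : ∀ c : k, χ (algebraMap k R c) = c)
    (hχ0 : ∀ r, χ r = 0 ↔ π ∣ r) {Φ : Fin 3 → MvPolynomial (Fin 3) R}
    {H : MvPolynomial (Fin 3) R} {e : Fin 3 → Fin 3 → k} (hdet : (Matrix.of e).det ≠ 0)
    {γ μ α : k} (hγ : γ ≠ 0) (hμ0 : μ ≠ 0)
    (hμ : ∀ t, 1 ≤ t → ∑ i ∈ Finset.range t, μ ^ i ≠ 0)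
    (hfix : ∀ i, eval (e 0) (map χ (Φ i)) = γ * e 0 i)
    (h1 : ∀ i, ∑ j, eval (e 0) (pderiv j (map χ (Φ i))) * e 1 j = μ * γ * e 1 i + α * e 0 i)
    (h2 : ∀ i, ∑ j, eval (e 0) (pderiv j (map χ (Φ i))) * e 2 j = 0)
    (hH : ∑ j, eval (e 0) (pderiv j (map χ H)) * e 2 j ≠ 0)
    {p : ℕ → Fin 2 → R} (hp : ∀ j i, π ∣ p j i) (hinj : Function.Injective p)
    (hstep : ∀ j, ∃ s : R, ∀ i, eval (pt (fun a i => algebraMap k R (e a i)) (p j)) (Φ i) =
      s * pt (fun a i => algebraMap k R (e a i)) (p (j + 1)) i)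
    (hinf : {j | eval (pt (fun a i => algebraMap k R (e a i)) (p j)) H = 0}.Infinite)
    (ρ : Polynomial R)
    (hρ : ∀ I j, π ^ I ∣ eval (pt (fun a i => algebraMap k R (e a i)) (p j)) H →
      π ^ I ∣ eval (pt (fun a i => algebraMap k R (e a i)) (p (j + 1))) H →
      π ^ I ∣ ρ.eval (p j 0)) : ρ = 0 := by
  classical
  obtain ⟨eR, heR⟩ : ∃ eR : Fin 3 → Fin 3 → R, eR = fun a i => algebraMap k R (e a i) := ⟨_, rfl⟩
  rw [← heR] at hstep hinf hρ
  obtain ⟨B, hB⟩ : ∃ B : Matrix (Fin 3) (Fin 3) k, Matrix.of e * B = 1 :=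
    ⟨(Matrix.of e)⁻¹, Matrix.mul_nonsing_inv _ (isUnit_iff_ne_zero.2 hdet)⟩
  have hB1 : ∀ b a, ∑ i, e b i * B i a = (1 : Matrix (Fin 3) (Fin 3) k) b a := by
    intro b a
    rw [← hB, Matrix.mul_apply]
    rfl
  obtain ⟨BR, hBR⟩ : ∃ BR : Fin 3 → Fin 3 → R, BR = fun i a => algebraMap k R (B i a) := ⟨_, rfl⟩
  have hBR1 : ∀ b a, ∑ i, eR b i * BR i a = if b = a then 1 else 0 := by
    intro b a
    have h := congrArg (algebraMap k R) (hB1 b a)
    rw [map_sum] at h
    rw [heR, hBR]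
    simp only [map_mul] at h
    rw [h, Matrix.one_apply]
    split_ifs <;> simp
  -- reductions of the coefficients
  have hch0 : ∀ P : MvPolynomial (Fin 3) R, χ ((ch eR P).coeff 0) = eval (e 0) (map χ P) := by
    intro P
    rw [coeff_ch, heR]
    exact chi_eval χ hχ (e 0) P
  have hchX : ∀ P : MvPolynomial (Fin 3) R, χ (cX (ch eR P)) =
      ∑ j, eval (e 0) (pderiv j (map χ P)) * e 1 j := by
    intro P
    rw [cX_ch, map_sum]
    refine Finset.sum_congr rfl fun j _ => ?_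
    rw [map_mul, ← chi_pderiv, ← chi_eval χ hχ, heR, hχ]
  have hchY : ∀ P : MvPolynomial (Fin 3) R, χ (cY (ch eR P)) =
      ∑ j, eval (e 0) (pderiv j (map χ P)) * e 2 j := by
    intro P
    rw [cY_ch, map_sum]
    refine Finset.sum_congr rfl fun j _ => ?_
    rw [map_mul, ← chi_pderiv, ← chi_eval χ hχ, heR, hχ]
  have hBχ : ∀ i a, χ (BR i a) = B i a := by
    intro i a
    rw [hBR, hχ]
  have hA0 : ∀ a, χ ((comp eR BR Φ a).coeff 0) = γ * (1 : Matrix (Fin 3) (Fin 3) k) 0 a := by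
    intro a
    rw [coeff_comp, map_sum, ← hB1, Finset.mul_sum]
    refine Finset.sum_congr rfl fun i _ => ?_
    rw [map_mul, hBχ, hch0, hfix]
    ring
  have hAX : ∀ a, χ (cX (comp eR BR Φ a)) = μ * γ * (1 : Matrix (Fin 3) (Fin 3) k) 1 a +
      α * (1 : Matrix (Fin 3) (Fin 3) k) 0 a := by
    intro a
    unfold cX
    rw [coeff_comp, map_sum, ← hB1, ← hB1, Finset.mul_sum, Finset.mul_sum,
      ← Finset.sum_add_distrib]
    refine Finset.sum_congr rfl fun i _ => ?_
    have h := hchX (Φ i)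
    rw [h1] at h
    unfold cX at h
    rw [map_mul, hBχ, h]
    ring
  have hAY : ∀ a, χ (cY (comp eR BR Φ a)) = 0 := by
    intro a
    unfold cY
    rw [coeff_comp, map_sum]
    refine Finset.sum_eq_zero fun i _ => ?_
    have h := hchY (Φ i)
    rw [h2] at h
    unfold cY at h
    rw [map_mul, h, mul_zero]
  have hgerm : Germ π (comp eR BR Φ) :=
    { c0 := by
        rw [← hχ0, hA0]
        simpa using hγ
      c1 := by
        rw [← hχ0, hA0]
        simp
      c2 := by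
        rw [← hχ0, hA0]
        simp
      x1 := by
        rw [← hχ0, hAX]
        simpa using ⟨hμ0, hγ⟩
      y1 := by
        rw [← hχ0, hAY]
      x2 := by
        rw [← hχ0, hAX]
        simp
      y2 := by
        rw [← hχ0, hAY] }
  have hev : ∀ j, ∃ s : R, eval (p j) (comp eR BR Φ 0) = s ∧
      eval (p j) (comp eR BR Φ 1) = s * p (j + 1) 0 ∧
      eval (p j) (comp eR BR Φ 2) = s * p (j + 1) 1 := by
    intro j
    obtain ⟨s, hs⟩ := hstep j
    have key : ∀ a, eval (p j) (comp eR BR Φ a) =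
        s * ((if (0 : Fin 3) = a then 1 else 0) + p (j + 1) 0 * (if (1 : Fin 3) = a then 1 else 0) +
          p (j + 1) 1 * (if (2 : Fin 3) = a then 1 else 0)) := by
      intro a
      rw [eval_comp, ← hBR1, ← hBR1, ← hBR1, Finset.mul_sum, Finset.mul_sum,
        ← Finset.sum_add_distrib, ← Finset.sum_add_distrib, Finset.mul_sum]
      refine Finset.sum_congr rfl fun i _ => ?_
      rw [hs i, pt]
      ring
    refine ⟨s, ?_, ?_, ?_⟩
    · rw [key]; simp
    · rw [key]; simp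
    · rw [key]; simp
  have horb : Orb π (comp eR BR Φ) p :=
    { small := hp
      step0 := by
        intro j
        obtain ⟨s, e0, e1, -⟩ := hev j
        rw [e0, e1, mul_comm]
      step1 := by
        intro j
        obtain ⟨s, e0, -, e2⟩ := hev j
        rw [e0, e2, mul_comm] }
  obtain ⟨u, hu⟩ := hπ.unit _ hgerm.c0
  obtain ⟨μR, hμR⟩ : ∃ μR : R, μR = cX (comp eR BR Φ 1) * ((u⁻¹ : Rˣ) : R) := ⟨_, rfl⟩
  have hμR1 : μR * (comp eR BR Φ 0).coeff 0 = cX (comp eR BR Φ 1) := by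
    rw [hμR, ← hu, mul_assoc, Units.inv_mul, mul_one]
  have hμR2 : χ μR = μ := by
    have h := congrArg χ hμR1
    rw [map_mul, hA0, hAX] at h
    have h3 : χ μR * γ = μ * γ := by simpa using h
    exact mul_right_cancel₀ hγ h3
  refine saddle hπ hgerm horb hinj hμR1 ?_ (H := ch eR H) ?_ ?_ ρ ?_
  · intro t ht
    rw [← hχ0, map_sum]
    have h := hμ t ht
    simpa [hμR2] using h
  · rw [← hχ0, hchY]
    exact hH
  · refine hinf.mono fun j hj => ?_
    simp only [Set.mem_ofPred_eq] at hj ⊢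
    rw [eval_ch]
    exact hj
  · intro I j g1 g2
    rw [eval_ch] at g1 g2
    exact hρ I j g1 g2

end Pool.Agent.Helper63.TS
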