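import Pool.Agent.Helper63.TS.Trans
import Pool.Agent.Helper63.TS.Trace

/-!
# The normal form of the derivative
-/

set_option autoImplicit false

namespace Pool.Agent.Helper63.TS

open MvPolynomial
open Pool.Agent.Helper36 (step iter)
open Pool.Agent.Helper30.TP
open Pool.Agent.Helper63.TK

variable {k : Type} [Field k]

/-- Euler's identity for a triple of forms of the same degree. -/
theorem Normal_euler {d : ℕ} {f : Fin 3 → MvPolynomial (Fin 3) k}
    (hf : ∀ i, (f i).IsHomogeneous d) (z : Fin 3 → k) :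
    (jac f z).mulVec z = (d : k) • step f z := by
  funext i
  have h1 := congrArg (eval z) (hf i).sum_X_mul_pderiv
  rw [map_sum, map_nsmul, nsmul_eq_mul] at h1
  have h2 : step f z i = eval z (f i) := by
    change aeval z (f i) = _
    exact congrArg (fun φ => φ (f i)) (coe_aeval_eq_eval z)
  rw [Pi.smul_apply, smul_eq_mul, h2, ← h1, Matrix.mulVec, dotProduct]
  refine Finset.sum_congr rfl fun j _ => ?_
  rw [map_mul, eval_X, mul_comm]
  rfl

theorem euler_mult {d : ℕ} {f : Fin 3 → MvPolynomial (Fin 3) k}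
    (hf : ∀ i, (f i).IsHomogeneous d) (w : Fin 3 → k) (N : ℕ) :
    (mult f w N).mulVec w = (d : k) ^ N • iter f w N := by
  induction N with
  | zero =>
    change (1 : Matrix (Fin 3) (Fin 3) k).mulVec w = (d : k) ^ 0 • w
    rw [Matrix.one_mulVec, pow_zero, one_smul]
  | succ N ih =>
    change (jac f (iter f w N) * mult f w N).mulVec w = _
    rw [← Matrix.mulVec_mulVec, ih, Matrix.mulVec_smul, Normal_euler hf, smul_smul,
      Pool.Agent.Helper36.iter_succ, pow_succ]

/-- The trace of the adjugate of a `3 × 3` matrix with a vector `z` in its kernel. -/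
theorem Normal_trace (M : Matrix (Fin 3) (Fin 3) k) (x y z : Fin 3 → k)
    (hz : M.mulVec z = 0) :
    M.adjugate.trace * (Matrix.of ![x, y, z]).det =
      (Matrix.of ![M.mulVec x, M.mulVec y, z]).det := by
  have h0 := congrFun hz 0
  have h1 := congrFun hz 1
  have h2 := congrFun hz 2
  simp only [Matrix.mulVec, dotProduct, Fin.sum_univ_three, Pi.zero_apply] at h0 h1 h2
  rw [Matrix.trace_fin_three, Matrix.adjugate_fin_three, Matrix.det_fin_three,
    Matrix.det_fin_three]
  simp only [Matrix.of_apply, Matrix.cons_val_zero, Matrix.cons_val_one, Matrix.cons_val,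
    Matrix.mulVec, dotProduct, Fin.sum_univ_three]
  linear_combination
    ((M 1 0 * x 0 + M 1 1 * x 1 + M 1 2 * x 2) * y 2
      - (M 2 0 * x 0 + M 2 1 * x 1 + M 2 2 * x 2) * y 1
      + x 1 * (M 2 0 * y 0 + M 2 1 * y 1 + M 2 2 * y 2)
      - x 2 * (M 1 0 * y 0 + M 1 1 * y 1 + M 1 2 * y 2)) * h0
    + ((M 2 0 * x 0 + M 2 1 * x 1 + M 2 2 * x 2) * y 0
      - (M 0 0 * x 0 + M 0 1 * x 1 + M 0 2 * x 2) * y 2
      + x 2 * (M 0 0 * y 0 + M 0 1 * y 1 + M 0 2 * y 2)
      - x 0 * (M 2 0 * y 0 + M 2 1 * y 1 + M 2 2 * y 2)) * h1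
    + ((M 0 0 * x 0 + M 0 1 * x 1 + M 0 2 * x 2) * y 1
      - (M 1 0 * x 0 + M 1 1 * x 1 + M 1 2 * x 2) * y 0
      + x 0 * (M 1 0 * y 0 + M 1 1 * y 1 + M 1 2 * y 2)
      - x 1 * (M 0 0 * y 0 + M 0 1 * y 1 + M 0 2 * y 2)) * h2

/-- Two independent vectors can be completed to a basis. -/
theorem Normal_complete {w z : Fin 3 → k} (hw : w ≠ 0) (hz : ∀ c : k, z ≠ c • w) :
    ∃ v : Fin 3 → k, (Matrix.of ![w, v, z]).det ≠ 0 := by
  by_contra hcon
  push Not at hcon
  have h0 := hcon ![1, 0, 0]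
  have h1 := hcon ![0, 1, 0]
  have h2 := hcon ![0, 0, 1]
  rw [Matrix.det_fin_three] at h0 h1 h2
  simp only [Matrix.of_apply, Matrix.cons_val_zero, Matrix.cons_val_one, Matrix.cons_val]
    at h0 h1 h2
  obtain ⟨i, hi⟩ := Function.ne_iff.1 hw
  rw [Pi.zero_apply] at hi
  apply hz (z i / w i)
  funext j
  rw [Pi.smul_apply, smul_eq_mul, div_mul_eq_mul_div, eq_div_iff hi]
  fin_cases i <;> fin_cases j <;>
    simp only [Fin.zero_eta, Fin.mk_one, Fin.reduceFinMk] <;>
    first
      | ring1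
      | linear_combination h0
      | linear_combination -h0
      | linear_combination h1
      | linear_combination -h1
      | linear_combination h2
      | linear_combination -h2

/-- Every vector is a combination of the vectors of a basis. -/
theorem Normal_comb {w v z : Fin 3 → k} (h : (Matrix.of ![w, v, z]).det ≠ 0)
    (u : Fin 3 → k) : ∃ a b c : k, u = a • w + b • v + c • z := by
  have hu : IsUnit (Matrix.of ![w, v, z]).det := isUnit_iff_ne_zero.2 h
  have h1 : Matrix.vecMul (Matrix.vecMul u (Matrix.of ![w, v, z])⁻¹) (Matrix.of ![w, v, z]) =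
      u := by
    rw [Matrix.vecMul_vecMul, Matrix.nonsing_inv_mul _ hu, Matrix.vecMul_one]
  refine ⟨Matrix.vecMul u (Matrix.of ![w, v, z])⁻¹ 0,
    Matrix.vecMul u (Matrix.of ![w, v, z])⁻¹ 1,
    Matrix.vecMul u (Matrix.of ![w, v, z])⁻¹ 2, ?_⟩
  conv_lhs => rw [← h1]
  funext i
  rw [Matrix.vecMul, dotProduct, Fin.sum_univ_three]
  rfl

theorem normal_form [CharZero k] {d : ℕ} (hd : 1 ≤ d) {f : Fin 3 → MvPolynomial (Fin 3) k}
    (hf : ∀ i, (f i).IsHomogeneous d) {w : Fin 3 → k} (hw : w ≠ 0) {N : ℕ} (hN : 0 < N) {γ : k}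
    (hγ : γ ≠ 0) (hper : iter f w N = γ • w) (hJ : eval w (jf f) = 0)
    (htr : (mult f w N).adjugate.trace ≠ 0) {g : MvPolynomial (Fin 3) k} {j : Fin 3}
    (hR : eval w (rf f g j) ≠ 0) :
    ∃ (e : Fin 3 → Fin 3 → k) (μ α : k), e 0 = w ∧ (Matrix.of e).det ≠ 0 ∧ μ ≠ 0 ∧
      μ * ((d : k) ^ N * γ ^ 2) = (mult f w N).adjugate.trace ∧
      (mult f w N).mulVec (e 1) = (μ * γ) • e 1 + α • w ∧
      (mult f w N).mulVec (e 2) = 0 ∧ ∑ i, eval w (pderiv i g) * e 2 i ≠ 0 := by
  have hdk : (d : k) ^ N ≠ 0 := pow_ne_zero _ (Nat.cast_ne_zero.2 (by omega))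
  have hMw : (mult f w N).mulVec w = ((d : k) ^ N * γ) • w := by
    rw [euler_mult hf, hper, smul_smul]
  -- the kernel vector
  obtain ⟨z, hz0, hzg⟩ : ∃ z : Fin 3 → k, (mult f w N).mulVec z = 0 ∧
      ∑ i, eval w (pderiv i g) * z i ≠ 0 := by
    refine ⟨fun i => (jac f w).adjugate i j, ?_, ?_⟩
    · have h1 : (jac f w).mulVec (fun i => (jac f w).adjugate i j) = 0 := by
        funext i
        have h2 : ((jac f w) * (jac f w).adjugate) i j = 0 := by
          rw [Matrix.mul_adjugate, ← eval_jf, hJ, zero_smul]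
          rfl
        exact h2
      have h2 : mult f w N = mult f (iter f w 1) (N - 1) * jac f w := by
        have e1 : N = 1 + (N - 1) := by omega
        conv_lhs => rw [e1, mult_add]
        congr 1
        change jac f w * 1 = _
        rw [Matrix.mul_one]
      rw [h2, ← Matrix.mulVec_mulVec, h1, Matrix.mulVec_zero]
    · rw [eval_rf] at hR
      exact hR
  -- independence
  have hind : ∀ c : k, z ≠ c • w := by
    intro c hc
    have h1 : c = 0 := by
      rw [hc, Matrix.mulVec_smul, hMw, smul_smul, smul_eq_zero] at hz0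
      rcases hz0 with h | h
      · rcases mul_eq_zero.1 h with h | h
        · exact h
        · exact absurd h (mul_ne_zero hdk hγ)
      · exact absurd h hw
    apply hzg
    rw [hc, h1, zero_smul]
    simp
  obtain ⟨v, hv⟩ := Normal_complete hw hind
  obtain ⟨a, b, c, habc⟩ := Normal_comb hv ((mult f w N).mulVec v)
  have htr2 : (mult f w N).adjugate.trace = ((d : k) ^ N * γ) * b := by
    have h1 := Normal_trace (mult f w N) w v z hz0
    rw [hMw, habc] at h1
    apply mul_right_cancel₀ hv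
    rw [h1, Matrix.det_fin_three, Matrix.det_fin_three]
    simp only [Matrix.of_apply, Matrix.cons_val_zero, Matrix.cons_val_one, Matrix.cons_val,
      Pi.add_apply, Pi.smul_apply, smul_eq_mul]
    ring
  have hb : b ≠ 0 := by
    rintro rfl
    exact htr (by rw [htr2, mul_zero])
  refine ⟨![w, v + (c / b) • z, z], b / γ, a, rfl, ?_, div_ne_zero hb hγ, ?_, ?_, hz0, hzg⟩
  · have h1 : (Matrix.of ![w, v + (c / b) • z, z]).det = (Matrix.of ![w, v, z]).det := by
      rw [Matrix.det_fin_three, Matrix.det_fin_three]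
      simp only [Matrix.of_apply, Matrix.cons_val_zero, Matrix.cons_val_one, Matrix.cons_val,
        Pi.add_apply, Pi.smul_apply, smul_eq_mul]
      ring
    rw [h1]
    exact hv
  · rw [htr2]
    field_simp
  · change (mult f w N).mulVec (v + (c / b) • z) = (b / γ * γ) • (v + (c / b) • z) + a • w
    rw [Matrix.mulVec_add, Matrix.mulVec_smul, hz0, smul_zero, add_zero, habc,
      div_mul_cancel₀ _ hγ, smul_add, smul_smul, mul_div_cancel₀ _ hb]
    abel

end Pool.Agent.Helper63.TS
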