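import Pool.Agent.Helper63.TS.Trace

/-!
# Passing to a multiple of the period
-/

set_option autoImplicit false

namespace Pool.Agent.Helper63.TS

open MvPolynomial
open Pool.Agent.Helper36 (step iter iter_succ iter_add iter_zero aeval_smul_homogeneous)
open Pool.Agent.Helper30.TP
open Pool.Agent.Helper63.TK

variable {k : Type} [Field k]

theorem Period_iter_smul {d : ℕ} {f : Fin 3 → MvPolynomial (Fin 3) k}
    (hf : ∀ i, (f i).IsHomogeneous d) (c : k) (x : Fin 3 → k) (n : ℕ) :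
    iter f (c • x) n = c ^ d ^ n • iter f x n := by
  induction n with
  | zero => simp [iter_zero]
  | succ n ih =>
    have h : ∀ (c : k) (x : Fin 3 → k), step f (c • x) = c ^ d • step f x := fun c x => by
      funext i
      exact aeval_smul_homogeneous (hf i) c x
    rw [iter_succ, ih, h, iter_succ, ← pow_mul, ← pow_succ]

theorem Period_jac_smul {d : ℕ} {f : Fin 3 → MvPolynomial (Fin 3) k}
    (hf : ∀ i, (f i).IsHomogeneous d) (c : k) (z : Fin 3 → k) :
    jac f (c • z) = c ^ (d - 1) • jac f z := by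
  ext i j
  exact eval_smul_hom ((hf i).pderiv) c z

theorem Period_mult_smul {d : ℕ} (hd : 1 ≤ d) {f : Fin 3 → MvPolynomial (Fin 3) k}
    (hf : ∀ i, (f i).IsHomogeneous d) (c : k) (z : Fin 3 → k) (n : ℕ) :
    mult f (c • z) n = c ^ (d ^ n - 1) • mult f z n := by
  induction n with
  | zero =>
    show (1 : Matrix (Fin 3) (Fin 3) k) = c ^ (d ^ 0 - 1) • 1
    simp
  | succ n ih =>
    show jac f (iter f (c • z) n) * mult f (c • z) n = _ • (jac f (iter f z n) * mult f z n)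
    rw [ih, Period_iter_smul hf, Period_jac_smul hf, Matrix.smul_mul, Matrix.mul_smul, smul_smul,
      ← pow_mul, ← pow_add]
    congr 2
    have h1 : 1 ≤ d ^ n := Nat.one_le_pow _ _ hd
    have h2 : d ^ (n + 1) = d ^ n * (d - 1) + d ^ n := by
      obtain ⟨e, rfl⟩ : ∃ e, d = e + 1 := ⟨d - 1, by omega⟩
      rw [pow_succ, Nat.add_sub_cancel]
      ring
    omega

theorem exists_period [CharZero k] {d : ℕ} (hd : 1 ≤ d) {f : Fin 3 → MvPolynomial (Fin 3) k}
    (hf : ∀ i, (f i).IsHomogeneous d) {w : Fin 3 → k} {N : ℕ} (hN : 0 < N) {γ : k} (hγ : γ ≠ 0)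
    (hper : iter f w N = γ • w) (hJ : eval w (jf f) = 0)
    (htr : (mult f w N).adjugate.trace ≠ 0) :
    ∃ (q : ℕ) (γ' : k), 0 < q ∧ γ' ≠ 0 ∧ iter f w (N * q) = γ' • w ∧
      (mult f w (N * q)).adjugate.trace ≠ 0 ∧
      ∀ μ : k, μ * ((d : k) ^ (N * q) * γ' ^ 2) = (mult f w (N * q)).adjugate.trace →
        ∀ t, 1 ≤ t → ∑ i ∈ Finset.range t, μ ^ i ≠ 0 := by
  have hdk : (d : k) ≠ 0 := by exact_mod_cast (by omega : d ≠ 0)
  set P := (mult f w N).adjugate with hP
  set τ := P.trace with hτ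
  -- the determinant vanishes
  have hdet : (mult f w N).det = 0 := by
    obtain ⟨n, rfl⟩ : ∃ n, N = 1 + n := ⟨N - 1, by omega⟩
    have h1 : mult f w 1 = jac f w := by
      show jac f (iter f w 0) * 1 = jac f w
      rw [mul_one, iter_zero]
    rw [mult_add, Matrix.det_mul, h1, ← eval_jf, hJ, mul_zero]
  have hPP : P * P = τ • P := by
    ext a b
    rw [Matrix.mul_apply, Matrix.smul_apply, smul_eq_mul, hτ, Matrix.trace, Finset.sum_mul]
    refine Finset.sum_congr rfl fun c _ => ?_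
    rw [Matrix.diag_apply, mul_comm (P c c), hP]
    exact adj_minor hdet a c c b
  set μ₁ : k := τ / ((d : k) ^ N * γ ^ 2) with hμ₁
  have hμ₁0 : μ₁ ≠ 0 := div_ne_zero htr (mul_ne_zero (pow_ne_zero _ hdk) (pow_ne_zero _ hγ))
  have hμ₁τ : μ₁ * ((d : k) ^ N * γ ^ 2) = τ :=
    div_mul_cancel₀ _ (mul_ne_zero (pow_ne_zero _ hdk) (pow_ne_zero _ hγ))
  have key : ∀ q : ℕ, ∃ g c : k, g ≠ 0 ∧ iter f w (N * (q + 1)) = g • w ∧
      (mult f w (N * (q + 1))).adjugate = c • P ∧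
      c * τ = μ₁ ^ (q + 1) * ((d : k) ^ (N * (q + 1)) * g ^ 2) := by
    intro q
    induction q with
    | zero =>
      refine ⟨γ, 1, hγ, by simpa using hper, by simp [hP], ?_⟩
      simp only [zero_add, mul_one, pow_one, one_mul]
      exact hμ₁τ.symm
    | succ q ih =>
      obtain ⟨g, c, hg, h1, h2, h3⟩ := ih
      have hE : 1 ≤ d ^ N := Nat.one_le_pow _ _ hd
      refine ⟨g ^ d ^ N * γ, c * (g ^ (d ^ N - 1)) ^ 2 * τ,
        mul_ne_zero (pow_ne_zero _ hg) hγ, ?_, ?_, ?_⟩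
      · rw [mul_add_one N (q + 1), Nat.add_comm, iter_add, h1, Period_iter_smul hf, hper, smul_smul]
      · rw [mul_add_one N (q + 1), mult_add, h1, Period_mult_smul hd hf, Matrix.adjugate_mul_distrib,
          h2, Matrix.adjugate_smul, ← hP, Fintype.card_fin, Matrix.smul_mul, Matrix.mul_smul, hPP,
          smul_smul, smul_smul]
      · have e1 : c * (g ^ (d ^ N - 1)) ^ 2 * τ * τ = (c * τ) * ((g ^ (d ^ N - 1)) ^ 2 * τ) := by
          ring
        rw [e1, h3, ← hμ₁τ]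
        have e2 : g ^ d ^ N = g ^ (d ^ N - 1) * g := by
          rw [← pow_succ]
          congr 1
          omega
        rw [e2, mul_add_one N (q + 1), pow_add (d : k)]
        ring
  -- the value of μ
  have hmu : ∀ (q : ℕ) (g c : k), g ≠ 0 → (mult f w (N * (q + 1))).adjugate = c • P →
      c * τ = μ₁ ^ (q + 1) * ((d : k) ^ (N * (q + 1)) * g ^ 2) → ∀ μ : k,
      μ * ((d : k) ^ (N * (q + 1)) * g ^ 2) = (mult f w (N * (q + 1))).adjugate.trace →
      μ = μ₁ ^ (q + 1) := by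
    intro q g c hg h2 h3 μ hμ
    rw [h2, Matrix.trace_smul, smul_eq_mul, ← hτ, h3] at hμ
    exact mul_right_cancel₀ (mul_ne_zero (pow_ne_zero _ hdk) (pow_ne_zero _ hg)) hμ
  have htr' : ∀ (q : ℕ) (g c : k), g ≠ 0 → (mult f w (N * (q + 1))).adjugate = c • P →
      c * τ = μ₁ ^ (q + 1) * ((d : k) ^ (N * (q + 1)) * g ^ 2) →
      (mult f w (N * (q + 1))).adjugate.trace ≠ 0 := by
    intro q g c hg h2 h3
    rw [h2, Matrix.trace_smul, smul_eq_mul, ← hτ, h3]
    exact mul_ne_zero (pow_ne_zero _ hμ₁0) (mul_ne_zero (pow_ne_zero _ hdk) (pow_ne_zero _ hg))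
  by_cases hroot : ∃ q : ℕ, μ₁ ^ (q + 1) = 1
  · obtain ⟨q, hq⟩ := hroot
    obtain ⟨g, c, hg, h1, h2, h3⟩ := key q
    refine ⟨q + 1, g, by omega, hg, h1, htr' q g c hg h2 h3, ?_⟩
    intro μ hμ t ht
    rw [hmu q g c hg h2 h3 μ hμ, hq]
    simp only [one_pow, Finset.sum_const, Finset.card_range, nsmul_eq_mul, mul_one]
    exact_mod_cast (by omega : t ≠ 0)
  · obtain ⟨g, c, hg, h1, h2, h3⟩ := key 0
    refine ⟨0 + 1, g, by omega, hg, h1, htr' 0 g c hg h2 h3, ?_⟩
    intro μ hμ t ht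
    rw [hmu 0 g c hg h2 h3 μ hμ, zero_add, pow_one]
    intro hsum
    have h4 := geom_sum_mul μ₁ t
    rw [hsum, zero_mul] at h4
    apply hroot
    refine ⟨t - 1, ?_⟩
    rw [Nat.sub_add_cancel ht]
    exact (sub_eq_zero.1 h4.symm)

end Pool.Agent.Helper63.TS
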