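import Pool.Agent.Helper63.TS.LocalK
import Pool.Agent.Helper63.TS.Exist
import Pool.Agent.Helper63.TS.Period
import Pool.Agent.Helper63.TS.Normal
import Pool.Agent.Helper30.TP.Crit
import Pool.Agent.Helper30.TP.LFin
import Pool.Agent.Helper30.TP.Star

/-!
# The critical curve is met along a progression
-/

set_option autoImplicit false

namespace Pool.Agent.Helper63.TS

open MvPolynomial
open Pool.Agent.Helper16 (Place IsFunctionField)
open Pool.Agent.Helper36 (step iter iter_add iter_succ iter_zero)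
open Pool.Agent.Helper30.TP
open Pool.Agent.Helper63.TK

section aux

variable {K : Type} [Field K]

/-- An irreducible factor which vanishes at infinitely many points of a sequence. -/
theorem exists_factor (x : ℕ → Fin 3 → K) {P : MvPolynomial (Fin 3) K} {e : ℕ}
    (hP : P.IsHomogeneous e) (hP0 : P ≠ 0) (hinf : {n | eval (x n) P = 0}.Infinite) :
    ∃ (ρ : MvPolynomial (Fin 3) K) (t : ℕ), ρ.IsHomogeneous t ∧ Irreducible ρ ∧ ρ ∣ P ∧
      {n | eval (x n) ρ = 0}.Infinite := by
  induction e using Nat.strong_induction_on generalizing P with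
  | _ e ih =>
    by_cases hirr : Irreducible P
    · exact ⟨P, e, hP, hirr, dvd_rfl, hinf⟩
    have hnu : ¬ IsUnit P := by
      intro h
      obtain ⟨n, hn⟩ := hinf.nonempty
      have hn' : eval (x n) P = 0 := hn
      have := h.map (eval (x n))
      rw [hn'] at this
      exact not_isUnit_zero this
    rw [irreducible_iff] at hirr
    push Not at hirr
    obtain ⟨a, b, hab, ha, hb⟩ := hirr hnu
    obtain ⟨i, j, hai, hbj, hij⟩ := form_of_mul hP hP0 hab
    have ha0 : a ≠ 0 := fun h => hP0 (by rw [hab, h, zero_mul])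
    have hb0 : b ≠ 0 := fun h => hP0 (by rw [hab, h, mul_zero])
    have hunit : ∀ (c : MvPolynomial (Fin 3) K), c.IsHomogeneous 0 → c ≠ 0 → IsUnit c := by
      intro c hc hc0
      have h1 := totalDegree_eq_zero_iff_eq_C.1 (Nat.le_zero.1 hc.totalDegree_le)
      rw [h1]
      exact (Ne.isUnit fun h => hc0 (by rw [h1, h, C_0])).map C
    have hi : i ≠ 0 := fun h => ha (hunit a (h ▸ hai) ha0)
    have hj : j ≠ 0 := fun h => hb (hunit b (h ▸ hbj) hb0)
    have hsub : {n | eval (x n) P = 0} ⊆ {n | eval (x n) a = 0} ∪ {n | eval (x n) b = 0} := by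
      intro n hn
      have hn' : eval (x n) P = 0 := hn
      rw [hab, map_mul, mul_eq_zero] at hn'
      exact hn'
    rcases Set.infinite_union.1 (hinf.mono hsub) with h | h
    · obtain ⟨ρ, t, h1, h2, h3, h4⟩ := ih i (by omega) hai ha0 h
      exact ⟨ρ, t, h1, h2, h3.trans (by rw [hab]; exact dvd_mul_right _ _), h4⟩
    · obtain ⟨ρ, t, h1, h2, h3, h4⟩ := ih j (by omega) hbj hb0 h
      exact ⟨ρ, t, h1, h2, h3.trans (by rw [hab]; exact dvd_mul_left _ _), h4⟩

/-- Pigeonhole modulo `N`. -/
theorem exists_class {p : ℕ → Prop} {i N : ℕ} (hN : 0 < N) (hinf : {l | i ≤ l ∧ p l}.Infinite) :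
    ∃ c, i ≤ c ∧ c < i + N ∧ {a | p (c + N * a)}.Infinite := by
  by_contra hcon
  push Not at hcon
  apply hinf
  have h1 : {l | i ≤ l ∧ p l} ⊆ ⋃ c ∈ Finset.Ico i (i + N),
      (fun a => c + N * a) '' {a | p (c + N * a)} := by
    rintro l ⟨hl, hpl⟩
    rw [Set.mem_iUnion₂]
    refine ⟨i + (l - i) % N, ?_, (l - i) / N, ?_, ?_⟩
    · rw [Finset.mem_Ico]
      have := Nat.mod_lt (l - i) hN
      omega
    · have h2 : i + (l - i) % N + N * ((l - i) / N) = l := by
        have := Nat.mod_add_div (l - i) N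
        omega
      show p _
      rw [h2]
      exact hpl
    · show i + (l - i) % N + N * ((l - i) / N) = l
      have := Nat.mod_add_div (l - i) N
      omega
  refine (Set.Finite.biUnion (Finset.finite_toSet _) fun c hc => ?_).subset h1
  rw [Finset.mem_coe, Finset.mem_Ico] at hc
  exact (hcon c hc.1 hc.2).image _

theorem red_peq {k : Type} [Field k] [Algebra k K] {b : Place k K} {y : Fin 3 → K}
    {z w : Fin 3 → k} (h : Red b y z) (hzw : PEq z w) : Red b y w := by
  obtain ⟨hz, c, hc, h1⟩ := h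
  obtain ⟨s, hs, rfl⟩ := hzw
  refine ⟨smul_ne_zero hs hz, algebraMap k K s * c,
    mul_ne_zero ((map_ne_zero _).2 hs) hc, fun i => ?_⟩
  have h2 : algebraMap k K s * c * y i - algebraMap k K ((s • z) i) =
      algebraMap k K s * (c * y i - algebraMap k K (z i)) := by
    rw [Pi.smul_apply, smul_eq_mul, map_mul]
    ring
  rw [h2, map_mul, Star_val_unit b hs, one_mul]
  exact h1 i

theorem peq_iter {k : Type} [Field k] {d : ℕ} {f : Fin 3 → MvPolynomial (Fin 3) k}
    (hf : ∀ i, (f i).IsHomogeneous d) {z w : Fin 3 → k} (h : PEq z w) (n : ℕ) :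
    PEq (iter f z n) (iter f w n) :=
  Pool.Agent.Helper36.PEq.iter hf h n

/-- The points of a cycle. -/
theorem peq_cycle {k : Type} [Field k] {d : ℕ} {f : Fin 3 → MvPolynomial (Fin 3) k}
    (hf : ∀ i, (f i).IsHomogeneous d) {z : Fin 3 → k} {i N c : ℕ} (hic : i ≤ c)
    (h : PEq (iter f z i) (iter f z (i + N))) (a : ℕ) :
    PEq (iter f z c) (iter f z (c + N * a)) := by
  have h1 : ∀ c, i ≤ c → PEq (iter f z c) (iter f z (c + N)) := by
    intro c hc
    obtain ⟨r, rfl⟩ := Nat.exists_eq_add_of_le hc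
    have h2 := peq_iter hf h r
    rw [← iter_add, ← iter_add] at h2
    rw [show i + r = r + i by omega, show r + i + N = r + (i + N) by omega]
    exact h2
  induction a with
  | zero => exact PEq.refl _
  | succ a ih =>
    have h3 := h1 (c + N * a) (by omega)
    rw [show c + N * (a + 1) = c + N * a + N by ring]
    exact ih.trans h3

end aux

variable {k K : Type} [Field k] [IsAlgClosed k] [CharZero k] [Field K] [Algebra k K] [Algebra K ℂ]

/-- If the derivatives of the iterates do not collapse along the orbit and if the critical curve is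
met infinitely often, then it is met along an arithmetic progression. -/
theorem crit_progression (hK : IsFunctionField k K) {d : ℕ} {F : Fin 3 → MvPolynomial (Fin 3) K}
    (hF : IsEndo d fun i => map (algebraMap K ℂ) (F i)) {x : Fin 3 → K} (hx : x ≠ 0)
    (hunb : ∀ B : ℤ, ∃ n, B < ht k (iter F x n))
    (hinf : {n | eval (iter F x n) (jf F) = 0}.Infinite) {m : ℕ}
    (hadj : ∀ n, (mult F (iter F x m) n).adjugate ≠ 0) :
    ∃ n₀ N : ℕ, 0 < N ∧ ∀ a, eval (iter F x (n₀ + N * a)) (jf F) = 0 := by
  classical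
  have hhom := fun i => homog_of_endo hF i
  by_cases hJ0 : jf F = 0
  · exact ⟨0, 1, one_pos, fun a => by rw [hJ0, map_zero]⟩
  obtain ⟨h, D, hh, hirr, hdvd, hinf1⟩ := exists_factor (iter F x) (jf_hom hhom) hJ0 hinf
  have hx0 : ∀ n, iter F x n ≠ 0 := fun n => iter_ne_zeroK hF hx n
  have hdist := distinct_of_unbounded hK hF hx hunb
  -- the derivatives at later times
  have hadj1 : ∀ m' : ℕ, m ≤ m' → ∀ n, (mult F (iter F x m') n).adjugate ≠ 0 := by
    intro m' hm' n h0
    obtain ⟨r, rfl⟩ := Nat.exists_eq_add_of_le hm'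
    apply hadj (r + n)
    rw [mult_add, Matrix.adjugate_mul_distrib, ← iter_add, show r + m = m + r by omega, h0,
      mul_zero]
  have hadj2 : ∀ l, m ≤ l → (jac F (iter F x l)).adjugate ≠ 0 := by
    intro l hl h0
    apply hadj1 l hl 1
    have : mult F (iter F x l) 1 = jac F (iter F x l) := by
      show jac F (iter F (iter F x l) 0) * 1 = _
      rw [iter_zero, mul_one]
    rw [this, h0]
  -- transversality
  obtain ⟨l₀, hl₀, hml₀⟩ := hinf1.exists_gt m
  obtain ⟨j, hj⟩ := exists_rf_not_dvd hF hirr hdvd hl₀ (hadj2 l₀ hml₀.le)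
  have hfin := finite_common_zeros hh (rf_hom hhom hh j) hirr hj (iter F x) hx0
    (fun i i' hne => hdist i i' hne)
  obtain ⟨m₁, hm₁⟩ := hfin.bddAbove
  set m₂ := max m (m₁ + 1) with hm₂
  have hR : ∀ l, m₂ ≤ l → eval (iter F x l) h = 0 → eval (iter F x l) (rf F h j) ≠ 0 := by
    intro l hl h1 h2
    have h3 : l ≤ m₁ := hm₁ ⟨h1, h2⟩
    omega
  have hinf2 : {l | m₂ ≤ l ∧ eval (iter F x l) h = 0}.Infinite := by
    have h1 : {l | m₂ ≤ l ∧ eval (iter F x l) h = 0} =
        {n | eval (iter F x n) h = 0} \ {n | n < m₂} := by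
      ext l
      simp only [Set.mem_ofPred_eq, Set.mem_sdiff, not_lt]
      exact and_comm
    rw [h1]
    exact hinf1.sdiff (Set.finite_lt_nat m₂)
  obtain ⟨i, n, b, f, z, g, hmi, hin, hih, -, hgood, hgh, hred, hper, hcl1, hcl2, hadjz⟩ :=
    exists_place hK hF hx hunb hh hirr hinf2 hR (hadj1 m₂ (le_max_left _ _))
  have hfh : ∀ i, (f i).IsHomogeneous d := hgood.endo.hom
  have hd1 : 1 ≤ d := by
    have := hF.two_le
    omega
  obtain ⟨N, rfl⟩ := Nat.exists_eq_add_of_lt hin
  have hN : 0 < N + 1 := Nat.succ_pos N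
  rw [add_assoc] at hper hcl1 hcl2 hadjz
  have hreds : ∀ l, Red b (iter F x l) (iter f z l) := fun l => hgood.iter hhom hred l
  -- values of specialised forms
  have hval : ∀ {P : MvPolynomial (Fin 3) K} {p : MvPolynomial (Fin 3) k} {t : ℕ},
      P.IsHomogeneous t → RedP b P p → ∀ l, eval (iter F x l) P = 0 → eval (iter f z l) p = 0 := by
    intro P p t hP hPp l hl
    obtain ⟨-, c, -, hc⟩ := hreds l
    have h1 := hPp.eval (u := c • iter F x l) (z := iter f z l) hc
    rw [eval_smul_hom hP, hl, mul_zero, zero_sub, Valuation.map_neg] at h1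
    by_contra h2
    rw [Star_val_unit b h2] at h1
    exact lt_irrefl _ h1
  -- the class
  have hinf3 : {l | i ≤ l ∧ eval (iter F x l) h = 0}.Infinite := by
    have h1 : {l | i ≤ l ∧ eval (iter F x l) h = 0} =
        {n | eval (iter F x n) h = 0} \ {n | n < i} := by
      ext l
      simp only [Set.mem_ofPred_eq, Set.mem_sdiff, not_lt]
      exact and_comm
    rw [h1]
    exact hinf1.sdiff (Set.finite_lt_nat i)
  obtain ⟨c, hic, hcN, hcinf⟩ := exists_class (p := fun l => eval (iter F x l) h = 0) hN hinf3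
  have hcyc : ∀ a, PEq (iter f z c) (iter f z (c + (N + 1) * a)) := peq_cycle hfh hic hper
  set w := iter f z c with hw
  have hw0 : w ≠ 0 := (hreds c).1
  have hgw : eval w g = 0 := by
    obtain ⟨a, ha⟩ := hcinf.nonempty
    have h1 : eval (iter f z (c + (N + 1) * a)) g = 0 := hval hh hgh _ ha
    have hghom : g.IsHomogeneous D := by
      intro mm hmm
      by_contra hne
      apply hmm
      have h2 := hgh mm
      have h3 : h.coeff mm = 0 := by
        by_contra h4
        exact hne (hh h4)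
      rw [h3, zero_sub, Valuation.map_neg] at h2
      by_contra h5
      rw [Star_val_unit b h5] at h2
      exact lt_irrefl _ h2
    obtain ⟨s, hs, h2⟩ := hcyc a
    rw [h2, eval_smul_hom hghom] at h1
    exact (mul_eq_zero.1 h1).resolve_left (pow_ne_zero _ hs)
  have hch : eval (iter F x c) h = 0 := by
    by_contra h1
    exact hcl1 c (by omega) (by omega) h1 hgw
  have hRw : eval w (rf f g j) ≠ 0 := hcl2 c (by omega) (by omega) hch
  have hJw : eval w (jf f) = 0 := by
    refine hval (jf_hom hhom) (redP_jf hgood.red) c ?_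
    obtain ⟨q, hq⟩ := hdvd
    rw [hq, map_mul, hch, zero_mul]
  have hJi : eval (iter f z i) (jf f) = 0 := by
    refine hval (jf_hom hhom) (redP_jf hgood.red) i ?_
    obtain ⟨q, hq⟩ := hdvd
    rw [hq, map_mul, hih, zero_mul]
  have htr : (mult f w (N + 1)).adjugate.trace ≠ 0 := by
    have h1 := trace_ne_zero hfh (m := m₂) (i := i) (n := i + (N + 1)) (c := c) hmi hic hcN hper
      hJi hadjz
    rwa [Nat.add_sub_cancel_left] at h1
  -- the period
  obtain ⟨γ, hγ, hγw⟩ : ∃ γ : k, γ ≠ 0 ∧ iter f w (N + 1) = γ • w := by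
    obtain ⟨s, hs, h1⟩ := hcyc 1
    refine ⟨s, hs, ?_⟩
    rw [hw, ← iter_add, ← hw]
    rw [mul_one] at h1
    rw [add_comm (N + 1) c]
    exact h1
  obtain ⟨q, γ', hq, hγ', hper', htr', hμ⟩ := exists_period hd1 hfh hN hγ hγw hJw htr
  obtain ⟨e, μ, α, he0, hdet, hμ0, hμtr, he1, he2, hgt⟩ :=
    normal_form hd1 hfh hw0 (Nat.mul_pos hN hq) hγ' hper' hJw htr' hRw
  obtain ⟨r, -, -, hrinf⟩ := exists_class (p := fun a => eval (iter F x (c + (N + 1) * a)) h = 0)
    (i := 0) hq (by simpa using hcinf)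
  have hstar : h ∣ (cmp F)^[(N + 1) * q] h := by
    rw [← he0] at hper' he1 he2 hgt
    refine local_K hK hhom hh hirr hgood hgh
      (y := fun a => iter F x (c + (N + 1) * (r + q * a))) ?_ ?_ ?_ hdet hγ' hper' hμ0
      (hμ μ hμtr) he1 he2 hgt hrinf
    · intro a
      show iter F x _ = iter F (iter F x _) _
      rw [← iter_add]
      congr 1
      ring
    · intro a a' hne
      apply hdist
      intro h1
      apply hne
      have h2 : (N + 1) * (r + q * a) = (N + 1) * (r + q * a') := by omega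
      have h3 := Nat.eq_of_mul_eq_mul_left hN h2
      have h4 : q * a = q * a' := by omega
      exact Nat.eq_of_mul_eq_mul_left hq h4
    · intro a
      rw [he0]
      exact red_peq (hreds _) (hcyc _).symm
  -- the progression
  refine ⟨c, (N + 1) * q, Nat.mul_pos hN hq, fun a => ?_⟩
  have hall : eval (iter F x (c + (N + 1) * q * a)) h = 0 := by
    induction a with
    | zero => simpa using hch
    | succ a ih =>
      obtain ⟨Q, hQ⟩ := hstar
      have h1 := congrArg (eval (iter F x (c + (N + 1) * q * a))) hQ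
      rw [map_mul, ih, zero_mul, eval_cmp_iter, ← iter_add] at h1
      rw [show c + (N + 1) * q * (a + 1) = (N + 1) * q + (c + (N + 1) * q * a) by ring]
      exact h1
  obtain ⟨q', hq'⟩ := hdvd
  rw [hq', map_mul, hall, zero_mul]

end Pool.Agent.Helper63.TS
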