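import Pool.Agent.Helper63.TS.Defs

/-!
# Separation of the points of the orbit
-/

set_option autoImplicit false

namespace Pool.Agent.Helper63.TS

open MvPolynomial

variable {R : Type} [CommRing R] [IsDomain R]

theorem separation {π : R} (hπ : Unif π) {p : ℕ → Fin 2 → R} (hinj : Function.Injective p)
    {μ : R} (hμ0 : ¬ π ∣ μ) (hμ : ∀ t, 1 ≤ t → ¬ π ∣ ∑ i ∈ Finset.range t, μ ^ i)
    (hc : Contr π μ p) {s s' : ℕ} (hs : s < s')
    (hdom : ∃ r, p s' 1 - p s 1 = r * (p s' 0 - p s 0)) :
    ∃ (j₀ e : ℕ) (ξ : ℕ → Fin 2 → R), (∀ t i, p (j₀ + t) i = p j₀ i + π ^ e * ξ t i) ∧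
      ∀ t t', t ≠ t' → ¬ π ∣ ξ t 0 - ξ t' 0 := by
  have hprime : Prime π := hπ.prime
  have hπ0 : π ≠ 0 := hprime.ne_zero
  -- the differences of consecutive points
  have hrec : ∀ j, ∃ r q r' q' : R,
      p (j + 1 + 1) 0 - p (j + 1) 0
        = (μ + π * r) * (p (j + 1) 0 - p j 0) + π * q * (p (j + 1) 1 - p j 1) ∧
      p (j + 1 + 1) 1 - p (j + 1) 1
        = π * r' * (p (j + 1) 0 - p j 0) + π * q' * (p (j + 1) 1 - p j 1) := fun j => hc (j + 1) j
  -- the first difference is dominated by its first coordinate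
  have hXD : ∃ (e : ℕ) (a c : R), p (s + 1) 0 - p s 0 = π ^ e * a ∧
      p (s + 1) 1 - p s 1 = π ^ e * c ∧ ¬ π ∣ a := by
    by_contra hno
    have key : ∃ (e : ℕ) (a c : R), p (s + 1) 0 - p s 0 = π ^ (e + 1) * a ∧
        p (s + 1) 1 - p s 1 = π ^ e * c ∧ ¬ π ∣ c := by
      by_cases h1 : p (s + 1) 1 - p s 1 = 0
      · exfalso
        have h0 : p (s + 1) 0 - p s 0 ≠ 0 := by
          intro h0
          have : p (s + 1) = p s := by
            funext i
            fin_cases i
            · exact sub_eq_zero.mp h0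
            · exact sub_eq_zero.mp h1
          have := hinj this
          omega
        obtain ⟨e, a, ha, hea⟩ := hπ.fact _ h0
        exact hno ⟨e, a, 0, hea, by rw [h1, mul_zero], ha⟩
      · obtain ⟨e, c, hcc, hec⟩ := hπ.fact _ h1
        by_cases h0 : π ^ (e + 1) ∣ p (s + 1) 0 - p s 0
        · obtain ⟨a, ha⟩ := h0
          exact ⟨e, a, c, ha, hec, hcc⟩
        · exfalso
          have h00 : p (s + 1) 0 - p s 0 ≠ 0 := by
            intro h
            exact h0 (h ▸ dvd_zero _)
          obtain ⟨e', a, ha, hea⟩ := hπ.fact _ h00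
          have hle : e' ≤ e := by
            by_contra hlt
            apply h0
            rw [hea]
            exact (pow_dvd_pow π (by omega)).mul_right a
          refine hno ⟨e', a, π ^ (e - e') * c, hea, ?_, ha⟩
          rw [hec, ← mul_assoc, ← pow_add]
          congr 2
          omega
    obtain ⟨e, a, c, ha, hcc, hndvd⟩ := key
    -- all later differences are divisible by `π ^ (e + 1)`
    have hlater : ∀ n, π ^ (e + 1) ∣ p (s + 1 + n + 1) 0 - p (s + 1 + n) 0 ∧
        π ^ (e + 1) ∣ p (s + 1 + n + 1) 1 - p (s + 1 + n) 1 := by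
      intro n
      induction n with
      | zero =>
        obtain ⟨r, q, r', q', h1, h2⟩ := hrec s
        rw [ha, hcc] at h1 h2
        simp only [add_zero]
        constructor
        · exact ⟨(μ + π * r) * a + q * c, by rw [h1]; ring⟩
        · exact ⟨π * r' * a + q' * c, by rw [h2]; ring⟩
      | succ n ih =>
        obtain ⟨r, q, r', q', h1, h2⟩ := hrec (s + 1 + n)
        obtain ⟨⟨x, hx⟩, ⟨y, hy⟩⟩ := ih
        rw [hx, hy] at h1 h2
        constructor
        · exact ⟨(μ + π * r) * x + π * q * y, by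
            rw [show s + 1 + (n + 1) = s + 1 + n + 1 from rfl, h1]; ring⟩
        · exact ⟨π * r' * x + π * q' * y, by
            rw [show s + 1 + (n + 1) = s + 1 + n + 1 from rfl, h2]; ring⟩
    have hsum : ∀ n, ∀ i, π ^ (e + 1) ∣ p (s + 1 + n) i - p (s + 1) i := by
      intro n i
      induction n with
      | zero => simp
      | succ n ih =>
        have h := hlater n
        have h' : π ^ (e + 1) ∣ p (s + 1 + n + 1) i - p (s + 1 + n) i := by
          fin_cases i
          · exact h.1
          · exact h.2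
        have := dvd_add h' ih
        rw [sub_add_sub_cancel] at this
        exact this
    obtain ⟨n, rfl⟩ : ∃ n, s' = s + 1 + n := ⟨s' - (s + 1), by omega⟩
    obtain ⟨r, hr⟩ := hdom
    obtain ⟨x, hx⟩ := hsum n 0
    obtain ⟨y, hy⟩ := hsum n 1
    have e0 : p (s + 1 + n) 0 - p s 0 = π ^ (e + 1) * (x + a) := by
      have : p (s + 1 + n) 0 - p s 0 = (p (s + 1 + n) 0 - p (s + 1) 0) + (p (s + 1) 0 - p s 0) := by
        ring
      rw [this, hx, ha]; ring
    have e1 : p (s + 1 + n) 1 - p s 1 = π ^ e * (π * y + c) := by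
      have : p (s + 1 + n) 1 - p s 1 = (p (s + 1 + n) 1 - p (s + 1) 1) + (p (s + 1) 1 - p s 1) := by
        ring
      rw [this, hy, hcc]; ring
    rw [e0, e1] at hr
    have hr' : π ^ e * (π * y + c) = π ^ e * (π * (r * (x + a))) := by rw [hr]; ring
    have := mul_left_cancel₀ (pow_ne_zero e hπ0) hr'
    exact hndvd ⟨r * (x + a) - y, by linear_combination this⟩
  obtain ⟨e, a, c, ha, hcc, hndvd⟩ := hXD
  have H : ∀ t, ∃ v : Fin 2 → R, (∀ i, p (s + t + 1) i - p (s + t) i = π ^ e * v i) ∧
      ¬ π ∣ v 0 := by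
    intro t
    induction t with
    | zero =>
      refine ⟨![a, c], ?_, by simpa using hndvd⟩
      intro i
      fin_cases i
      · simpa using ha
      · simpa using hcc
    | succ t ih =>
      obtain ⟨v, hv, hv0⟩ := ih
      obtain ⟨r, q, r', q', h1, h2⟩ := hrec (s + t)
      rw [hv 0, hv 1] at h1 h2
      refine ⟨![(μ + π * r) * v 0 + π * q * v 1, π * r' * v 0 + π * q' * v 1], ?_, ?_⟩
      · intro i
        fin_cases i
        · change p (s + t + 1 + 1) 0 - p (s + t + 1) 0 = _
          rw [h1]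
          simp only [Fin.zero_eta, Matrix.cons_val_zero]
          ring
        · change p (s + t + 1 + 1) 1 - p (s + t + 1) 1 = _
          rw [h2]
          simp only [Fin.mk_one, Matrix.cons_val_one, Matrix.cons_val_fin_one]
          ring
      · simp only [Matrix.cons_val_zero]
        intro hd
        have h3 : π ∣ μ * v 0 := by
          obtain ⟨w, hw⟩ := hd
          exact ⟨w - r * v 0 - q * v 1, by linear_combination hw⟩
        rcases hprime.dvd_or_dvd h3 with h | h
        · exact hμ0 h
        · exact hv0 h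
  choose v hv hv0 using H
  have hstep : ∀ t, π ∣ v (t + 1) 0 - μ * v t 0 := by
    intro t
    obtain ⟨r, q, r', q', h1, h2⟩ := hrec (s + t)
    have h3 := hv (t + 1) 0
    rw [hv t 0, hv t 1] at h1
    rw [show s + (t + 1) + 1 = s + t + 1 + 1 from rfl, show s + (t + 1) = s + t + 1 from rfl,
      h1] at h3
    have h4 : π ^ e * v (t + 1) 0 = π ^ e * ((μ + π * r) * v t 0 + π * q * v t 1) := by
      rw [← h3]; ring
    have h5 := mul_left_cancel₀ (pow_ne_zero e hπ0) h4
    exact ⟨r * v t 0 + q * v t 1, by rw [h5]; ring⟩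
  have hpow : ∀ t n, π ∣ v (t + n) 0 - μ ^ n * v t 0 := by
    intro t n
    induction n with
    | zero => simp
    | succ n ih =>
      obtain ⟨x, hx⟩ := ih
      obtain ⟨y, hy⟩ := hstep (t + n)
      refine ⟨y + μ * x, ?_⟩
      rw [show t + (n + 1) = t + n + 1 from rfl, pow_succ]
      linear_combination hy + μ * hx
  have hsumv : ∀ t n, π ∣ ∑ i ∈ Finset.range n, v (t + i) 0
      - (∑ i ∈ Finset.range n, μ ^ i) * v t 0 := by
    intro t n
    rw [Finset.sum_mul, ← Finset.sum_sub_distrib]
    exact Finset.dvd_sum fun i _ => hpow t i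
  have hlt : ∀ t t', t < t' → ¬ π ∣ ∑ j ∈ Finset.range t', v j 0 - ∑ j ∈ Finset.range t, v j 0 := by
    intro t t' htt hd
    obtain ⟨n, rfl⟩ : ∃ n, t' = t + n := ⟨t' - t, by omega⟩
    rw [Finset.sum_range_add, add_sub_cancel_left] at hd
    have h1 := dvd_sub hd (hsumv t n)
    rw [sub_sub_cancel] at h1
    rcases hprime.dvd_or_dvd h1 with h | h
    · exact hμ n (by omega) h
    · exact hv0 t h
  refine ⟨s, e, fun t i => ∑ j ∈ Finset.range t, v j i, ?_, ?_⟩
  · intro t i
    induction t with
    | zero => simp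
    | succ t ih =>
      have h := hv t i
      simp only at ih ⊢
      rw [ih] at h
      rw [Finset.sum_range_succ, mul_add]
      rw [show s + (t + 1) = s + t + 1 from rfl]
      linear_combination h
  · intro t t' hne hd
    rcases lt_or_gt_of_ne hne with h | h
    · refine hlt t t' h ?_
      have := (dvd_neg (α := R)).mpr hd
      rwa [neg_sub] at this
    · exact hlt t' t h hd

end Pool.Agent.Helper63.TS
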