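import Pool.Agent.Helper63.TS.Defs

/-!
# Straightening
-/

set_option autoImplicit false

namespace Pool.Agent.Helper63.TS

open MvPolynomial

variable {R : Type} [CommRing R]

/-- Congruent points have congruent values. -/
private theorem sadB_eval_congr {n : R} {u v : Fin 2 → R} (h : ∀ i, n ∣ u i - v i)
    (P : MvPolynomial (Fin 2) R) : n ∣ eval u P - eval v P := by
  induction P using MvPolynomial.induction_on with
  | C a => simp
  | add p q hp hq =>
    rw [map_add, map_add, add_sub_add_comm]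
    exact dvd_add hp hq
  | mul_X p i hp =>
    rw [map_mul, map_mul, eval_X, eval_X]
    have h1 : eval u p * u i - eval v p * v i =
        (eval u p - eval v p) * u i + eval v p * (u i - v i) := by ring
    rw [h1]
    exact dvd_add (Dvd.dvd.mul_right hp _) (Dvd.dvd.mul_left (h i) _)

/-- The substitution of a polynomial for the second variable. -/
private theorem sadB_eval_sub (q₃ : Polynomial R) (P : MvPolynomial (Fin 2) R) (x : R) :
    Polynomial.eval x (aeval (![Polynomial.X, q₃] : Fin 2 → Polynomial R) P) =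
      eval ![x, q₃.eval x] P := by
  induction P using MvPolynomial.induction_on with
  | C a => simp
  | add p q hp hq => rw [map_add, map_add, Polynomial.eval_add, hp, hq]
  | mul_X p i hp =>
    rw [map_mul, map_mul, Polynomial.eval_mul, hp, aeval_X, eval_X]
    congr 1
    fin_cases i
    · simp
    · simp

theorem straight {π μ : R} (hμ : IsUnit μ) {ξ : ℕ → Fin 2 → R} (hξ : Recu π μ ξ) (I : ℕ)
    (P : MvPolynomial (Fin 2) R) :
    ∃ (q : Polynomial R) (T : ℕ), ∀ t, T ≤ t → π ^ I ∣ eval (ξ t) P - q.eval (ξ t 0) := by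
  obtain ⟨c, hc⟩ := hξ
  obtain ⟨ν, hν⟩ := hμ.exists_left_inv
  induction I generalizing P with
  | zero => exact ⟨0, 0, fun t _ => by simp⟩
  | succ I ih =>
    obtain ⟨P₁, P₂, hP⟩ := hc (I + 1)
    obtain ⟨q₁, T₁, h₁⟩ := ih P₁
    obtain ⟨q₂, T₂, h₂⟩ := ih P₂
    -- the first coordinate as a function of the next first coordinate
    have key : ∀ r, r ≤ I + 1 → ∃ s : Polynomial R, ∀ t, max T₁ T₂ ≤ t →
        π ^ r ∣ ξ t 0 - s.eval (ξ (t + 1) 0) := by
      intro r
      induction r with
      | zero => intro _; exact ⟨0, fun t _ => by simp⟩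
      | succ r ihr =>
        intro hr
        obtain ⟨s, hs⟩ := ihr (by omega)
        refine ⟨Polynomial.C ν * (Polynomial.X - Polynomial.C (c 0)) -
          Polynomial.C (ν * π) * q₁.comp s, fun t ht => ?_⟩
        obtain ⟨a, ha⟩ := (hP t).1
        obtain ⟨b, hb⟩ := h₁ t (le_trans (le_max_left _ _) ht)
        obtain ⟨e, he⟩ := dvd_trans (hs t ht) (Polynomial.sub_dvd_eval_sub _ _ q₁)
        obtain ⟨m, hm⟩ : ∃ m, I + 1 = (r + 1) + m := ⟨I - r, by omega⟩
        have ha' : ξ (t + 1) 0 - (c 0 + μ * ξ t 0 + π * eval (ξ t) P₁) =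
            π ^ (r + 1) * (π ^ m * a) := by
          rw [ha, hm, pow_add]; ring
        have hb' : π * (eval (ξ t) P₁ - q₁.eval (ξ t 0)) = π ^ (r + 1) * (π ^ m * b) := by
          rw [hb]
          have : π * (π ^ I * b) = π ^ (I + 1) * b := by ring
          rw [this, hm, pow_add]; ring
        have he' : π * (q₁.eval (ξ t 0) - q₁.eval (s.eval (ξ (t + 1) 0))) = π ^ (r + 1) * e := by
          rw [he]; ring
        refine ⟨-ν * (π ^ m * a) - ν * (π ^ m * b) - ν * e, ?_⟩
        simp only [Polynomial.eval_sub, Polynomial.eval_mul, Polynomial.eval_C,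
          Polynomial.eval_X, Polynomial.eval_comp]
        linear_combination (-ν) * ha' + (-ν) * hb' + (-ν) * he' - ξ t 0 * hν
    obtain ⟨s, hs⟩ := key I (by omega)
    -- the second coordinate
    set q₃ : Polynomial R := Polynomial.C (c 1) + Polynomial.C π * q₂.comp s with hq₃
    have h3 : ∀ t, max T₁ T₂ ≤ t → π ^ (I + 1) ∣ ξ (t + 1) 1 - q₃.eval (ξ (t + 1) 0) := by
      intro t ht
      obtain ⟨a, ha⟩ := (hP t).2
      obtain ⟨b, hb⟩ := h₂ t (le_trans (le_max_right _ _) ht)
      obtain ⟨e, he⟩ := dvd_trans (hs t ht) (Polynomial.sub_dvd_eval_sub _ _ q₂)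
      refine ⟨a + b + e, ?_⟩
      simp only [hq₃, Polynomial.eval_add, Polynomial.eval_mul, Polynomial.eval_C,
        Polynomial.eval_comp]
      linear_combination ha + π * hb + π * he
    refine ⟨aeval (![Polynomial.X, q₃] : Fin 2 → Polynomial R) P, max T₁ T₂ + 1,
      fun t ht => ?_⟩
    obtain ⟨t', rfl⟩ : ∃ t', t = t' + 1 := ⟨t - 1, by omega⟩
    rw [sadB_eval_sub]
    refine sadB_eval_congr (fun i => ?_) P
    fin_cases i
    · simp
    · simpa using h3 t' (by omega)

theorem poly_dvd [IsDomain R] {π : R} (hπ : Prime π) {ξ : ℕ → R}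
    (hξ : ∀ t t', t ≠ t' → ¬ π ∣ ξ t - ξ t') {I : ℕ} {q : Polynomial R}
    (hinf : {t | π ^ I ∣ q.eval (ξ t)}.Infinite) : Polynomial.C (π ^ I) ∣ q := by
  induction I generalizing q with
  | zero => simp
  | succ I ih =>
    have hprime : (Ideal.span {π}).IsPrime := (Ideal.span_singleton_prime hπ.ne_zero).2 hπ
    have hdom : IsDomain (R ⧸ Ideal.span {π}) := Ideal.Quotient.isDomain _
    let φ : R →+* R ⧸ Ideal.span {π} := Ideal.Quotient.mk _
    have hφ : ∀ x, φ x = 0 ↔ π ∣ x := fun x => by
      rw [← Ideal.mem_span_singleton]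
      exact Ideal.Quotient.eq_zero_iff_mem
    have hq0 : q.map φ = 0 := by
      refine Polynomial.eq_zero_of_infinite_isRoot _ ?_
      have himg : ((fun t => φ (ξ t)) '' {t | π ^ (I + 1) ∣ q.eval (ξ t)}).Infinite := by
        refine hinf.image ?_
        intro t _ t' _ htt
        by_contra hne
        refine hξ t t' hne ((hφ _).1 ?_)
        rw [map_sub, sub_eq_zero]
        exact htt
      refine himg.mono ?_
      rintro _ ⟨t, ht, rfl⟩
      change (q.map φ).IsRoot (φ (ξ t))
      rw [Polynomial.IsRoot.def, Polynomial.eval_map_apply]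
      exact (hφ _).2 (dvd_trans (dvd_pow_self π (Nat.succ_ne_zero I)) ht)
    have hdvd : Polynomial.C π ∣ q := by
      rw [Polynomial.C_dvd_iff_dvd_coeff]
      intro i
      rw [← hφ, ← Polynomial.coeff_map, hq0, Polynomial.coeff_zero]
    obtain ⟨q', rfl⟩ := hdvd
    have h1 : Polynomial.C (π ^ I) ∣ q' := by
      refine ih (hinf.mono ?_)
      intro t ht
      have ht' : π ^ (I + 1) ∣ (Polynomial.C π * q').eval (ξ t) := ht
      rw [Polynomial.eval_mul, Polynomial.eval_C, pow_succ'] at ht'
      exact (mul_dvd_mul_iff_left hπ.ne_zero).1 ht'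
    obtain ⟨q'', rfl⟩ := h1
    refine ⟨q'', ?_⟩
    rw [pow_succ', Polynomial.C_mul]
    ring

end Pool.Agent.Helper63.TS
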