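import Pool.Agent.Helper63.TS.SadT

/-!
# The recursion
-/

set_option autoImplicit false

namespace Pool.Agent.Helper63.TS

open MvPolynomial

variable {R : Type} [CommRing R]

private theorem sadr_geo (π lam : R) (W G : MvPolynomial (Fin 2) R) (I : ℕ) :
    ∃ P : MvPolynomial (Fin 2) R, ∀ (u : Fin 2 → R) (y : R),
      y * (1 - π * eval u W) = lam * u 0 + π * eval u G →
        π ^ I ∣ y - (lam * u 0 + π * eval u P) := by
  induction I with
  | zero => exact ⟨0, fun u y _ => by simp⟩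
  | succ I ih =>
    obtain ⟨P, hP⟩ := ih
    refine ⟨G + W * (C lam * X 0 + C π * P), fun u y h => ?_⟩
    obtain ⟨z, hz⟩ := hP u y h
    refine ⟨eval u W * z, ?_⟩
    simp only [map_add, map_mul, eval_C, eval_X]
    linear_combination h + π * eval u W * hz

private theorem sadr_coord [IsDomain R] {π ω lam : R} (hπ0 : π ≠ 0) {v : Fin 2 → R}
    (hv : ∀ i, π ∣ v i) {e : ℕ} (he : 1 ≤ e) (B N : MvPolynomial (Fin 2) R)
    (hω : ω * B.coeff 0 ^ 2 = 1) (hN : π ∣ N.coeff 0) (hx : π ∣ cX N - lam * B.coeff 0)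
    (hy : π ∣ cY N) (I : ℕ) :
    ∃ P : MvPolynomial (Fin 2) R, ∀ (u : Fin 2 → R) (y c : R), c * eval v B = eval v N →
      (c + π ^ e * y) * eval (fun i => v i + π ^ e * u i) B =
        eval (fun i => v i + π ^ e * u i) N →
      π ^ I ∣ y - (lam * u 0 + π * eval u P) := by
  obtain ⟨QB, hQB⟩ := taylor_pol B hv he
  obtain ⟨QN, hQN⟩ := taylor_pol N hv he
  obtain ⟨m, hm⟩ := eval_mod B hv
  obtain ⟨n₁, hn₁⟩ := eval_mod N hv
  obtain ⟨n₂, hn₂⟩ := hN
  obtain ⟨x, hx⟩ := hx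
  obtain ⟨y₁, hy⟩ := hy
  obtain ⟨e', rfl⟩ : ∃ e', e = e' + 1 := ⟨e - 1, by omega⟩
  set b₀ := B.coeff 0 with hb₀
  have hb : eval v B = b₀ + π * m := by linear_combination hm
  have hn : eval v N = π * (n₁ + n₂) := by linear_combination hn₁ + hn₂
  set TB : MvPolynomial (Fin 2) R := C (cX B) * X 0 + C (cY B) * X 1 + C π * QB with hTB
  obtain ⟨P, hP⟩ := sadr_geo π lam
    (-(C ω * (C (2 * b₀ * m + π * m ^ 2) + C (π ^ e' * (b₀ + π * m)) * TB)))
    (C ω * (C (x * (b₀ + π * m)) * X 0 + C (lam * b₀ * m) * X 0 +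
      (C y₁ * X 1 + QN) * C (b₀ + π * m) - C (n₁ + n₂) * TB)) I
  refine ⟨P, fun u y c hc h => hP u y ?_⟩
  rw [hQB, hQN] at h
  have hTBu : eval u TB = cX B * u 0 + cY B * u 1 + π * eval u QB := by
    simp [hTB]
  rw [← hTBu] at h
  have hcan : y * (eval v B + π ^ (e' + 1) * eval u TB) + c * eval u TB =
      cX N * u 0 + cY N * u 1 + π * eval u QN := by
    have h0 : π ^ (e' + 1) ≠ 0 := pow_ne_zero _ hπ0
    apply mul_left_cancel₀ h0
    linear_combination h - hc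
  have hmul : y * ((eval v B + π ^ (e' + 1) * eval u TB) * eval v B) + eval v N * eval u TB =
      (cX N * u 0 + cY N * u 1 + π * eval u QN) * eval v B := by
    linear_combination eval v B * hcan - eval u TB * hc
  rw [hb, hn] at hmul
  have hcx : cX N = lam * b₀ + π * x := by linear_combination hx
  rw [hcx, hy] at hmul
  simp only [map_neg, map_mul, map_add, map_sub, eval_C, eval_X]
  rw [pow_succ] at hmul
  linear_combination ω * hmul + (lam * u 0 - y) * hω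

variable [IsDomain R]

theorem germ_contr {π : R} (hπ : Unif π) {A : Fin 3 → MvPolynomial (Fin 2) R} (hA : Germ π A)
    {p : ℕ → Fin 2 → R} (hp : Orb π A p) {μ : R} (hμ : μ * (A 0).coeff 0 = cX (A 1)) :
    Contr π μ p := by
  intro j j'
  have hsu := hp.small j
  have hsv := hp.small j'
  obtain ⟨r0, s0, h0⟩ := taylor_val (A 0) hsu hsv
  obtain ⟨r1, s1, h1⟩ := taylor_val (A 1) hsu hsv
  obtain ⟨r2, s2, h2⟩ := taylor_val (A 2) hsu hsv
  obtain ⟨mu, hmu⟩ := eval_mod (A 0) hsu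
  obtain ⟨mv, hmv⟩ := eval_mod (A 0) hsv
  obtain ⟨k1, hk1⟩ := eval_mod (A 1) hsv
  obtain ⟨k2, hk2⟩ := eval_mod (A 2) hsv
  obtain ⟨l1, hl1⟩ := hA.c1
  obtain ⟨l2, hl2⟩ := hA.c2
  obtain ⟨y1, hy1⟩ := hA.y1
  obtain ⟨x2, hx2⟩ := hA.x2
  obtain ⟨y2, hy2⟩ := hA.y2
  have e0 := hp.step0 j
  have e0' := hp.step0 j'
  have e1 := hp.step1 j
  have e1' := hp.step1 j'
  have hun : ∀ i, IsUnit (eval (p i) (A 0)) := by
    intro i
    apply hπ.unit
    intro hd
    apply hA.c0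
    have := (dvd_sub_right hd).1 (eval_mod (A 0) (hp.small i))
    exact this
  obtain ⟨ui, hui⟩ := (hun j).exists_left_inv
  obtain ⟨vi, hvi⟩ := (hun j').exists_left_inv
  set a₀ := (A 0).coeff 0
  set U := eval (p j) (A 0)
  set V := eval (p j') (A 0)
  have hU : U = a₀ + π * mu := by linear_combination hmu
  have hV : V = a₀ + π * mv := by linear_combination hmv
  have hN1 : eval (p j') (A 1) = π * (k1 + l1) := by linear_combination hk1 + hl1
  have hN2 : eval (p j') (A 2) = π * (k2 + l2) := by linear_combination hk2 + hl2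
  have key : (p (j + 1) 0 - p (j' + 1) 0) * (U * V) =
      ((cX (A 1) + π * r1) * (p j 0 - p j' 0) + (cY (A 1) + π * s1) * (p j 1 - p j' 1)) * V -
      eval (p j') (A 1) * ((cX (A 0) + π * r0) * (p j 0 - p j' 0) +
        (cY (A 0) + π * s0) * (p j 1 - p j' 1)) := by
    linear_combination V * e0 - U * e0' + V * h1 - eval (p j') (A 1) * h0
  have key2 : (p (j + 1) 1 - p (j' + 1) 1) * (U * V) =
      ((cX (A 2) + π * r2) * (p j 0 - p j' 0) + (cY (A 2) + π * s2) * (p j 1 - p j' 1)) * V -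
      eval (p j') (A 2) * ((cX (A 0) + π * r0) * (p j 0 - p j' 0) +
        (cY (A 0) + π * s0) * (p j 1 - p j' 1)) := by
    linear_combination V * e1 - U * e1' + V * h2 - eval (p j') (A 2) * h0
  refine ⟨-(μ * ui * mu) + ui * r1 - ui * vi * (k1 + l1) * (cX (A 0) + π * r0),
    ui * (y1 + s1) - ui * vi * (k1 + l1) * (cY (A 0) + π * s0),
    ui * (x2 + r2) - ui * vi * (k2 + l2) * (cX (A 0) + π * r0),
    ui * (y2 + s2) - ui * vi * (k2 + l2) * (cY (A 0) + π * s0), ?_, ?_⟩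
  · linear_combination ui * vi * key - (p (j + 1) 0 - p (j' + 1) 0) * vi * V * hui -
      (p (j + 1) 0 - p (j' + 1) 0) * hvi +
      ui * ((cX (A 1) + π * r1) * (p j 0 - p j' 0) +
        (cY (A 1) + π * s1) * (p j 1 - p j' 1)) * hvi +
      μ * (p j 0 - p j' 0) * hui - μ * (p j 0 - p j' 0) * ui * hU -
      ui * (p j 0 - p j' 0) * hμ + ui * (p j 1 - p j' 1) * hy1 -
      ui * vi * ((cX (A 0) + π * r0) * (p j 0 - p j' 0) +
        (cY (A 0) + π * s0) * (p j 1 - p j' 1)) * hN1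
  · linear_combination ui * vi * key2 - (p (j + 1) 1 - p (j' + 1) 1) * vi * V * hui -
      (p (j + 1) 1 - p (j' + 1) 1) * hvi +
      ui * ((cX (A 2) + π * r2) * (p j 0 - p j' 0) +
        (cY (A 2) + π * s2) * (p j 1 - p j' 1)) * hvi +
      ui * (p j 0 - p j' 0) * hx2 + ui * (p j 1 - p j' 1) * hy2 -
      ui * vi * ((cX (A 0) + π * r0) * (p j 0 - p j' 0) +
        (cY (A 0) + π * s0) * (p j 1 - p j' 1)) * hN2

theorem germ_recu {π : R} (hπ : Unif π) {A : Fin 3 → MvPolynomial (Fin 2) R} (hA : Germ π A)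
    {p : ℕ → Fin 2 → R} (hp : Orb π A p) {μ : R} (hμ : μ * (A 0).coeff 0 = cX (A 1))
    {j₀ e : ℕ} (he : 1 ≤ e) {ξ : ℕ → Fin 2 → R}
    (hξ : ∀ t i, p (j₀ + t) i = p j₀ i + π ^ e * ξ t i) : Recu π μ ξ := by
  obtain ⟨ω₁, hω₁⟩ := (hπ.unit _ hA.c0).exists_left_inv
  have hω : ω₁ ^ 2 * (A 0).coeff 0 ^ 2 = 1 := by
    rw [← mul_pow, hω₁, one_pow]
  refine ⟨ξ 1, fun I => ?_⟩
  obtain ⟨P₁, hP₁⟩ := sadr_coord hπ.prime.ne_zero (hp.small j₀) he (A 0) (A 1) hω hA.c1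
    (lam := μ) (by rw [hμ, sub_self]; exact dvd_zero _) hA.y1 I
  obtain ⟨P₂, hP₂⟩ := sadr_coord hπ.prime.ne_zero (hp.small j₀) he (A 0) (A 2) hω hA.c2
    (lam := 0) (by rw [zero_mul, sub_zero]; exact hA.x2) hA.y2 I
  refine ⟨P₁, P₂, fun t => ?_⟩
  have hpt : p (j₀ + t) = fun i => p j₀ i + π ^ e * ξ t i := funext (hξ t)
  have hs0 := hp.step0 (j₀ + t)
  have hs1 := hp.step1 (j₀ + t)
  have ha0 := hξ (t + 1) 0
  have ha1 := hξ (t + 1) 1
  have hb0 := hξ 1 0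
  have hb1 := hξ 1 1
  rw [← add_assoc] at ha0 ha1
  constructor
  · have h := hP₁ (ξ t) (ξ (t + 1) 0 - ξ 1 0) (p (j₀ + 1) 0) (hp.step0 j₀) (by
      rw [← hpt, ← hs0]
      congr 1
      rw [ha0, hb0]; ring)
    convert h using 1
    ring
  · have h := hP₂ (ξ t) (ξ (t + 1) 1 - ξ 1 1) (p (j₀ + 1) 1) (hp.step1 j₀) (by
      rw [← hpt, ← hs1]
      congr 1
      rw [ha1, hb1]; ring)
    convert h using 1
    ring

end Pool.Agent.Helper63.TS
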