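import Pool.Agent.Helper63.TS.Defs

/-!
# Taylor expansions in the open bidisc
-/

set_option autoImplicit false

namespace Pool.Agent.Helper63.TS

open MvPolynomial

variable {R : Type} [CommRing R]

theorem SadT_coeff0_mul_X (P : MvPolynomial (Fin 2) R) (i : Fin 2) :
    (P * X i).coeff 0 = 0 := by
  classical
  rw [coeff_mul_X']
  simp

theorem SadT_single_mul_X (P : MvPolynomial (Fin 2) R) (i : Fin 2) :
    (P * X i).coeff (Finsupp.single i 1) = P.coeff 0 := by
  classical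
  rw [coeff_mul_X']
  simp

theorem SadT_single_mul_X_ne (P : MvPolynomial (Fin 2) R) {i j : Fin 2} (h : i ≠ j) :
    (P * X i).coeff (Finsupp.single j 1) = 0 := by
  classical
  rw [coeff_mul_X']
  simp [h]

theorem SadT_coeff_C (a : R) (i : Fin 2) :
    (C a : MvPolynomial (Fin 2) R).coeff (Finsupp.single i 1) = 0 := by
  classical
  rw [coeff_C, if_neg]
  intro h
  have := DFunLike.congr_fun h i
  simp at this

/-- Expansion up to the second order. -/
theorem SadT_expand (P : MvPolynomial (Fin 2) R) : ∃ A B D : MvPolynomial (Fin 2) R,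
    P = C (P.coeff 0) + C (cX P) * X 0 + C (cY P) * X 1 + X 0 ^ 2 * A + X 0 * X 1 * B +
      X 1 ^ 2 * D := by
  induction P using MvPolynomial.induction_on with
  | C a =>
    refine ⟨0, 0, 0, ?_⟩
    have h1 : cX (C a : MvPolynomial (Fin 2) R) = 0 := SadT_coeff_C a 0
    have h2 : cY (C a : MvPolynomial (Fin 2) R) = 0 := SadT_coeff_C a 1
    rw [h1, h2]
    simp
  | add P Q hP hQ =>
    obtain ⟨A, B, D, h⟩ := hP
    obtain ⟨A', B', D', h'⟩ := hQ
    refine ⟨A + A', B + B', D + D', ?_⟩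
    have h1 : cX (P + Q) = cX P + cX Q := by simp [cX]
    have h2 : cY (P + Q) = cY P + cY Q := by simp [cY]
    rw [h1, h2, coeff_add]
    simp only [C_add]
    linear_combination h + h'
  | mul_X P i hP =>
    obtain ⟨A, B, D, h⟩ := hP
    fin_cases i
    · have h1 : cX (P * X 0) = P.coeff 0 := SadT_single_mul_X P 0
      have h2 : cY (P * X 0) = 0 := SadT_single_mul_X_ne P (by decide)
      have h0 : (P * X 0).coeff 0 = 0 := SadT_coeff0_mul_X P 0
      refine ⟨C (cX P) + X 0 * A + X 1 * B, C (cY P) + X 1 * D, 0, ?_⟩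
      change P * X 0 = C ((P * X 0).coeff 0) + C (cX (P * X 0)) * X 0 + C (cY (P * X 0)) * X 1 + _
        + _ + _
      rw [h1, h2, h0, C_0]
      linear_combination X 0 * h
    · have h1 : cY (P * X 1) = P.coeff 0 := SadT_single_mul_X P 1
      have h2 : cX (P * X 1) = 0 := SadT_single_mul_X_ne P (by decide)
      have h0 : (P * X 1).coeff 0 = 0 := SadT_coeff0_mul_X P 1
      refine ⟨0, C (cX P) + X 0 * A, C (cY P) + X 1 * D + X 0 * B, ?_⟩
      change P * X 1 = C ((P * X 1).coeff 0) + C (cX (P * X 1)) * X 0 + C (cY (P * X 1)) * X 1 + _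
        + _ + _
      rw [h1, h2, h0, C_0]
      linear_combination X 1 * h

theorem SadT_diff (P : MvPolynomial (Fin 2) R) (u v : Fin 2 → R) :
    ∃ r s : R, eval u P - eval v P = r * (u 0 - v 0) + s * (u 1 - v 1) := by
  induction P using MvPolynomial.induction_on with
  | C a => exact ⟨0, 0, by simp⟩
  | add P Q hP hQ =>
    obtain ⟨r, s, h⟩ := hP
    obtain ⟨r', s', h'⟩ := hQ
    refine ⟨r + r', s + s', ?_⟩
    rw [map_add, map_add]
    linear_combination h + h'
  | mul_X P i hP =>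
    obtain ⟨r, s, h⟩ := hP
    fin_cases i
    · refine ⟨r * u 0 + eval v P, s * u 0, ?_⟩
      simp only [Fin.zero_eta, map_mul, eval_X]
      linear_combination u 0 * h
    · refine ⟨r * u 1, s * u 1 + eval v P, ?_⟩
      simp only [Fin.mk_one, map_mul, eval_X]
      linear_combination u 1 * h

theorem SadT_shift (P : MvPolynomial (Fin 2) R) (v : Fin 2 → R) (c : R) :
    ∃ Q : MvPolynomial (Fin 2) R, ∀ u : Fin 2 → R,
      eval (fun i => v i + c * u i) P = eval v P + c * eval u Q := by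
  induction P using MvPolynomial.induction_on with
  | C a => exact ⟨0, fun u => by simp⟩
  | add P Q hP hQ =>
    obtain ⟨A, h⟩ := hP
    obtain ⟨B, h'⟩ := hQ
    refine ⟨A + B, fun u => ?_⟩
    rw [map_add, map_add, map_add, h u, h' u]
    ring
  | mul_X P i hP =>
    obtain ⟨A, h⟩ := hP
    refine ⟨A * C (v i) + C (eval v P) * X i + C c * A * X i, fun u => ?_⟩
    simp only [map_mul, eval_X, map_add, eval_C]
    rw [h u]
    ring

theorem taylor_val {π : R} (P : MvPolynomial (Fin 2) R) {u v : Fin 2 → R} (hu : ∀ i, π ∣ u i)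
    (hv : ∀ i, π ∣ v i) :
    ∃ r s : R, eval u P - eval v P =
      (cX P + π * r) * (u 0 - v 0) + (cY P + π * s) * (u 1 - v 1) := by
  obtain ⟨A, B, D, h⟩ := SadT_expand P
  have he : ∀ w : Fin 2 → R, eval w P = P.coeff 0 + cX P * w 0 + cY P * w 1 + w 0 ^ 2 * eval w A +
      w 0 * w 1 * eval w B + w 1 ^ 2 * eval w D := by
    intro w
    have := congrArg (eval w) h
    simpa only [map_add, map_mul, eval_C, eval_X, map_pow] using this
  obtain ⟨u0, hu0⟩ := hu 0
  obtain ⟨u1, hu1⟩ := hu 1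
  obtain ⟨v0, hv0⟩ := hv 0
  obtain ⟨v1, hv1⟩ := hv 1
  obtain ⟨a, a', ha⟩ := SadT_diff A u v
  obtain ⟨b, b', hb⟩ := SadT_diff B u v
  obtain ⟨d, d', hd⟩ := SadT_diff D u v
  refine ⟨(u0 + v0) * eval u A + π * v0 ^ 2 * a + u1 * eval u B + π * v0 * v1 * b +
      π * v1 ^ 2 * d, π * v0 ^ 2 * a' + v0 * eval u B + π * v0 * v1 * b' +
      (u1 + v1) * eval u D + π * v1 ^ 2 * d', ?_⟩
  rw [he u, he v]
  have f1 : eval v A = eval u A - (a * (u 0 - v 0) + a' * (u 1 - v 1)) := by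
    linear_combination -ha
  have f2 : eval v B = eval u B - (b * (u 0 - v 0) + b' * (u 1 - v 1)) := by
    linear_combination -hb
  have f3 : eval v D = eval u D - (d * (u 0 - v 0) + d' * (u 1 - v 1)) := by
    linear_combination -hd
  rw [f1, f2, f3, hu0, hu1, hv0, hv1]
  ring

theorem eval_mod {π : R} (P : MvPolynomial (Fin 2) R) {u : Fin 2 → R} (hu : ∀ i, π ∣ u i) :
    π ∣ eval u P - P.coeff 0 := by
  obtain ⟨A, B, D, h⟩ := SadT_expand P
  have he := congrArg (eval u) h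
  simp only [map_add, map_mul, eval_C, eval_X, map_pow] at he
  obtain ⟨u0, hu0⟩ := hu 0
  obtain ⟨u1, hu1⟩ := hu 1
  refine ⟨cX P * u0 + cY P * u1 + π * u0 ^ 2 * eval u A + π * u0 * u1 * eval u B +
    π * u1 ^ 2 * eval u D, ?_⟩
  rw [he, hu0, hu1]
  ring

theorem taylor_pol {π : R} (P : MvPolynomial (Fin 2) R) {v : Fin 2 → R} (hv : ∀ i, π ∣ v i)
    {e : ℕ} (he : 1 ≤ e) :
    ∃ Q : MvPolynomial (Fin 2) R, ∀ u : Fin 2 → R,
      eval (fun i => v i + π ^ e * u i) P =
        eval v P + π ^ e * (cX P * u 0 + cY P * u 1 + π * eval u Q) := by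
  obtain ⟨A, B, D, h⟩ := SadT_expand P
  have hw : ∀ w : Fin 2 → R, eval w P = P.coeff 0 + cX P * w 0 + cY P * w 1 + w 0 ^ 2 * eval w A +
      w 0 * w 1 * eval w B + w 1 ^ 2 * eval w D := by
    intro w
    have := congrArg (eval w) h
    simpa only [map_add, map_mul, eval_C, eval_X, map_pow] using this
  obtain ⟨v0, hv0⟩ := hv 0
  obtain ⟨v1, hv1⟩ := hv 1
  obtain ⟨QA, hA⟩ := SadT_shift A v (π ^ e)
  obtain ⟨QB, hB⟩ := SadT_shift B v (π ^ e)
  obtain ⟨QD, hD⟩ := SadT_shift D v (π ^ e)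
  obtain ⟨e', rfl⟩ := Nat.exists_eq_add_of_le he
  refine ⟨C (π * v0 ^ 2) * QA + (C (2 * v0) * X 0 + C (π ^ e') * X 0 ^ 2) *
      (C (eval v A) + C (π ^ (1 + e')) * QA) +
      (C (π * v0 * v1) * QB + (C v0 * X 1 + C v1 * X 0 + C (π ^ e') * X 0 * X 1) *
      (C (eval v B) + C (π ^ (1 + e')) * QB)) +
      (C (π * v1 ^ 2) * QD + (C (2 * v1) * X 1 + C (π ^ e') * X 1 ^ 2) *
      (C (eval v D) + C (π ^ (1 + e')) * QD)), fun u => ?_⟩
  rw [hw, hw v, hA u, hB u, hD u]
  simp only [map_add, map_mul, eval_C, eval_X, map_pow]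
  rw [hv0, hv1]
  ring

end Pool.Agent.Helper63.TS
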