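import Pool.Agent.Helper63.TS.SadR
import Pool.Agent.Helper63.TS.SadA
import Pool.Agent.Helper63.TS.SadB

/-!
# Orbits of a saddle germ which meet a transversal curve infinitely often
-/

set_option autoImplicit false

namespace Pool.Agent.Helper63.TS

open MvPolynomial

variable {R : Type} [CommRing R] [IsDomain R]

private theorem saddle_eval_shift (P : MvPolynomial (Fin 2) R) (v : Fin 2 → R) (c : R)
    (u : Fin 2 → R) :
    eval u (aeval (fun i : Fin 2 => (C (v i) + C c * X i : MvPolynomial (Fin 2) R)) P) =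
      eval (fun i => v i + c * u i) P := by
  induction P using MvPolynomial.induction_on with
  | C a => simp
  | add p q hp hq => rw [map_add, map_add, map_add, hp, hq]
  | mul_X p i hp => rw [map_mul, map_mul, map_mul, hp, aeval_X, eval_X]; simp

theorem saddle {π : R} (hπ : Unif π) {A : Fin 3 → MvPolynomial (Fin 2) R} (hA : Germ π A)
    {p : ℕ → Fin 2 → R} (hp : Orb π A p) (hinj : Function.Injective p) {μ : R}
    (hμ : μ * (A 0).coeff 0 = cX (A 1))
    (hμ1 : ∀ t, 1 ≤ t → ¬ π ∣ ∑ i ∈ Finset.range t, μ ^ i)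
    {H : MvPolynomial (Fin 2) R} (hH : ¬ π ∣ cY H)
    (hinf : {j | eval (p j) H = 0}.Infinite) (ρ : Polynomial R)
    (hρ : ∀ I j, π ^ I ∣ eval (p j) H → π ^ I ∣ eval (p (j + 1)) H →
      π ^ I ∣ ρ.eval (p j 0)) : ρ = 0 := by
  have hμ0 : ¬ π ∣ μ := fun h => hA.x1 (hμ ▸ Dvd.dvd.mul_right h _)
  have hμu : IsUnit μ := hπ.unit μ hμ0
  have hc : Contr π μ p := germ_contr hπ hA hp hμ
  -- two returns
  obtain ⟨s, hs⟩ := hinf.nonempty
  obtain ⟨s', hs', hss⟩ := hinf.exists_gt s
  have hdom : ∃ r, p s' 1 - p s 1 = r * (p s' 0 - p s 0) := by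
    obtain ⟨r, t, h⟩ := taylor_val H (hp.small s') (hp.small s)
    rw [Set.mem_setOf_eq] at hs hs'
    rw [hs, hs', sub_zero] at h
    have hnd : ¬ π ∣ cY H + π * t := fun hd => hH ((dvd_add_left (dvd_mul_right π t)).1 hd)
    obtain ⟨w, hw⟩ := (hπ.unit _ hnd).exists_left_inv
    refine ⟨-w * (cX H + π * r), ?_⟩
    linear_combination (-w) * h - (p s' 1 - p s 1) * hw
  obtain ⟨j₀, e, ξ, hξ, hsep⟩ := separation hπ hinj hμ0 hμ1 hc hss hdom
  have he : 1 ≤ e := by
    rcases Nat.eq_zero_or_pos e with h0 | h0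
    · exfalso
      subst h0
      have h1 : ∀ t, ξ t 0 = p (j₀ + t) 0 - p j₀ 0 := fun t => by
        rw [hξ t 0]; ring
      refine hsep 0 1 (by norm_num) ?_
      rw [h1, h1]
      exact dvd_sub (dvd_sub (hp.small _ _) (hp.small _ _))
        (dvd_sub (hp.small _ _) (hp.small _ _))
    · exact h0
  have hrec : Recu π μ ξ := germ_recu hπ hA hp hμ he hξ
  have hπ0 : π ≠ 0 := hπ.prime.ne_zero
  -- the curve in the rescaled coordinates
  set He : MvPolynomial (Fin 2) R :=
    aeval (fun i : Fin 2 => (C (p j₀ i) + C (π ^ e) * X i : MvPolynomial (Fin 2) R)) H with hHe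
  have hev : ∀ t, eval (ξ t) He = eval (p (j₀ + t)) H := by
    intro t
    have h1 : (fun i => p j₀ i + π ^ e * ξ t i) = p (j₀ + t) :=
      funext fun i => (hξ t i).symm
    rw [hHe, saddle_eval_shift, h1]
  -- infinitely many returns after every time
  have hinf' : ∀ T, {t | T ≤ t ∧ eval (p (j₀ + t)) H = 0}.Infinite := by
    intro T
    rw [Set.infinite_iff_exists_gt] at hinf ⊢
    intro a
    obtain ⟨b, hb, hab⟩ := hinf (j₀ + a + T)
    refine ⟨b - j₀, ⟨by omega, ?_⟩, by omega⟩
    have : j₀ + (b - j₀) = b := by omega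
    rw [this]
    exact hb
  have hall : ∀ I, ∃ T, ∀ t, T ≤ t → π ^ I ∣ eval (p (j₀ + t)) H := by
    intro I
    obtain ⟨q, T, hq⟩ := straight hμu hrec I He
    refine ⟨T, fun t ht => ?_⟩
    have hd : Polynomial.C (π ^ I) ∣ q := by
      refine poly_dvd hπ.prime (ξ := fun t => ξ t 0) hsep ((hinf' T).mono ?_)
      rintro t ⟨ht, h0⟩
      have := hq t ht
      rw [hev, h0, zero_sub, dvd_neg] at this
      exact this
    obtain ⟨q', rfl⟩ := hd
    have h1 := hq t ht
    rw [hev, Polynomial.eval_mul, Polynomial.eval_C] at h1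
    exact (dvd_sub_left (dvd_mul_right _ _)).1 h1
  -- the polynomial in the rescaled coordinate
  set l : Polynomial R := Polynomial.C (p j₀ 0) + Polynomial.C (π ^ e) * Polynomial.X with hl
  have hcomp : ∀ I, Polynomial.C (π ^ I) ∣ ρ.comp l := by
    intro I
    obtain ⟨T, hT⟩ := hall I
    refine poly_dvd hπ.prime (ξ := fun t => ξ t 0) hsep ((Set.Ici_infinite T).mono ?_)
    intro t ht
    have h1 := hρ I (j₀ + t) (hT t ht) (by
      have := hT (t + 1) (le_trans ht (Nat.le_succ t))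
      rwa [← add_assoc] at this)
    rw [hξ t 0] at h1
    rw [Set.mem_setOf_eq, Polynomial.eval_comp, hl]
    simpa using h1
  have hz : ρ.comp l = 0 := by
    ext n
    rw [Polynomial.coeff_zero]
    by_contra hne
    obtain ⟨m, u, hu, hm⟩ := hπ.fact _ hne
    have h1 := (Polynomial.C_dvd_iff_dvd_coeff _ _).1 (hcomp (m + 1)) n
    rw [hm, pow_succ] at h1
    exact hu ((mul_dvd_mul_iff_left (pow_ne_zero m hπ0)).1 h1)
  rcases Polynomial.comp_eq_zero_iff.1 hz with h | ⟨_, h⟩
  · exact h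
  · exfalso
    have h1 := congrArg (fun f => Polynomial.coeff f 1) h
    simp only [hl, Polynomial.coeff_add, Polynomial.coeff_C_mul, Polynomial.coeff_X_one,
      mul_one] at h1
    rw [Polynomial.coeff_C_of_ne_zero one_ne_zero, Polynomial.coeff_C_of_ne_zero one_ne_zero,
      zero_add] at h1
    exact pow_ne_zero e hπ0 h1

end Pool.Agent.Helper63.TS
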