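import Pool.Agent.Helper63.TS.Defs

/-!
# Transversality of the kernel to the critical curve
-/

set_option autoImplicit false

namespace Pool.Agent.Helper63.TS

open MvPolynomial
open Pool.Agent.Helper16 (Place IsFunctionField)
open Pool.Agent.Helper36 (step iter exists_nullstellensatz)
open Pool.Agent.Helper30.TP
open Pool.Agent.Helper63.TK

section aux

/-- The entries of the adjugate of a `3 × 3` matrix. -/
theorem trans_adj3 {R : Type} [CommRing R] (A : Matrix (Fin 3) (Fin 3) R) (i j : Fin 3) :
    A.adjugate i j =
      A (j + 1) (i + 1) * A (j + 2) (i + 2) - A (j + 1) (i + 2) * A (j + 2) (i + 1) := by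
  rw [Matrix.adjugate_fin_three]
  fin_cases i <;> fin_cases j <;> simp <;> ring

/-- A derivation which preserves the kernel of a surjection induces a derivation. -/
theorem trans_quot {k S A : Type} [CommRing k] [CommRing S] [CommRing A] [Algebra k S]
    [Algebra k A] (π : S →ₐ[k] A) (hπ : Function.Surjective π) (D : Derivation k S S)
    (hker : ∀ a, π a = 0 → π (D a) = 0) :
    ∃ D' : Derivation k A A, ∀ s, D' (π s) = π (D s) := by
  have hw : ∀ s t : S, π s = π t → π (D s) = π (D t) := by
    intro s t h
    have h1 : π (s - t) = 0 := by rw [map_sub, h, sub_self]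
    have h2 := hker _ h1
    rw [map_sub, map_sub, sub_eq_zero] at h2
    exact h2
  have hs : ∀ a, π (Function.surjInv hπ a) = a := Function.surjInv_eq hπ
  let L : A →ₗ[k] A :=
    { toFun := fun a => π (D (Function.surjInv hπ a))
      map_add' := by
        intro a b
        rw [← map_add, ← map_add]
        exact hw _ _ (by rw [hs, map_add, hs, hs])
      map_smul' := by
        intro c a
        have h1 : c • π (D (Function.surjInv hπ a)) = π (D (c • Function.surjInv hπ a)) := by
          rw [D.map_smul, map_smul]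
        rw [RingHom.id_apply, h1]
        exact hw _ _ (by rw [hs, map_smul, hs]) }
  have hL : ∀ s, L (π s) = π (D s) := fun s => hw _ _ (hs _)
  refine ⟨Derivation.mk' L ?_, hL⟩
  intro a b
  obtain ⟨s, rfl⟩ := hπ a
  obtain ⟨t, rfl⟩ := hπ b
  rw [← map_mul, hL, hL, hL, Derivation.leibniz, map_add, smul_eq_mul, smul_eq_mul, map_mul,
    map_mul, smul_eq_mul, smul_eq_mul]

end aux

section

variable {K : Type} [Field K]

theorem trans_eval_adj (F : Fin 3 → MvPolynomial (Fin 3) K) (y : Fin 3 → K) (i j : Fin 3) :
    eval y ((jm F).adjugate i j) = (jac F y).adjugate i j := by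
  have h := RingHom.map_adjugate (eval y) (jm F)
  exact congrFun (congrFun h i) j

theorem eval_rf (F : Fin 3 → MvPolynomial (Fin 3) K) (h : MvPolynomial (Fin 3) K) (j : Fin 3)
    (y : Fin 3 → K) :
    eval y (rf F h j) = ∑ i, eval y (pderiv i h) * (jac F y).adjugate i j := by
  unfold rf
  rw [map_sum]
  refine Finset.sum_congr rfl fun i _ => ?_
  rw [map_mul, trans_eval_adj]

theorem rf_hom {d D : ℕ} {F : Fin 3 → MvPolynomial (Fin 3) K} (hF : ∀ i, (F i).IsHomogeneous d)
    {h : MvPolynomial (Fin 3) K} (hh : h.IsHomogeneous D) (j : Fin 3) :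
    (rf F h j).IsHomogeneous ((D - 1) + 2 * (d - 1)) := by
  unfold rf
  refine IsHomogeneous.sum _ _ _ fun i _ => hh.pderiv.mul ?_
  rw [trans_adj3, two_mul]
  have h1 : ∀ a b, (jm F a b).IsHomogeneous (d - 1) := fun a b => (hF a).pderiv
  exact ((h1 _ _).mul (h1 _ _)).sub ((h1 _ _).mul (h1 _ _))

/-- All variables are integral over the subalgebra generated by `F`. -/
theorem trans_isIntegral [Algebra K ℂ] {d : ℕ} {F : Fin 3 → MvPolynomial (Fin 3) K}
    (hF : IsEndo d fun i => map (algebraMap K ℂ) (F i)) (x : MvPolynomial (Fin 3) K) :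
    IsIntegral (Algebra.adjoin K (Set.range F)) x := by
  classical
  have hhom : ∀ i, (F i).IsHomogeneous d := by
    intro i m hm
    refine hF.hom i ?_
    rw [coeff_map]
    simpa using hm
  obtain ⟨M, q, hqh, hq⟩ := exists_nullstellensatz (L := ℂ) F hhom (by
    intro x hx
    refine hF.nz x fun i => ?_
    have h := hx i
    rw [eval_map]
    exact h)
  have hd : 0 < d := by have := hF.two_le; omega
  set R := Algebra.adjoin K (Set.range F) with hR
  set B : ℕ := 3 * (M + d) with hB
  let T : Finset (MvPolynomial (Fin 3) K) :=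
    ((Finset.range B).biUnion fun n => (Finset.univ : Finset (Fin 3)).finsuppAntidiag n).image
      fun m => monomial m 1
  let N : Submodule R (MvPolynomial (Fin 3) K) := Submodule.span R (T : Set _)
  have hmem : ∀ n : ℕ, ∀ P : MvPolynomial (Fin 3) K, P.IsHomogeneous n → P ∈ N := by
    intro n
    induction n using Nat.strong_induction_on with
    | _ n ih =>
      intro P hP
      rw [P.as_sum]
      refine Submodule.sum_mem _ fun m hm => ?_
      have hdegm : m.degree = n := by
        have := hP (mem_support_iff.1 hm)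
        rw [← this, Finsupp.degree_eq_weight_one]
        rfl
      have hsum : m 0 + m 1 + m 2 = n := by
        rw [← hdegm, Finsupp.degree_eq_sum, Fin.sum_univ_three]
      by_cases hnB : n < B
      · have h1 : monomial m (P.coeff m) =
            (algebraMap K R (P.coeff m)) • (monomial m (1 : K)) := by
          rw [Algebra.smul_def]
          change _ = (C (P.coeff m)) * _
          rw [C_mul_monomial, mul_one]
        rw [h1]
        refine Submodule.smul_mem _ _ (Submodule.subset_span ?_)
        rw [Finset.mem_coe, Finset.mem_image]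
        refine ⟨m, ?_, rfl⟩
        rw [Finset.mem_biUnion]
        refine ⟨n, Finset.mem_range.2 hnB, ?_⟩
        rw [Finset.mem_finsuppAntidiag]
        refine ⟨?_, Finset.subset_univ _⟩
        rw [Fin.sum_univ_three]
        exact hsum
      · have h2 : ∃ j, M + d ≤ m j := by
          by_contra hcon
          push Not at hcon
          have h0 := hcon 0
          have h1 := hcon 1
          have h2 := hcon 2
          omega
        obtain ⟨j, hj⟩ := h2
        set r : Fin 3 →₀ ℕ := m - Finsupp.single j (M + d) with hr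
        have hmr : m = Finsupp.single j (M + d) + r := by
          rw [hr, add_tsub_cancel_of_le]
          rwa [Finsupp.single_le_iff]
        have hrdeg : (M + d) + r.degree = n := by
          rw [← hdegm, hmr, map_add, Finsupp.degree_single]
        have h3 : monomial m (P.coeff m) = ∑ i, F i * (q (j, i) * monomial r (P.coeff m)) := by
          have h4 : monomial m (P.coeff m) = X j ^ (M + d) * monomial r (P.coeff m) := by
            rw [X_pow_eq_monomial, monomial_mul, one_mul, ← hmr]
          rw [h4, ← hq j, Finset.sum_mul]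
          refine Finset.sum_congr rfl fun i _ => ?_
          ring
        rw [h3]
        refine Submodule.sum_mem _ fun i _ => ?_
        have h5 : q (j, i) * monomial r (P.coeff m) ∈ N := by
          refine ih (M + r.degree) (by omega) _ ((hqh (j, i)).mul ?_)
          exact isHomogeneous_monomial _ rfl
        have h6 : F i * (q (j, i) * monomial r (P.coeff m)) =
            (⟨F i, Algebra.subset_adjoin ⟨i, rfl⟩⟩ : R) • (q (j, i) * monomial r (P.coeff m)) :=
          rfl
        rw [h6]
        exact Submodule.smul_mem _ _ h5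
  have htop : N = ⊤ := by
    rw [eq_top_iff]
    intro P _
    rw [← sum_homogeneousComponent P]
    exact Submodule.sum_mem _ fun n _ => hmem n _ (homogeneousComponent_isHomogeneous n P)
  have hfin : Module.Finite R (MvPolynomial (Fin 3) K) := ⟨⟨T, htop⟩⟩
  exact IsIntegral.of_finite R x

/-- The kernel of the derivative is transversal to the curve `h = 0` at its generic points. -/
theorem exists_rf_not_dvd [Algebra K ℂ] {d : ℕ} {F : Fin 3 → MvPolynomial (Fin 3) K}
    (hF : IsEndo d fun i => map (algebraMap K ℂ) (F i)) {h : MvPolynomial (Fin 3) K}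
    (hirr : Irreducible h) (hJ : h ∣ jf F) {y : Fin 3 → K} (hy : eval y h = 0)
    (hadj : (jac F y).adjugate ≠ 0) : ∃ j, ¬ h ∣ rf F h j := by
  classical
  by_contra hcon
  push Not at hcon
  have hchar : CharZero K := (algebraMap K ℂ).charZero
  -- a non-zero entry
  obtain ⟨a, c, hac⟩ : ∃ a c, (jac F y).adjugate a c ≠ 0 := by
    by_contra h0
    push Not at h0
    exact hadj (by ext i j; exact h0 i j)
  -- the derivation
  let D : Derivation K (MvPolynomial (Fin 3) K) (MvPolynomial (Fin 3) K) :=
    (jm F).adjugate 0 c • pderiv 0 + (jm F).adjugate 1 c • pderiv 1 +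
      (jm F).adjugate 2 c • pderiv 2
  have hDap : ∀ P, D P = ∑ i, (jm F).adjugate i c * pderiv i P := by
    intro P
    rw [Fin.sum_univ_three]
    rfl
  have hDh : h ∣ D h := by
    have h1 : D h = rf F h c := by
      rw [hDap]
      exact Finset.sum_congr rfl fun i _ => mul_comm _ _
    rw [h1]
    exact hcon c
  have hDF : ∀ l, h ∣ D (F l) := by
    intro l
    have h1 : D (F l) = (jm F * (jm F).adjugate) l c := by
      rw [hDap, Matrix.mul_apply]
      exact Finset.sum_congr rfl fun i _ => mul_comm _ _
    rw [h1, Matrix.mul_adjugate, Matrix.smul_apply, smul_eq_mul]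
    exact Dvd.dvd.mul_right hJ _
  -- the quotient
  set I : Ideal (MvPolynomial (Fin 3) K) := Ideal.span {h} with hI
  have hprime : I.IsPrime := (Ideal.span_singleton_prime hirr.ne_zero).2 hirr.prime
  let π : MvPolynomial (Fin 3) K →ₐ[K] (MvPolynomial (Fin 3) K ⧸ I) := Ideal.Quotient.mkₐ K I
  have hπs : Function.Surjective π := Ideal.Quotient.mkₐ_surjective K I
  have hπ0 : ∀ P, π P = 0 ↔ h ∣ P := by
    intro P
    rw [← Ideal.mem_span_singleton, ← hI]
    exact Ideal.Quotient.eq_zero_iff_mem
  have hcharA : CharZero (MvPolynomial (Fin 3) K ⧸ I) :=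
    charZero_of_injective_algebraMap (algebraMap K (MvPolynomial (Fin 3) K ⧸ I)).injective
  obtain ⟨D', hD'⟩ := trans_quot π hπs D (by
    intro P hP
    rw [hπ0] at hP ⊢
    obtain ⟨Q, rfl⟩ := hP
    rw [Derivation.leibniz, smul_eq_mul, smul_eq_mul]
    exact dvd_add (Dvd.intro _ rfl) (Dvd.dvd.mul_left hDh _))
  have hkill : ∀ P ∈ Algebra.adjoin K (Set.range F), π (D P) = 0 := by
    intro P hP
    induction hP using Algebra.adjoin_induction with
    | mem x hx =>
      obtain ⟨i, rfl⟩ := hx
      exact (hπ0 _).2 (hDF i)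
    | algebraMap r => rw [D.map_algebraMap, map_zero]
    | add x y _ _ hx hy => rw [map_add, map_add, hx, hy, add_zero]
    | mul x y _ _ hx hy =>
      rw [Derivation.leibniz, smul_eq_mul, smul_eq_mul, map_add, map_mul, map_mul, hx, hy,
        mul_zero, mul_zero, add_zero]
  -- conclusion
  let R := Algebra.adjoin K (Set.range F)
  have hkill' : ∀ u ∈ R.map π, D' u = 0 := by
    rintro _ ⟨P, hP, rfl⟩
    exact (hD' P).trans (hkill P hP)
  have hint : IsIntegral (R.map π) (π (X a)) := by
    have h1 : IsIntegral R (X a : MvPolynomial (Fin 3) K) := trans_isIntegral hF (X a)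
    let φ : R →+* (R.map π) :=
      { toFun := fun r => ⟨π r, ⟨r, r.2, rfl⟩⟩
        map_one' := Subtype.ext (map_one π)
        map_mul' := fun r s => Subtype.ext (map_mul π _ _)
        map_zero' := Subtype.ext (map_zero π)
        map_add' := fun r s => Subtype.ext (map_add π _ _) }
    exact h1.map_of_comp_eq φ π.toRingHom (RingHom.ext fun r => rfl)
  obtain ⟨Q, hQ, h0⟩ := hint
  have h1 := derivation_algebraic (R.map π) D' hkill' (π (X a)) Q.natDegree Q hQ.ne_zero le_rfl h0
  rw [hD', hπ0] at h1
  have h2 : D (X a) = (jm F).adjugate a c := by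
    rw [hDap]
    simp [pderiv_X, Pi.single_apply]
  rw [h2] at h1
  obtain ⟨Q', hQ'⟩ := h1
  apply hac
  rw [← trans_eval_adj, hQ', map_mul, hy, zero_mul]

end

theorem redP_rf {k K : Type} [Field k] [Field K] [Algebra k K] {b : Place k K}
    {F : Fin 3 → MvPolynomial (Fin 3) K} {f : Fin 3 → MvPolynomial (Fin 3) k}
    (hf : ∀ i, RedP b (F i) (f i)) {h : MvPolynomial (Fin 3) K} {g : MvPolynomial (Fin 3) k}
    (hh : RedP b h g) (j : Fin 3) : RedP b (rf F h j) (rf f g j) := by
  unfold rf
  refine RedP.sum _ fun i _ => (hh.pderiv i).mul ?_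
  rw [trans_adj3, trans_adj3, sub_eq_add_neg, sub_eq_add_neg]
  have h1 : ∀ a c, RedP b (jm F a c) (jm f a c) := fun a c => (hf a).pderiv c
  exact ((h1 _ _).mul (h1 _ _)).add ((h1 _ _).mul (h1 _ _)).neg

end Pool.Agent.Helper63.TS
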